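import Pool.Agent.MC.Defs

/-!
# Metacyclic `p`-groups: the normal form `b ^ v a ^ u`
-/

set_option autoImplicit false

namespace Pool.Agent.MC

/-! ## numbers -/

theorem sum_range_mul_pow (ρ n : ℕ) (m : ℕ) :
    ∑ j ∈ Finset.range (n * m), ρ ^ j =
      (∑ j ∈ Finset.range n, ρ ^ j) * ∑ j ∈ Finset.range m, (ρ ^ n) ^ j := by
  induction m with
  | zero => simp
  | succ m ih =>
    rw [Nat.mul_succ, Finset.sum_range_add, ih, Finset.sum_range_succ, mul_add, add_right_inj,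
      Finset.sum_mul]
    refine Finset.sum_congr rfl fun j _ => ?_
    rw [pow_add, ← pow_mul]
    ring

theorem one_add_pow_modEq (p t j : ℕ) : (1 + p * t) ^ j ≡ 1 + j * (p * t) [MOD p * p] := by
  induction j with
  | zero => simp; rfl
  | succ j ih =>
    have h : (1 + p * t) ^ (j + 1) ≡ (1 + j * (p * t)) * (1 + p * t) [MOD p * p] := by
      rw [pow_succ]; exact ih.mul_right _
    refine h.trans ?_
    have h2 : (1 + j * (p * t)) * (1 + p * t) = 1 + (j + 1) * (p * t) + p * p * (j * t * t) := by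
      ring
    rw [h2]
    exact (Nat.modEq_iff_dvd' (by omega)).2 (by simp) |>.symm

theorem sum_pow_prime {p : ℕ} [hp : Fact p.Prime] {σ : ℕ} (h1 : σ ≡ 1 [MOD p])
    (h4 : p = 2 → σ ≡ 1 [MOD 4]) :
    ∃ m, ∑ j ∈ Finset.range p, σ ^ j = p * m ∧ m ≡ 1 [MOD p] := by
  have hσ : 1 ≤ σ := by
    rcases Nat.eq_zero_or_pos σ with h0 | h0
    · rw [h0] at h1
      have := (Nat.modEq_iff_dvd' (Nat.zero_le 1)).1 h1
      have h2 := hp.out.one_lt
      have := Nat.le_of_dvd (by norm_num) this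
      omega
    · exact h0
  by_cases hp2 : p = 2
  · subst hp2
    have h := h4 rfl
    obtain ⟨t, ht⟩ := (Nat.modEq_iff_dvd' hσ).1 h.symm
    refine ⟨1 + 2 * t, ?_, ?_⟩
    · rw [Finset.sum_range_succ, Finset.sum_range_succ, Finset.sum_range_zero]
      have : σ = 1 + 4 * t := by omega
      rw [this]; ring
    · exact ((Nat.modEq_iff_dvd' (by omega)).2 (by simp)).symm
  · obtain ⟨t, ht⟩ := (Nat.modEq_iff_dvd' hσ).1 h1.symm
    have hσt : σ = 1 + p * t := by omega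
    obtain ⟨q, hq⟩ := hp.out.odd_of_ne_two hp2
    have hS : ∑ j ∈ Finset.range p, σ ^ j ≡ ∑ j ∈ Finset.range p, (1 + j * (p * t)) [MOD p * p] := by
      rw [hσt]
      exact Nat.ModEq.sum fun j _ => one_add_pow_modEq p t j
    have hsum : ∑ j ∈ Finset.range p, (1 + j * (p * t)) = p + p * p * (q * t) := by
      rw [Finset.sum_add_distrib, ← Finset.sum_mul, Finset.sum_const, Finset.card_range, smul_eq_mul,
        mul_one]
      have h2 : (∑ i ∈ Finset.range p, i) = p * q := by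
        have := Finset.sum_range_id_mul_two p
        have h3 : p - 1 = q * 2 := by omega
        rw [h3, ← mul_assoc] at this
        exact Nat.eq_of_mul_eq_mul_right (by norm_num) this
      rw [h2]; ring
    rw [hsum] at hS
    have hS' : ∑ j ∈ Finset.range p, σ ^ j ≡ p [MOD p * p] :=
      hS.trans ((Nat.modEq_iff_dvd' (by omega)).2 (by simp)).symm
    have hdvd : p ∣ ∑ j ∈ Finset.range p, σ ^ j := by
      have h5 : ∑ j ∈ Finset.range p, σ ^ j ≡ 0 [MOD p] :=
        (hS'.of_mul_right p).trans ((Nat.modEq_zero_iff_dvd).2 dvd_rfl)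
      exact (Nat.modEq_zero_iff_dvd).1 h5
    obtain ⟨m, hm⟩ := hdvd
    refine ⟨m, hm, ?_⟩
    rw [hm] at hS'
    exact Nat.ModEq.mul_left_cancel' hp.out.ne_zero (by simpa using hS')

theorem sum_pow_prime_pow {p : ℕ} [hp : Fact p.Prime] {ρ : ℕ} (h1 : ρ ≡ 1 [MOD p])
    (h4 : p = 2 → ρ ≡ 1 [MOD 4]) (i : ℕ) :
    ∃ m, ∑ j ∈ Finset.range (p ^ i), ρ ^ j = p ^ i * m ∧ m ≡ 1 [MOD p] := by
  induction i with
  | zero => exact ⟨1, by simp, rfl⟩
  | succ i ih =>
    obtain ⟨m, hm, hm1⟩ := ih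
    obtain ⟨m', hm', hm1'⟩ := sum_pow_prime (p := p) (σ := ρ ^ p ^ i)
      (by simpa using h1.pow (p ^ i)) (fun h => by simpa using (h4 h).pow (p ^ i))
    refine ⟨m * m', ?_, by simpa using hm1.mul hm1'⟩
    rw [pow_succ, sum_range_mul_pow, hm, hm']
    ring

theorem sum_pow_modEq {p : ℕ} {ρ : ℕ} (h1 : ρ ≡ 1 [MOD p]) (n : ℕ) :
    ∑ j ∈ Finset.range n, ρ ^ j ≡ n [MOD p] := by
  have : ∑ j ∈ Finset.range n, ρ ^ j ≡ ∑ j ∈ Finset.range n, 1 [MOD p] :=
    Nat.ModEq.sum fun j _ => by simpa using h1.pow j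
  simpa using this

/-! ## the normal form -/

section Swap

variable {P : Type} [Group P] {a b : P} {r : ℕ}

theorem swap_one (hc : a * b = b * a ^ r) (u : ℕ) : a ^ u * b = b * a ^ (u * r) := by
  induction u with
  | zero => simp
  | succ u ih =>
    rw [pow_succ, mul_assoc, hc, ← mul_assoc, ih, mul_assoc, ← pow_add]
    congr 2
    ring

theorem swap (hc : a * b = b * a ^ r) (u v : ℕ) : a ^ u * b ^ v = b ^ v * a ^ (u * r ^ v) := by
  induction v with
  | zero => simp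
  | succ v ih =>
    rw [pow_succ, ← mul_assoc, ih, mul_assoc, swap_one hc, ← mul_assoc]
    congr 2
    ring

theorem mul_form (hc : a * b = b * a ^ r) (v u v' u' : ℕ) :
    (b ^ v * a ^ u) * (b ^ v' * a ^ u') = b ^ (v + v') * a ^ (u * r ^ v' + u') := by
  rw [mul_assoc, ← mul_assoc (a ^ u), swap hc, pow_add, pow_add]
  group

theorem pow_form (hc : a * b = b * a ^ r) (v u n : ℕ) :
    (b ^ v * a ^ u) ^ n = b ^ (v * n) * a ^ (u * ∑ j ∈ Finset.range n, (r ^ v) ^ j) := by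
  induction n with
  | zero => simp
  | succ n ih =>
    rw [pow_succ, ih, mul_form hc, geom_sum_succ]
    congr 2
    ring

theorem Pair.swap_pow {p : ℕ} (h : Pair p a b r) (i : ℕ) :
    Pair p (a ^ p ^ i) (b ^ p ^ i) (r ^ p ^ i) where
  conj := by
    rw [swap h.conj, ← pow_mul]
  r1 := by simpa using h.r1.pow (p ^ i)
  r4 := fun h2 => by simpa using (h.r4 h2).pow (p ^ i)

theorem Pair.pow_prime_pow {p : ℕ} [Fact p.Prime] (h : Pair p a b r) (i v u : ℕ) :
    ∃ m, (b ^ v * a ^ u) ^ p ^ i = (b ^ p ^ i) ^ v * (a ^ p ^ i) ^ (u * m) ∧ m ≡ 1 [MOD p] := by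
  obtain ⟨m, hm, hm1⟩ := sum_pow_prime_pow (p := p) (ρ := r ^ v) (by simpa using h.r1.pow v)
    (fun h2 => by simpa using (h.r4 h2).pow v) i
  refine ⟨m, ?_, hm1⟩
  rw [pow_form h.conj, hm, ← pow_mul, ← pow_mul, mul_comm v]
  congr 2
  ring

/-- the subgroup of the elements `b ^ v a ^ u` -/
def MS [Finite P] (hc : a * b = b * a ^ r) : Subgroup P where
  carrier := {x | ∃ v u : ℕ, x = b ^ v * a ^ u}
  mul_mem' := by
    rintro x y ⟨v, u, rfl⟩ ⟨v', u', rfl⟩
    exact ⟨_, _, mul_form hc v u v' u'⟩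
  one_mem' := ⟨0, 0, by simp⟩
  inv_mem' := by
    rintro x ⟨v, u, rfl⟩
    have h : (b ^ v * a ^ u)⁻¹ = (b ^ v * a ^ u) ^ (orderOf (b ^ v * a ^ u) - 1) := by
      rw [inv_eq_iff_mul_eq_one, ← pow_succ', Nat.sub_add_cancel (orderOf_pos _), pow_orderOf_eq_one]
    exact ⟨_, _, h.trans (pow_form hc v u _)⟩

theorem mem_MS [Finite P] (hc : a * b = b * a ^ r) (x : P) :
    x ∈ MS hc ↔ ∃ v u : ℕ, x = b ^ v * a ^ u := Iff.rfl

end Swap

/-! ## the coordinates -/

section Coord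

variable {P : Type} [Group P] {p : ℕ} [Fact p.Prime]

theorem mem_zpowers_zpow (hP : IsPGroup p P) (x : P) {n : ℤ} (hn : ¬ (p : ℤ) ∣ n) :
    x ∈ Subgroup.zpowers (x ^ n) := by
  obtain ⟨s, hs⟩ := (IsPGroup.iff_orderOf.1 hP) x
  have hcop : IsCoprime n ((p : ℤ) ^ s) := by
    apply IsCoprime.pow_right
    rw [isCoprime_comm]
    exact (Prime.coprime_iff_not_dvd (Nat.prime_iff_prime_int.1 Fact.out)).2 hn
  obtain ⟨α, β, h⟩ := hcop
  refine ⟨α, ?_⟩
  show (x ^ n) ^ α = x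
  have h2 : x ^ ((p : ℤ) ^ s) = 1 := by
    have : x ^ (p ^ s) = 1 := by rw [← hs]; exact pow_orderOf_eq_one x
    exact_mod_cast this
  calc (x ^ n) ^ α = x ^ (α * n + β * (p : ℤ) ^ s) := by
        rw [zpow_add, zpow_mul' x α n, zpow_mul' x β, h2, one_zpow, mul_one]
    _ = x := by rw [h, zpow_one]

theorem wd (hP : IsPGroup p P) {a b : P} (hA : a ∉ Subgroup.zpowers b)
    (hB : b ∉ Subgroup.zpowers a) {v u v' u' : ℕ} (h : b ^ v * a ^ u = b ^ v' * a ^ u') :
    (v : ZMod p) = v' ∧ (u : ZMod p) = u' := by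
  have h1 : b ^ ((v : ℤ) - v') = a ^ ((u' : ℤ) - u) := by
    rw [zpow_sub, zpow_sub, zpow_natCast, zpow_natCast, zpow_natCast, zpow_natCast]
    have h2 : b ^ v = b ^ v' * a ^ u' * (a ^ u)⁻¹ := by rw [← h]; group
    have h3 : Commute (b ^ v) (b ^ v')⁻¹ :=
      ((Commute.refl b).pow_pow v v').inv_right
    rw [h3.eq, h2]
    group
  constructor
  · by_contra hne
    have hn : ¬ (p : ℤ) ∣ (v : ℤ) - v' := by
      intro hd
      apply hne
      have := (ZMod.intCast_zmod_eq_zero_iff_dvd ((v : ℤ) - v') p).2 hd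
      push_cast at this
      exact sub_eq_zero.1 this
    have := mem_zpowers_zpow hP b hn
    rw [h1] at this
    exact hB ((Subgroup.zpowers_le.2 (Subgroup.zpow_mem _ (Subgroup.mem_zpowers a) _)) this)
  · by_contra hne
    have hn : ¬ (p : ℤ) ∣ (u' : ℤ) - u := by
      intro hd
      apply hne
      have := (ZMod.intCast_zmod_eq_zero_iff_dvd ((u' : ℤ) - u) p).2 hd
      push_cast at this
      exact (sub_eq_zero.1 this).symm
    have := mem_zpowers_zpow hP a hn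
    rw [← h1] at this
    exact hA ((Subgroup.zpowers_le.2 (Subgroup.zpow_mem _ (Subgroup.mem_zpowers b) _)) this)

open Classical in
/-- the coordinates `(v, u)` modulo `p` of `b ^ v a ^ u` -/
noncomputable def lamF (p : ℕ) (a b : P) (x : P) : V p :=
  if h : ∃ v u : ℕ, x = b ^ v * a ^ u then ((h.choose : ZMod p), (h.choose_spec.choose : ZMod p))
  else 0

theorem lamF_form (hP : IsPGroup p P) {a b : P} (hA : a ∉ Subgroup.zpowers b)
    (hB : b ∉ Subgroup.zpowers a) (v u : ℕ) :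
    lamF p a b (b ^ v * a ^ u) = ((v : ZMod p), (u : ZMod p)) := by
  have h : ∃ v' u' : ℕ, b ^ v * a ^ u = b ^ v' * a ^ u' := ⟨v, u, rfl⟩
  unfold lamF
  rw [dif_pos h]
  have h2 := wd hP hA hB h.choose_spec.choose_spec
  exact Prod.ext h2.1.symm h2.2.symm

end Coord

end Pool.Agent.MC
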