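import Pool.Agent.MC.Defs

/-!
# Metacyclic `p`-groups (problem MP_47f3f4_co): the linear algebra

Bounds for families of pairwise disjoint planes in `V × V`, `V = F_p ^ 2`.
-/

set_option autoImplicit false

namespace Pool.Agent.MC

open scoped Classical in
/-- three predicates, each true at most once, that cover `ι` -/
theorem card_le_three {ι : Type} [Finite ι] (A B C : ι → Prop)
    (hA : ∀ i j, A i → A j → i = j) (hB : ∀ i j, B i → B j → i = j)
    (hC : ∀ i j, C i → C j → i = j) (h : ∀ i, A i ∨ B i ∨ C i) : Nat.card ι ≤ 3 := by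
  classical
  let f : ι → Fin 3 := fun i => if A i then 0 else if B i then 1 else 2
  have hf : Function.Injective f := by
    intro i j hij
    simp only [f] at hij
    by_cases h1 : A i
    · by_cases h2 : A j
      · exact hA i j h1 h2
      · by_cases h3 : B j <;> simp [h1, h2, h3] at hij
    · by_cases h2 : B i
      · by_cases h3 : A j
        · simp [h1, h2, h3] at hij
        · by_cases h4 : B j
          · exact hB i j h2 h4
          · simp [h1, h2, h3, h4] at hij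
      · by_cases h3 : A j
        · simp [h1, h2, h3] at hij
        · by_cases h4 : B j
          · simp [h1, h2, h3, h4] at hij
          · have h5 : C i := by
              rcases h i with h | h | h
              · exact absurd h h1
              · exact absurd h h2
              · exact h
            have h6 : C j := by
              rcases h j with h | h | h
              · exact absurd h h3
              · exact absurd h h4
              · exact h
            exact hC i j h5 h6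
  have := Nat.card_le_card_of_injective f hf
  simpa using this

section Plane

variable {p : ℕ} [Fact p.Prime]

theorem finrank_V : Module.finrank (ZMod p) (V p) = 2 := by
  simp [V]

theorem finrank_VV : Module.finrank (ZMod p) (V p × V p) = 4 := by
  simp [V]

theorem dt_smul_left (c : ZMod p) (x y : V p) : dt (c • x) y = c * dt x y := by
  simp only [dt, Prod.smul_fst, Prod.smul_snd, smul_eq_mul]; ring

theorem dt_smul_right (c : ZMod p) (x y : V p) : dt x (c • y) = c * dt x y := by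
  simp only [dt, Prod.smul_fst, Prod.smul_snd, smul_eq_mul]; ring

theorem kp_smul (c : ZMod p) (κ x : V p) : kp κ (c • x) = c * kp κ x := by
  simp only [kp, Prod.smul_fst, Prod.smul_snd, smul_eq_mul]; ring

theorem kp_add (κ x y : V p) : kp κ (x + y) = kp κ x + kp κ y := by
  simp only [kp, Prod.fst_add, Prod.snd_add]; ring

theorem kp_sub (κ x y : V p) : kp κ (x - y) = kp κ x - kp κ y := by
  simp only [kp, Prod.fst_sub, Prod.snd_sub]; ring

@[simp] theorem kp_zero (κ : V p) : kp κ 0 = 0 := by simp [kp]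

/-- vectors with determinant `0` are proportional -/
theorem exists_smul_of_dt {x y : V p} (hx : x ≠ 0) (h : dt x y = 0) : ∃ c : ZMod p, y = c • x := by
  have h' : x.1 * y.2 = x.2 * y.1 := by
    have : x.1 * y.2 - x.2 * y.1 = 0 := h
    linear_combination this
  by_cases h1 : x.1 = 0
  · have h2 : x.2 ≠ 0 := fun h2 => hx (Prod.ext h1 h2)
    refine ⟨y.2 / x.2, Prod.ext ?_ ?_⟩
    · rw [h1, zero_mul] at h'
      have h3 : y.1 = 0 := by
        rcases mul_eq_zero.mp h'.symm with h | h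
        · exact absurd h h2
        · exact h
      simp [h1, h3]
    · simp only [Prod.smul_snd, smul_eq_mul]
      field_simp
  · refine ⟨y.1 / x.1, Prod.ext ?_ ?_⟩
    · simp only [Prod.smul_fst, smul_eq_mul]
      field_simp
    · simp only [Prod.smul_snd, smul_eq_mul]
      field_simp
      linear_combination h'

/-- two vectors killed by the same non-zero form are proportional -/
theorem exists_smul_of_kp {κ x y : V p} (hκ : κ ≠ 0) (hx : x ≠ 0) (h1 : kp κ x = 0)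
    (h2 : kp κ y = 0) : ∃ c : ZMod p, y = c • x := by
  apply exists_smul_of_dt hx
  have h1' : κ.1 * x.1 + κ.2 * x.2 = 0 := h1
  have h2' : κ.1 * y.1 + κ.2 * y.2 = 0 := h2
  have e1 : κ.1 * dt x y = 0 := by
    simp only [dt]; linear_combination y.2 * h1' - x.2 * h2'
  have e2 : κ.2 * dt x y = 0 := by
    simp only [dt]; linear_combination x.1 * h2' - y.1 * h1'
  by_cases h : κ.1 = 0
  · have h3 : κ.2 ≠ 0 := fun h3 => hκ (Prod.ext h h3)
    exact (mul_eq_zero.mp e2).resolve_left h3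
  · exact (mul_eq_zero.mp e1).resolve_left h

variable {D : Submodule (ZMod p) (V p × V p)}

/-- a plane all of whose second components are proportional contains some `(a, 0)` -/
theorem exists_fst (hf : Module.finrank (ZMod p) D = 2)
    (h : ∀ x ∈ D, ∀ y ∈ D, dt x.2 y.2 = 0) : ∃ a : V p, a ≠ 0 ∧ ((a, 0) : V p × V p) ∈ D := by
  let φ : D →ₗ[ZMod p] V p := (LinearMap.snd (ZMod p) (V p) (V p)).comp D.subtype
  have hni : ¬ Function.Injective φ := by
    intro hi
    have hs : Function.Surjective φ :=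
      (LinearMap.injective_iff_surjective_of_finrank_eq_finrank (by rw [hf, finrank_V])).mp hi
    obtain ⟨x, hx⟩ := hs (1, 0)
    obtain ⟨y, hy⟩ := hs (0, 1)
    have := h x.1 x.2 y.1 y.2
    have hx' : x.1.2 = (1, 0) := hx
    have hy' : y.1.2 = (0, 1) := hy
    rw [hx', hy'] at this
    simp [dt] at this
  rw [← LinearMap.ker_eq_bot, Submodule.eq_bot_iff] at hni
  push Not at hni
  obtain ⟨x, hx, hx0⟩ := hni
  have hx2 : x.1.2 = 0 := hx
  refine ⟨x.1.1, ?_, ?_⟩
  · intro h1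
    exact hx0 (Subtype.ext (Prod.ext h1 hx2))
  · have : ((x.1.1, 0) : V p × V p) = x.1 := Prod.ext rfl hx2.symm
    rw [this]
    exact x.2

theorem exists_snd (hf : Module.finrank (ZMod p) D = 2)
    (h : ∀ x ∈ D, ∀ y ∈ D, dt x.1 y.1 = 0) : ∃ b : V p, b ≠ 0 ∧ ((0, b) : V p × V p) ∈ D := by
  let φ : D →ₗ[ZMod p] V p := (LinearMap.fst (ZMod p) (V p) (V p)).comp D.subtype
  have hni : ¬ Function.Injective φ := by
    intro hi
    have hs : Function.Surjective φ :=
      (LinearMap.injective_iff_surjective_of_finrank_eq_finrank (by rw [hf, finrank_V])).mp hi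
    obtain ⟨x, hx⟩ := hs (1, 0)
    obtain ⟨y, hy⟩ := hs (0, 1)
    have := h x.1 x.2 y.1 y.2
    have hx' : x.1.1 = (1, 0) := hx
    have hy' : y.1.1 = (0, 1) := hy
    rw [hx', hy'] at this
    simp [dt] at this
  rw [← LinearMap.ker_eq_bot, Submodule.eq_bot_iff] at hni
  push Not at hni
  obtain ⟨x, hx, hx0⟩ := hni
  have hx2 : x.1.1 = 0 := hx
  refine ⟨x.1.2, ?_, ?_⟩
  · intro h1
    exact hx0 (Subtype.ext (Prod.ext hx2 h1))
  · have : ((0, x.1.2) : V p × V p) = x.1 := Prod.ext hx2.symm rfl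
    rw [this]
    exact x.2

/-- a common vector of two disjoint planes is zero -/
theorem eq_of_mem {ι : Type} {D : ι → Submodule (ZMod p) (V p × V p)}
    (hd : ∀ i j, i ≠ j → Disjoint (D i) (D j)) {v : V p × V p} (hv : v ≠ 0) {i j : ι}
    (hi : v ∈ D i) (hj : v ∈ D j) : i = j := by
  by_contra h
  exact hv (Submodule.disjoint_def.mp (hd i j h) v hi hj)

/-- the classification of the planes closed under `(dt, dt) • ζ` -/
theorem types {ζ : V p} 
    (hc : ∀ x ∈ D, ∀ y ∈ D, (dt x.1 y.1 • ζ, dt x.2 y.2 • ζ) ∈ D) :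
    ((ζ, 0) : V p × V p) ∈ D ∨ ((0, ζ) : V p × V p) ∈ D ∨
      (∀ v ∈ D, dt ζ v.1 = dt ζ v.2) ∨
      ((∀ x ∈ D, ∀ y ∈ D, dt x.1 y.1 = 0) ∧ (∀ x ∈ D, ∀ y ∈ D, dt x.2 y.2 = 0)) := by
  by_cases h1 : ((ζ, 0) : V p × V p) ∈ D
  · exact Or.inl h1
  by_cases h2 : ((0, ζ) : V p × V p) ∈ D
  · exact Or.inr (Or.inl h2)
  have k1 : ∀ c : ZMod p, ((c • ζ, 0) : V p × V p) ∈ D → c = 0 := by
    intro c hcD
    by_contra hc0
    apply h1
    have := D.smul_mem c⁻¹ hcD
    simpa [smul_smul, inv_mul_cancel₀ hc0] using this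
  have k2 : ∀ c : ZMod p, ((0, c • ζ) : V p × V p) ∈ D → c = 0 := by
    intro c hcD
    by_contra hc0
    apply h2
    have := D.smul_mem c⁻¹ hcD
    simpa [smul_smul, inv_mul_cancel₀ hc0] using this
  by_cases h3 : ∀ x ∈ D, ∀ y ∈ D, dt x.1 y.1 = 0
  · refine Or.inr (Or.inr (Or.inr ⟨h3, fun x hx y hy => ?_⟩))
    have := hc x hx y hy
    rw [h3 x hx y hy, zero_smul] at this
    exact k2 _ this
  · push Not at h3
    obtain ⟨x, hx, y, hy, hxy⟩ := h3
    refine Or.inr (Or.inr (Or.inl fun v hv => ?_))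
    have hu := hc x hx y hy
    set α := dt x.1 y.1 with hα
    set β := dt x.2 y.2 with hβ
    have hβ0 : β ≠ 0 := by
      intro hβ0
      rw [hβ0, zero_smul] at hu
      exact hxy (k1 _ hu)
    have h4 := hc _ hu v hv
    simp only [dt_smul_left] at h4
    have h5 := D.sub_mem h4 (D.smul_mem (dt ζ v.1) hu)
    have h6 : (((α * dt ζ v.1) • ζ, (β * dt ζ v.2) • ζ) - dt ζ v.1 • (α • ζ, β • ζ) : V p × V p)
        = (0, (β * (dt ζ v.2 - dt ζ v.1)) • ζ) := by
      ext <;> simp <;> ring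
    rw [h6] at h5
    have h7 := k2 _ h5
    rcases mul_eq_zero.mp h7 with h | h
    · exact absurd h hβ0
    · exact (sub_eq_zero.mp h).symm

/-- at most one plane with `dt ζ v.1 = dt ζ v.2` -/
theorem unique_two {ι : Type} {D : ι → Submodule (ZMod p) (V p × V p)}
    (hf : ∀ i, Module.finrank (ZMod p) (D i) = 2)
    (hd : ∀ i j, i ≠ j → Disjoint (D i) (D j)) {ζ : V p} (hζ : ζ ≠ 0) (i j : ι)
    (hi : ∀ v ∈ D i, dt ζ v.1 = dt ζ v.2) (hj : ∀ v ∈ D j, dt ζ v.1 = dt ζ v.2) : i = j := by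
  by_contra hij
  have h1 : Module.finrank (ZMod p) (D i ⊔ D j : Submodule (ZMod p) (V p × V p)) = 4 := by
    have h := Submodule.finrank_sup_add_finrank_inf_eq (D i) (D j)
    rw [(hd i j hij).eq_bot, finrank_bot, hf i, hf j] at h
    simpa using h
  have h2 : D i ⊔ D j = ⊤ := Submodule.eq_top_of_finrank_eq (by rw [h1, finrank_VV])
  have h3 : ∀ v : V p × V p, dt ζ v.1 = dt ζ v.2 := by
    intro v
    have hv : v ∈ D i ⊔ D j := by rw [h2]; trivial
    obtain ⟨a, ha, b, hb, rfl⟩ := Submodule.mem_sup.mp hv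
    have e1 := hi a ha
    have e2 := hj b hb
    simp only [dt] at e1 e2 ⊢
    simp only [Prod.fst_add, Prod.snd_add]
    linear_combination e1 + e2
  have h4 := h3 ((1, 0), 0)
  have h5 := h3 ((0, 1), 0)
  simp [dt] at h4 h5
  exact hζ (Prod.ext h5 h4)

end Plane

/-- R3: the case `k = 0` -/
theorem lin_main {p : ℕ} [Fact p.Prime] {ι : Type} [Finite ι]
    (D : ι → Submodule (ZMod p) (V p × V p)) (hf : ∀ i, Module.finrank (ZMod p) (D i) = 2)
    (hd : ∀ i j, i ≠ j → Disjoint (D i) (D j)) (ζ : V p) (hζ : ζ ≠ 0)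
    (hc : ∀ i, ∀ x ∈ D i, ∀ y ∈ D i, (dt x.1 y.1 • ζ, dt x.2 y.2 • ζ) ∈ D i) :
    Nat.card ι ≤ p + 3 := by
  classical
  -- a vector `η` with `dt ζ η = 1`
  obtain ⟨η, hη⟩ : ∃ η : V p, dt ζ η = 1 := by
    by_cases h : ζ.1 = 0
    · have h2 : ζ.2 ≠ 0 := fun h2 => hζ (Prod.ext h h2)
      refine ⟨(-(ζ.2)⁻¹, 0), ?_⟩
      simp [dt, h2]
    · refine ⟨(0, (ζ.1)⁻¹), ?_⟩
      simp [dt, h]
  have hnorm : ∀ i, ((ζ, 0) : V p × V p) ∉ D i → ((0, ζ) : V p × V p) ∉ D i →
      (¬ ∀ v ∈ D i, dt ζ v.1 = dt ζ v.2) →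
      ∃ t : ZMod p, ((η + t • ζ, 0) : V p × V p) ∈ D i := by
    intro i h1 h2 h3
    rcases types (hc i) with h | h | h | ⟨-, h⟩
    · exact absurd h h1
    · exact absurd h h2
    · exact absurd h h3
    · obtain ⟨a, ha, haD⟩ := exists_fst (hf i) h
      have hda : dt ζ a ≠ 0 := by
        intro h0
        obtain ⟨c, rfl⟩ := exists_smul_of_dt hζ h0
        have hc0 : c ≠ 0 := by rintro rfl; simp at ha
        apply h1
        have := (D i).smul_mem c⁻¹ haD
        simpa [smul_smul, inv_mul_cancel₀ hc0] using this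
      have h4 : dt ζ ((dt ζ a)⁻¹ • a - η) = 0 := by
        have : dt ζ ((dt ζ a)⁻¹ • a - η) = (dt ζ a)⁻¹ * dt ζ a - dt ζ η := by
          simp only [dt, Prod.fst_sub, Prod.snd_sub, Prod.smul_fst, Prod.smul_snd, smul_eq_mul]
          ring
        rw [this, inv_mul_cancel₀ hda, hη, sub_self]
      obtain ⟨t, ht⟩ := exists_smul_of_dt hζ h4
      refine ⟨t, ?_⟩
      have h5 : ((η + t • ζ, 0) : V p × V p) = (dt ζ a)⁻¹ • (a, 0) := by
        rw [← ht]
        ext <;> simp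
      rw [h5]
      exact (D i).smul_mem _ haD
  choose! τ hτ using hnorm
  let f : ι → ZMod p ⊕ Fin 3 := fun i =>
    if ((ζ, 0) : V p × V p) ∈ D i then Sum.inr 0
    else if ((0, ζ) : V p × V p) ∈ D i then Sum.inr 1
    else if (∀ v ∈ D i, dt ζ v.1 = dt ζ v.2) then Sum.inr 2
    else Sum.inl (τ i)
  have n1 : ((ζ, 0) : V p × V p) ≠ 0 := fun h => hζ (Prod.ext_iff.mp h).1
  have n2 : ((0, ζ) : V p × V p) ≠ 0 := fun h => hζ (Prod.ext_iff.mp h).2
  have hinj : Function.Injective f := by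
    intro i j hij
    simp only [f] at hij
    by_cases a1 : ((ζ, 0) : V p × V p) ∈ D i <;> by_cases b1 : ((ζ, 0) : V p × V p) ∈ D j
    · exact eq_of_mem hd n1 a1 b1
    · rw [if_pos a1, if_neg b1] at hij
      split_ifs at hij <;> simp at hij
    · rw [if_neg a1, if_pos b1] at hij
      split_ifs at hij <;> simp at hij
    rw [if_neg a1, if_neg b1] at hij
    by_cases a2 : ((0, ζ) : V p × V p) ∈ D i <;> by_cases b2 : ((0, ζ) : V p × V p) ∈ D j
    · exact eq_of_mem hd n2 a2 b2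
    · rw [if_pos a2, if_neg b2] at hij
      split_ifs at hij <;> simp at hij
    · rw [if_neg a2, if_pos b2] at hij
      split_ifs at hij <;> simp at hij
    rw [if_neg a2, if_neg b2] at hij
    by_cases a3 : (∀ v ∈ D i, dt ζ v.1 = dt ζ v.2) <;>
      by_cases b3 : (∀ v ∈ D j, dt ζ v.1 = dt ζ v.2)
    · exact unique_two hf hd hζ i j a3 b3
    · rw [if_pos a3, if_neg b3] at hij
      simp at hij
    · rw [if_neg a3, if_pos b3] at hij
      simp at hij
    rw [if_neg a3, if_neg b3] at hij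
    have h1 := hτ i a1 a2 a3
    have h2 := hτ j b1 b2 b3
    have h3 : τ i = τ j := by simpa using hij
    rw [h3] at h1
    refine eq_of_mem hd ?_ h1 h2
    intro h
    have h4 : η + τ j • ζ = 0 := (Prod.ext_iff.mp h).1
    have h5 : dt ζ (η + τ j • ζ) = 1 := by
      rw [← hη]
      simp only [dt, Prod.fst_add, Prod.snd_add, Prod.smul_fst, Prod.smul_snd, smul_eq_mul]
      ring
    rw [h4] at h5
    simp [dt] at h5
  have := Nat.card_le_card_of_injective f hinj
  rw [Nat.card_sum] at this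
  simpa using this

section Three

variable {p : ℕ} [Fact p.Prime] {ι : Type} {D : ι → Submodule (ZMod p) (V p × V p)}

theorem unique_kp {κ : V p}
    (hkd : ∀ i j, i ≠ j → ∀ x ∈ D i, ∀ y ∈ D j, (kp κ x.1, kp κ x.2) = (kp κ y.1, kp κ y.2) →
      (kp κ x.1, kp κ x.2) = 0) (i j : ι)
    (hi : ∃ x ∈ D i, kp κ x.1 ≠ 0 ∧ kp κ x.2 = 0) (hj : ∃ x ∈ D j, kp κ x.1 ≠ 0 ∧ kp κ x.2 = 0) :
    i = j := by
  by_contra hij
  obtain ⟨x, hx, hx1, hx2⟩ := hi
  obtain ⟨y, hy, hy1, hy2⟩ := hj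
  have h := hkd i j hij ((kp κ x.1)⁻¹ • x) ((D i).smul_mem _ hx) ((kp κ y.1)⁻¹ • y)
    ((D j).smul_mem _ hy)
  simp only [Prod.smul_fst, Prod.smul_snd, kp_smul, hx2, hy2, inv_mul_cancel₀ hx1,
    inv_mul_cancel₀ hy1, mul_zero, forall_const] at h
  simpa using h

theorem unique_kp' {κ : V p}
    (hkd : ∀ i j, i ≠ j → ∀ x ∈ D i, ∀ y ∈ D j, (kp κ x.1, kp κ x.2) = (kp κ y.1, kp κ y.2) →
      (kp κ x.1, kp κ x.2) = 0) (i j : ι)
    (hi : ∃ x ∈ D i, kp κ x.1 = 0 ∧ kp κ x.2 ≠ 0) (hj : ∃ x ∈ D j, kp κ x.1 = 0 ∧ kp κ x.2 ≠ 0) :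
    i = j := by
  by_contra hij
  obtain ⟨x, hx, hx1, hx2⟩ := hi
  obtain ⟨y, hy, hy1, hy2⟩ := hj
  have h := hkd i j hij ((kp κ x.2)⁻¹ • x) ((D i).smul_mem _ hx) ((kp κ y.2)⁻¹ • y)
    ((D j).smul_mem _ hy)
  simp only [Prod.smul_fst, Prod.smul_snd, kp_smul, hx1, hy1, inv_mul_cancel₀ hx2,
    inv_mul_cancel₀ hy2, mul_zero, forall_const] at h
  simpa using h

end Three

/-- R4a: `k > 0`, `z` not in `N` -/
theorem lin_three {p : ℕ} [Fact p.Prime] {ι : Type} [Finite ι]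
    (D : ι → Submodule (ZMod p) (V p × V p)) (hf : ∀ i, Module.finrank (ZMod p) (D i) = 2)
    (hd : ∀ i j, i ≠ j → Disjoint (D i) (D j)) (ζ : V p) (hζ : ζ ≠ 0)
    (hc : ∀ i, ∀ x ∈ D i, ∀ y ∈ D i, (dt x.1 y.1 • ζ, dt x.2 y.2 • ζ) ∈ D i)
    (κ : V p) (hκ : κ ≠ 0)
    (hk : ∀ i, ∃ x ∈ D i, (kp κ x.1, kp κ x.2) ≠ 0)
    (hkd : ∀ i j, i ≠ j → ∀ x ∈ D i, ∀ y ∈ D j, (kp κ x.1, kp κ x.2) = (kp κ y.1, kp κ y.2) →
      (kp κ x.1, kp κ x.2) = 0) :
    Nat.card ι ≤ 3 := by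
  classical
  rcases le_or_gt (Nat.card ι) 1 with hle | hgt
  · omega
  have hother : ∀ i : ι, ∃ j, i ≠ j := by
    intro i
    by_contra hno
    push Not at hno
    have : Subsingleton ι := ⟨fun a b => (hno a).symm.trans (hno b)⟩
    have h1 : Nat.card ι ≤ 1 := Finite.card_le_one_iff_subsingleton.mpr this
    omega
  have n1 : ((ζ, 0) : V p × V p) ≠ 0 := fun h => hζ (Prod.ext_iff.mp h).1
  have n2 : ((0, ζ) : V p × V p) ≠ 0 := fun h => hζ (Prod.ext_iff.mp h).2
  -- the planes of type I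
  have hI : ∀ i, (∀ x ∈ D i, ∀ y ∈ D i, dt x.1 y.1 = 0) → (∀ x ∈ D i, ∀ y ∈ D i, dt x.2 y.2 = 0) →
      (∃ a : V p, a ≠ 0 ∧ ((a, 0) : V p × V p) ∈ D i ∧ kp κ a = 0) ∨
      (∃ b : V p, b ≠ 0 ∧ ((0, b) : V p × V p) ∈ D i ∧ kp κ b = 0) := by
    intro i h1 h2
    obtain ⟨a, ha, haD⟩ := exists_fst (hf i) h2
    obtain ⟨b, hb, hbD⟩ := exists_snd (hf i) h1
    by_cases hka : kp κ a = 0
    · exact Or.inl ⟨a, ha, haD, hka⟩
    by_cases hkb : kp κ b = 0
    · exact Or.inr ⟨b, hb, hbD, hkb⟩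
    exfalso
    obtain ⟨j, hj⟩ := hother i
    obtain ⟨y, hy, hy0⟩ := hk j
    have hx : ((kp κ y.1 / kp κ a) • ((a, 0) : V p × V p) +
        (kp κ y.2 / kp κ b) • ((0, b) : V p × V p)) ∈ D i :=
      (D i).add_mem ((D i).smul_mem _ haD) ((D i).smul_mem _ hbD)
    have h := hkd i j hj _ hx y hy
    have e1 : kp κ ((kp κ y.1 / kp κ a) • ((a, 0) : V p × V p) +
        (kp κ y.2 / kp κ b) • ((0, b) : V p × V p)).1 = kp κ y.1 := by
      simp only [Prod.fst_add, Prod.smul_fst, smul_zero, add_zero, kp_smul]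
      field_simp
    have e2 : kp κ ((kp κ y.1 / kp κ a) • ((a, 0) : V p × V p) +
        (kp κ y.2 / kp κ b) • ((0, b) : V p × V p)).2 = kp κ y.2 := by
      simp only [Prod.snd_add, Prod.smul_snd, smul_zero, zero_add, kp_smul]
      field_simp
    rw [e1, e2] at h
    exact hy0 (h rfl)
  by_cases hkz : kp κ ζ = 0
  · refine card_le_three (fun i => ((ζ, 0) : V p × V p) ∈ D i) (fun i => ((0, ζ) : V p × V p) ∈ D i)
      (fun i => ∀ v ∈ D i, dt ζ v.1 = dt ζ v.2) (fun i j => eq_of_mem hd n1)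
      (fun i j => eq_of_mem hd n2) (unique_two hf hd hζ) ?_
    intro i
    rcases types (hc i) with h | h | h | ⟨h1, h2⟩
    · exact Or.inl h
    · exact Or.inr (Or.inl h)
    · exact Or.inr (Or.inr h)
    · rcases hI i h1 h2 with ⟨a, ha, haD, hka⟩ | ⟨b, hb, hbD, hkb⟩
      · left
        obtain ⟨c, hc'⟩ := exists_smul_of_kp hκ ha hka hkz
        have := (D i).smul_mem c haD
        simpa [← hc'] using this
      · right; left
        obtain ⟨c, hc'⟩ := exists_smul_of_kp hκ hb hkb hkz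
        have := (D i).smul_mem c hbD
        simpa [← hc'] using this
  · refine card_le_three (fun i => ∃ x ∈ D i, kp κ x.1 ≠ 0 ∧ kp κ x.2 = 0)
      (fun i => ∃ x ∈ D i, kp κ x.1 = 0 ∧ kp κ x.2 ≠ 0)
      (fun i => ∀ v ∈ D i, dt ζ v.1 = dt ζ v.2) (unique_kp hkd) (unique_kp' hkd)
      (unique_two hf hd hζ) ?_
    intro i
    rcases types (hc i) with h | h | h | ⟨h1, h2⟩
    · exact Or.inl ⟨_, h, hkz, by simp⟩
    · exact Or.inr (Or.inl ⟨_, h, by simp, hkz⟩)
    · exact Or.inr (Or.inr h)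
    · obtain ⟨y, hy, hy0⟩ := hk i
      rcases hI i h1 h2 with ⟨a, ha, haD, hka⟩ | ⟨b, hb, hbD, hkb⟩
      · right; left
        have h3 : dt a y.1 = 0 := h1 _ haD y hy
        obtain ⟨c, hc'⟩ := exists_smul_of_dt ha h3
        have h4 : kp κ y.1 = 0 := by rw [hc', kp_smul, hka, mul_zero]
        refine ⟨y, hy, h4, fun h5 => hy0 ?_⟩
        rw [h4, h5]; rfl
      · left
        have h3 : dt b y.2 = 0 := h2 _ hbD y hy
        obtain ⟨c, hc'⟩ := exists_smul_of_dt hb h3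
        have h4 : kp κ y.2 = 0 := by rw [hc', kp_smul, hkb, mul_zero]
        refine ⟨y, hy, fun h5 => hy0 ?_, h4⟩
        rw [h4, h5]; rfl

/-- R4b: `k > 0`, `z` in `N` -/
theorem lin_three' {p : ℕ} [Fact p.Prime] {ι : Type} [Finite ι]
    (D : ι → Submodule (ZMod p) (V p × V p)) (hf : ∀ i, Module.finrank (ZMod p) (D i) = 2)
    (hd : ∀ i j, i ≠ j → Disjoint (D i) (D j)) (κ : V p) (hκ : κ ≠ 0)
    (hc : ∀ i, ∀ x ∈ D i, ∀ y ∈ D i, ∃ t ∈ D i, kp κ t.1 = dt x.1 y.1 ∧ kp κ t.2 = dt x.2 y.2)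
    (hk : ∀ i, ∃ x ∈ D i, (kp κ x.1, kp κ x.2) ≠ 0)
    (hkd : ∀ i j, i ≠ j → ∀ x ∈ D i, ∀ y ∈ D j, (kp κ x.1, kp κ x.2) = (kp κ y.1, kp κ y.2) →
      (kp κ x.1, kp κ x.2) = 0) :
    Nat.card ι ≤ 3 := by
  classical
  rcases le_or_gt (Nat.card ι) 1 with hle | hgt
  · omega
  have hother : ∀ i : ι, ∃ j, i ≠ j := by
    intro i
    by_contra hno
    push Not at hno
    have : Subsingleton ι := ⟨fun a b => (hno a).symm.trans (hno b)⟩
    have h1 : Nat.card ι ≤ 1 := Finite.card_le_one_iff_subsingleton.mpr this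
    omega
  set k0 : V p := (κ.2, -κ.1) with hk0
  have hk0ne : k0 ≠ 0 := by
    intro h
    have h1 : κ.2 = 0 := (Prod.ext_iff.mp h).1
    have h2 : -κ.1 = 0 := (Prod.ext_iff.mp h).2
    exact hκ (Prod.ext (neg_eq_zero.mp h2) h1)
  have hkk : kp κ k0 = 0 := by simp only [kp, hk0]; ring
  have hdt : ∀ x : V p, dt k0 x = kp κ x := by
    intro x; simp only [dt, kp, hk0]; ring
  -- the kernel
  have hker : ∀ i, ∃ x ∈ D i, x ≠ 0 ∧ kp κ x.1 = 0 ∧ kp κ x.2 = 0 := by
    intro i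
    let ψ : V p →ₗ[ZMod p] ZMod p :=
      { toFun := kp κ
        map_add' := kp_add κ
        map_smul' := fun c x => by simp [kp_smul] }
    let φ : D i →ₗ[ZMod p] V p := (LinearMap.prodMap ψ ψ).comp (D i).subtype
    have hφ : ∀ x : D i, φ x = (kp κ x.1.1, kp κ x.1.2) := fun x => rfl
    have hni : ¬ Function.Injective φ := by
      intro hi
      have hs : Function.Surjective φ :=
        (LinearMap.injective_iff_surjective_of_finrank_eq_finrank (by rw [hf i, finrank_V])).mp hi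
      obtain ⟨j, hj⟩ := hother i
      obtain ⟨y, hy, hy0⟩ := hk j
      obtain ⟨x, hx⟩ := hs (kp κ y.1, kp κ y.2)
      rw [hφ] at hx
      have h := hkd i j hj x.1 x.2 y hy hx
      rw [hx] at h
      exact hy0 h
    rw [← LinearMap.ker_eq_bot, Submodule.eq_bot_iff] at hni
    push Not at hni
    obtain ⟨x, hx, hx0⟩ := hni
    have hx' : (kp κ x.1.1, kp κ x.1.2) = 0 := hx
    refine ⟨x.1, x.2, fun h => hx0 (Subtype.ext h), (Prod.ext_iff.mp hx').1,
      (Prod.ext_iff.mp hx').2⟩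
  have n1 : ((k0, k0) : V p × V p) ≠ 0 := fun h => hk0ne (Prod.ext_iff.mp h).1
  refine card_le_three (fun i => ∃ x ∈ D i, kp κ x.1 ≠ 0 ∧ kp κ x.2 = 0)
    (fun i => ∃ x ∈ D i, kp κ x.1 = 0 ∧ kp κ x.2 ≠ 0)
    (fun i => ((k0, k0) : V p × V p) ∈ D i) (unique_kp hkd) (unique_kp' hkd)
    (fun i j => eq_of_mem hd n1) ?_
  intro i
  by_cases hA : ∃ x ∈ D i, kp κ x.1 ≠ 0 ∧ kp κ x.2 = 0
  · exact Or.inl hA
  by_cases hB : ∃ x ∈ D i, kp κ x.1 = 0 ∧ kp κ x.2 ≠ 0
  · exact Or.inr (Or.inl hB)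
  right; right
  obtain ⟨x, hx, hx0, hx1, hx2⟩ := hker i
  obtain ⟨y, hy, hy0⟩ := hk i
  obtain ⟨α, hα⟩ := exists_smul_of_kp hκ hk0ne hkk hx1
  obtain ⟨β, hβ⟩ := exists_smul_of_kp hκ hk0ne hkk hx2
  have hy1 : kp κ y.1 ≠ 0 := by
    intro h
    by_cases h' : kp κ y.2 = 0
    · exact hy0 (by rw [h, h']; rfl)
    · exact hB ⟨y, hy, h, h'⟩
  have hy2 : kp κ y.2 ≠ 0 := by
    intro h
    exact hA ⟨y, hy, hy1, h⟩
  obtain ⟨t, ht, ht1, ht2⟩ := hc i x hx y hy
  rw [hα, dt_smul_left, hdt] at ht1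
  rw [hβ, dt_smul_left, hdt] at ht2
  have hαβ : α = β := by
    by_contra hne
    apply hB
    refine ⟨t - α • y, (D i).sub_mem ht ((D i).smul_mem _ hy), ?_, ?_⟩
    · simp only [Prod.fst_sub, Prod.smul_fst, kp_sub, kp_smul, ht1, sub_self]
    · simp only [Prod.snd_sub, Prod.smul_snd, kp_sub, kp_smul, ht2]
      rw [← sub_mul]
      exact mul_ne_zero (sub_ne_zero.mpr (Ne.symm hne)) hy2
  have hα0 : α ≠ 0 := by
    intro h
    apply hx0
    rw [h] at hα
    rw [← hαβ, h] at hβ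
    exact Prod.ext (by simpa using hα) (by simpa using hβ)
  have hxe : x = α • ((k0, k0) : V p × V p) := by
    refine Prod.ext ?_ ?_
    · simpa using hα
    · rw [← hαβ] at hβ
      simpa using hβ
  have := (D i).smul_mem α⁻¹ hx
  rw [hxe, smul_smul, inv_mul_cancel₀ hα0, one_smul] at this
  exact this

end Pool.Agent.MC
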