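import Pool.Agent.MC.Red
import Pool.Agent.MC.Lin

/-!
# The upper bounds for `T(P × P)` from a frame
-/

set_option autoImplicit false

namespace Pool.Agent.MC

open Pool.Agent.Helper19.PCP

variable {P : Type} [Group P] [Finite P] {p : ℕ} [hp : Fact p.Prime]

theorem bound_zero (hP : IsPGroup p P) (F : Frame p P) (hk : F.k = 0) :
    T (P × P) ≤ p + 3 := by
  apply T_prod_le
  intro 𝒰 h
  by_cases hc : 3 ≤ 𝒰.card
  · have := lin_main (ι := 𝒰) (fun U => F.D U.1) (fun U => dim_two F hP h hc U.2)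
      (fun U U' hne => (pair_dim F hP h hc U.2 U'.2 (fun h => hne (Subtype.ext h))).2.1)
      (F.lam F.z) (lam_z_ne F hk) (fun U => closed F hP h hc U.2)
    rwa [Nat.card_eq_fintype_card, Fintype.card_coe] at this
  · omega

theorem bound_pos (hP : IsPGroup p P) (F : Frame p P) (hk : 0 < F.k) :
    T (P × P) ≤ 3 := by
  apply T_prod_le
  intro 𝒰 h
  by_cases hc : 3 ≤ 𝒰.card
  · have hf : ∀ U : 𝒰, Module.finrank (ZMod p) (F.D U.1) = 2 := fun U => dim_two F hP h hc U.2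
    have hd : ∀ U U' : 𝒰, U ≠ U' → Disjoint (F.D U.1) (F.D U'.1) := fun U U' hne =>
      (pair_dim F hP h hc U.2 U'.2 (fun h => hne (Subtype.ext h))).2.1
    have hk1 : ∀ U : 𝒰, ∃ x ∈ F.D U.1, (kp F.κ x.1, kp F.κ x.2) ≠ 0 := by
      intro U
      obtain ⟨x, hx, hne⟩ := exists_kp_ne F h hc hk U.2
      exact ⟨_, ⟨x, hx, rfl⟩, hne⟩
    have hk2 : ∀ U U' : 𝒰, U ≠ U' → ∀ x ∈ F.D U.1, ∀ y ∈ F.D U'.1,
        (kp F.κ x.1, kp F.κ x.2) = (kp F.κ y.1, kp F.κ y.2) →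
        (kp F.κ x.1, kp F.κ x.2) = 0 := fun U U' hne =>
      kp_disj F h hk U.2 U'.2 (fun h => hne (Subtype.ext h))
    have : Nat.card 𝒰 ≤ 3 := by
      by_cases hz : F.lam F.z = 0
      · exact lin_three' (ι := 𝒰) (fun U => F.D U.1) hf hd F.κ (F.κ_ne hk)
          (fun U => closed' F h hc hk hz U.2) hk1 hk2
      · exact lin_three (ι := 𝒰) (fun U => F.D U.1) hf hd (F.lam F.z) hz
          (fun U => closed F hP h hc U.2) F.κ (F.κ_ne hk) hk1 hk2
    rwa [Nat.card_eq_fintype_card, Fintype.card_coe] at this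
  · omega

end Pool.Agent.MC
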