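import Pool.Agent.MC.Two50b

/-!
Metacyclic `2`-groups which are not powerful: `T(P × P) = 3` (problem MP_47f3f4_co).
-/

set_option autoImplicit false

namespace Pool.Agent.MC50

open Subgroup
open Pool.Agent.Helper19.PCP

variable {P : Type} [Group P] [Finite P] {a b : P} {r : ℕ}

theorem members (hP : IsPGroup 2 P) (D : Data a b r) {𝒰 : Finset (Subgroup (P × P))}
    (h : IsPCP (Nat.card P) 𝒰) {U V : Subgroup (P × P)} (hU : U ∈ 𝒰) (hV : V ∈ 𝒰) (hne : U ≠ V) :
    (FF a b).relIndex U = 4 ∧ ∀ u ∈ U, ∀ v ∈ V, u⁻¹ * v ∈ FF a b → u ∈ FF a b := by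
  have := normFF hP D
  have hc := isComplement_of_mem (by rw [Nat.card_prod]) h hU hV hne
  exact disj_gen (index_FF hP D) (by norm_num) (exists_mul hc)
    (relIndex_le_four hP D U (h.1 U hU)) (relIndex_le_four hP D V (h.1 V hV))

/-- the reduction modulo `A × A` -/
def psi (A : Subgroup P) [A.Normal] : P × P →* (P ⧸ A) × (P ⧸ A) :=
  (QuotientGroup.mk' A).prodMap (QuotientGroup.mk' A)

theorem psi_ker (A : Subgroup P) [A.Normal] : (psi A).ker = A.prod A := by
  ext x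
  rw [MonoidHom.mem_ker, mem_prod, ← QuotientGroup.eq_one_iff, ← QuotientGroup.eq_one_iff]
  exact Prod.ext_iff

theorem card_P (a : P) : orderOf a * (zpowers a).index = Nat.card P := by
  rw [← Nat.card_zpowers]; exact card_mul_index _

theorem sq_one_mem (D : Data a b r) {x : P} (hx : x ∈ zpowers a) (h2 : x ^ 2 = 1) :
    x ∈ zpowers (a ^ (orderOf a / 2)) := by
  obtain ⟨i, rfl⟩ := hx
  obtain ⟨h, hh⟩ : 2 ∣ orderOf a := (by norm_num : (2 : ℕ) ∣ 4).trans D.four
  have h3 : a ^ (i * 2) = 1 := by rw [zpow_mul]; exact_mod_cast h2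
  rw [← orderOf_dvd_iff_zpow_eq_one, hh] at h3
  obtain ⟨c, hc⟩ := h3
  have h4 : orderOf a / 2 = h := by omega
  rw [h4]
  refine ⟨c, ?_⟩
  change (a ^ h) ^ c = a ^ i
  rw [← zpow_natCast, ← zpow_mul]
  congr 1
  push_cast at hc
  linarith

theorem case_lt (hP : IsPGroup 2 P) (D : Data a b r) {𝒰 : Finset (Subgroup (P × P))}
    (h : IsPCP (Nat.card P) 𝒰) (hlt : (zpowers a).index < orderOf a) : 𝒰.card ≤ 3 := by
  have := D.norm
  have : Fact (Nat.Prime 2) := ⟨Nat.prime_two⟩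
  set A := zpowers a with hA
  set z := a ^ (orderOf a / 2) with hz
  have hd : 2 ∣ orderOf a := (by norm_num : (2 : ℕ) ∣ 4).trans D.four
  have hpos : 0 < orderOf a := orderOf_pos a
  have hz2 : orderOf z = 2 := by
    rw [hz, orderOf_pow_of_dvd (by omega) (Nat.div_dvd_of_dvd hd), Nat.div_div_self hd (by omega)]
  have hZ : Nat.card ((zpowers z).prod (zpowers z)) = 4 := by
    rw [Nat.card_congr (Subgroup.prodEquiv _ _).toEquiv, Nat.card_prod, Nat.card_zpowers, hz2]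
  have key := card_mul_le 𝒰 h.2 ((zpowers z).prod (zpowers z)) 2 (by
    intro U hU
    have c1 := card_relIndex (psi A).ker U
    have c2 : (psi A).ker.relIndex U ≤ A.index * A.index := by
      rw [relIndex_ker]
      refine le_trans (card_le_card_group _) ?_
      rw [Nat.card_prod]
      exact le_refl _
    have c3 : Nat.card U = orderOf a * A.index := by rw [h.1 U hU, ← card_P a]
    have hi : 0 < A.index := Nat.pos_of_ne_zero index_ne_zero_of_finite
    have c4 : 1 < Nat.card ((psi A).ker ⊓ U : Subgroup (P × P)) := by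
      by_contra hle
      rw [not_lt] at hle
      have h5 : Nat.card ((psi A).ker ⊓ U : Subgroup (P × P)) * (psi A).ker.relIndex U ≤
          1 * (A.index * A.index) := Nat.mul_le_mul hle c2
      rw [c1, c3, one_mul] at h5
      exact absurd (Nat.le_of_mul_le_mul_right h5 hi) (by omega)
    have c5 : 2 ∣ Nat.card ((psi A).ker ⊓ U : Subgroup (P × P)) := by
      obtain ⟨s, hs⟩ := IsPGroup.iff_card.1 hP
      have h6 : Nat.card ((psi A).ker ⊓ U : Subgroup (P × P)) ∣ 2 ^ s := by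
        rw [← hs, ← h.1 U hU]
        exact Dvd.intro _ c1
      obtain ⟨m, -, hm⟩ := (Nat.dvd_prime_pow Nat.prime_two).1 h6
      rw [hm] at c4 ⊢
      rcases m with _ | m
      · simp at c4
      · exact Dvd.intro_left (2 ^ m) rfl
    obtain ⟨x, hx⟩ := exists_prime_orderOf_dvd_card' 2 c5
    have hx2 : (x : P × P) ^ 2 = 1 := by
      have := pow_orderOf_eq_one x
      rw [hx] at this
      exact_mod_cast congrArg Subtype.val this
    have hx1 : (x : P × P) ≠ 1 := by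
      intro h1
      have : x = 1 := Subtype.ext h1
      rw [this, orderOf_one] at hx
      omega
    have hxA : (x : P × P) ∈ A.prod A := by rw [← psi_ker]; exact x.2.1
    rw [mem_prod] at hxA
    have hxZ : (x : P × P) ∈ (zpowers z).prod (zpowers z) := by
      rw [mem_prod]
      exact ⟨sq_one_mem D hxA.1 (Prod.ext_iff.1 hx2).1, sq_one_mem D hxA.2 (Prod.ext_iff.1 hx2).2⟩
    have hnt : Nontrivial (U ⊓ (zpowers z).prod (zpowers z) : Subgroup (P × P)) :=
      ⟨⟨⟨x, x.2.2, hxZ⟩, 1, fun he => hx1 (congrArg Subtype.val he)⟩⟩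
    exact Finite.one_lt_card)
  rw [hZ] at key
  omega

/-- `U` meets `N × N` inside `F × F` -/
def T0 (a b : P) (U : Subgroup (P × P)) : Prop :=
  ∀ u ∈ U, u.1 ∈ N a b → u.2 ∈ N a b → u ∈ FF a b

theorem relIndex_congr {G : Type} [Group G] {H H' K : Subgroup G}
    (h : ∀ x ∈ K, x ∈ H ↔ x ∈ H') : H.relIndex K = H'.relIndex K := by
  rw [← inf_relIndex_right H K, ← inf_relIndex_right H' K]
  congr 1
  ext x
  rw [mem_inf, mem_inf]
  constructor
  · rintro ⟨h1, h2⟩; exact ⟨(h x h2).1 h1, h2⟩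
  · rintro ⟨h1, h2⟩; exact ⟨(h x h2).2 h1, h2⟩

theorem le_two_of_index {G : Type} [Group G] {H K : Subgroup G} (h : H.index = 2) :
    H.relIndex K ≤ 2 := by
  apply relIndex_le_two
  intro x _ y _
  rw [mul_mem_iff_of_index_two h]
  tauto

theorem comap_index {G G' : Type} [Group G] [Group G'] {H : Subgroup G'} (f : G →* G')
    (hf : Function.Surjective f) (h : H.index = 2) : (H.comap f).index = 2 := by
  rw [index_comap_of_surjective _ hf, h]

theorem t0_left (hP : IsPGroup 2 P) (D : Data a b r) {U : Subgroup (P × P)}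
    (hr : (FF a b).relIndex U = 4) (h0 : T0 a b U) : ∃ u ∈ U, u.1 ∉ N a b ∧ u.2 ∈ N a b := by
  by_contra hno
  push Not at hno
  have h1 : (FF a b).relIndex U = ((N a b).comap (MonoidHom.snd P P)).relIndex U := by
    apply relIndex_congr
    intro x hx
    rw [mem_comap]
    constructor
    · intro h; exact h.2.1
    · intro h
      refine h0 x hx ?_ h
      by_contra hc
      exact hno x hx hc h
  have h2 := le_two_of_index (K := U)
    (comap_index (MonoidHom.snd P P) Prod.snd_surjective (index_N hP D))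
  omega

theorem t0_right (hP : IsPGroup 2 P) (D : Data a b r) {U : Subgroup (P × P)}
    (hr : (FF a b).relIndex U = 4) (h0 : T0 a b U) : ∃ u ∈ U, u.1 ∈ N a b ∧ u.2 ∉ N a b := by
  by_contra hno
  push Not at hno
  have h1 : (FF a b).relIndex U = ((N a b).comap (MonoidHom.fst P P)).relIndex U := by
    apply relIndex_congr
    intro x hx
    rw [mem_comap]
    constructor
    · intro h; exact h.1.1
    · intro h
      exact h0 x hx h (hno x hx h)
  have h2 := le_two_of_index (K := U)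
    (comap_index (MonoidHom.fst P P) Prod.fst_surjective (index_N hP D))
  omega

theorem psi_apply (A : Subgroup P) [A.Normal] (x : P × P) :
    psi A x = ((x.1 : P ⧸ A), (x.2 : P ⧸ A)) := rfl

/-- odd powers of the generator of `P / A` generate it -/
theorem gen_odd (hP : IsPGroup 2 P) (D : Data a b r) [(zpowers a).Normal] {o : ℤ} (ho : Odd o) :
    ∃ c : ℤ, ((b : P ⧸ zpowers a) ^ o) ^ c = (b : P ⧸ zpowers a) := by
  have h : (b : P ⧸ zpowers a) ∈ zpowers ((b : P ⧸ zpowers a) ^ o) := by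
    obtain ⟨s, hs⟩ := index_pow hP D
    rw [mem_zpowers_zpow_iff, ord_mk_b D, hs, ← Int.isCoprime_iff_gcd_eq_one]
    push_cast
    apply IsCoprime.pow_right
    obtain ⟨t, ht⟩ := ho
    exact ⟨1, -t, by rw [ht]; ring⟩
  obtain ⟨c, hc⟩ := h
  exact ⟨c, hc⟩

theorem psi_left (hP : IsPGroup 2 P) (D : Data a b r) [(zpowers a).Normal]
    {U : Subgroup (P × P)} (hr : (FF a b).relIndex U = 4) (h0 : T0 a b U) :
    ∃ u ∈ U, psi (zpowers a) u = ((b : P ⧸ zpowers a), 1) := by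
  obtain ⟨u, hu, h1, h2⟩ := t0_left hP D hr h0
  obtain ⟨v, hv, h3, h4⟩ := t0_right hP D hr h0
  obtain ⟨j, i, hu1⟩ := rep D u.1
  obtain ⟨l, k, hu2⟩ := rep D u.2
  obtain ⟨l', k', hv1⟩ := rep D v.1
  obtain ⟨j', i', hv2⟩ := rep D v.2
  rw [hu1, mem_N hP D, Nat.not_even_iff_odd] at h1
  rw [hu2, mem_N hP D] at h2
  rw [hv1, mem_N hP D] at h3
  rw [hv2, mem_N hP D, Nat.not_even_iff_odd] at h4
  have hodd : Odd ((j : ℤ) * j' - l' * l) := by
    have e1 : Odd ((j : ℤ) * j') := by exact_mod_cast h1.mul h4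
    have e2 : Even ((l' : ℤ) * l) := by exact_mod_cast h3.mul_right l
    exact e1.sub_even e2
  obtain ⟨c, hc⟩ := gen_odd hP D hodd
  refine ⟨(u ^ (j' : ℤ) * v ^ (-(l : ℤ))) ^ c, U.zpow_mem (U.mul_mem (U.zpow_mem hu _)
    (U.zpow_mem hv _)) _, ?_⟩
  rw [map_zpow, map_mul, map_zpow, map_zpow, psi_apply, psi_apply, hu1, hu2, hv1, hv2,
    mk_rep D, mk_rep D, mk_rep D, mk_rep D]
  set β := (b : P ⧸ zpowers a) with hβ
  refine Prod.ext ?_ ?_
  · change ((β ^ j) ^ (j' : ℤ) * (β ^ l') ^ (-(l : ℤ))) ^ c = β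
    have : (β ^ j) ^ (j' : ℤ) * (β ^ l') ^ (-(l : ℤ)) = β ^ ((j : ℤ) * j' - l' * l) := by
      rw [← zpow_natCast β j, ← zpow_natCast β l', ← zpow_mul, ← zpow_mul, ← zpow_add]
      congr 1; ring
    rw [this, hc]
  · change ((β ^ l) ^ (j' : ℤ) * (β ^ j') ^ (-(l : ℤ))) ^ c = 1
    have : (β ^ l) ^ (j' : ℤ) * (β ^ j') ^ (-(l : ℤ)) = 1 := by
      rw [← zpow_natCast β l, ← zpow_natCast β j', ← zpow_mul, ← zpow_mul, ← zpow_add]
      rw [show ((l : ℤ) * j' + j' * -(l : ℤ)) = 0 by ring, zpow_zero]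
    rw [this, one_zpow]

theorem psi_right (hP : IsPGroup 2 P) (D : Data a b r) [(zpowers a).Normal]
    {U : Subgroup (P × P)} (hr : (FF a b).relIndex U = 4) (h0 : T0 a b U) :
    ∃ u ∈ U, psi (zpowers a) u = (1, (b : P ⧸ zpowers a)) := by
  obtain ⟨u, hu, h1, h2⟩ := t0_left hP D hr h0
  obtain ⟨v, hv, h3, h4⟩ := t0_right hP D hr h0
  obtain ⟨j, i, hu1⟩ := rep D u.1
  obtain ⟨l, k, hu2⟩ := rep D u.2
  obtain ⟨l', k', hv1⟩ := rep D v.1
  obtain ⟨j', i', hv2⟩ := rep D v.2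
  rw [hu1, mem_N hP D, Nat.not_even_iff_odd] at h1
  rw [hu2, mem_N hP D] at h2
  rw [hv1, mem_N hP D] at h3
  rw [hv2, mem_N hP D, Nat.not_even_iff_odd] at h4
  have hodd : Odd ((j' : ℤ) * j - l * l') := by
    have e1 : Odd ((j' : ℤ) * j) := by exact_mod_cast h4.mul h1
    have e2 : Even ((l : ℤ) * l') := by exact_mod_cast h2.mul_right l'
    exact e1.sub_even e2
  obtain ⟨c, hc⟩ := gen_odd hP D hodd
  refine ⟨(v ^ (j : ℤ) * u ^ (-(l' : ℤ))) ^ c, U.zpow_mem (U.mul_mem (U.zpow_mem hv _)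
    (U.zpow_mem hu _)) _, ?_⟩
  rw [map_zpow, map_mul, map_zpow, map_zpow, psi_apply, psi_apply, hu1, hu2, hv1, hv2,
    mk_rep D, mk_rep D, mk_rep D, mk_rep D]
  set β := (b : P ⧸ zpowers a) with hβ
  refine Prod.ext ?_ ?_
  · change ((β ^ l') ^ (j : ℤ) * (β ^ j) ^ (-(l' : ℤ))) ^ c = 1
    have : (β ^ l') ^ (j : ℤ) * (β ^ j) ^ (-(l' : ℤ)) = 1 := by
      rw [← zpow_natCast β l', ← zpow_natCast β j, ← zpow_mul, ← zpow_mul, ← zpow_add]
      rw [show ((l' : ℤ) * j + j * -(l' : ℤ)) = 0 by ring, zpow_zero]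
    rw [this, one_zpow]
  · change ((β ^ j') ^ (j : ℤ) * (β ^ l) ^ (-(l' : ℤ))) ^ c = β
    have : (β ^ j') ^ (j : ℤ) * (β ^ l) ^ (-(l' : ℤ)) = β ^ ((j' : ℤ) * j - l * l') := by
      rw [← zpow_natCast β j', ← zpow_natCast β l, ← zpow_mul, ← zpow_mul, ← zpow_add]
      congr 1; ring
    rw [this, hc]

/-- a member of type `0` meets `A × A` trivially, and `|A| = |P / A|` -/
theorem type0_card (hP : IsPGroup 2 P) (D : Data a b r) [(zpowers a).Normal]
    {U : Subgroup (P × P)} (hcard : Nat.card U = Nat.card P) (hr : (FF a b).relIndex U = 4)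
    (h0 : T0 a b U) (hn : orderOf a ≤ (zpowers a).index) :
    orderOf a = (zpowers a).index ∧ ∀ u ∈ U, u.1 ∈ zpowers a → u.2 ∈ zpowers a → u = 1 := by
  have hmap : U.map (psi (zpowers a)) = ⊤ := by
    rw [eq_top_iff]
    rintro ⟨q1, q2⟩ -
    obtain ⟨u, hu, hu1⟩ := psi_left hP D hr h0
    obtain ⟨v, hv, hv1⟩ := psi_right hP D hr h0
    obtain ⟨x, rfl⟩ := QuotientGroup.mk_surjective q1
    obtain ⟨y, rfl⟩ := QuotientGroup.mk_surjective q2
    obtain ⟨j, i, rfl⟩ := rep D x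
    obtain ⟨l, k, rfl⟩ := rep D y
    refine ⟨u ^ j * v ^ l, U.mul_mem (U.pow_mem hu j) (U.pow_mem hv l), ?_⟩
    rw [map_mul, map_pow, map_pow, hu1, hv1, mk_rep D, mk_rep D]
    refine Prod.ext ?_ ?_
    · simp
    · simp
  have c1 := card_relIndex (psi (zpowers a)).ker U
  have c2 : (psi (zpowers a)).ker.relIndex U = (zpowers a).index * (zpowers a).index := by
    rw [relIndex_ker, hmap, card_top, Nat.card_prod]
    rfl
  have hi : 0 < (zpowers a).index := Nat.pos_of_ne_zero index_ne_zero_of_finite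
  rw [c2, hcard, ← card_P a, ← mul_assoc] at c1
  have c3 := Nat.eq_of_mul_eq_mul_right hi c1
  have c4 : 0 < Nat.card ((psi (zpowers a)).ker ⊓ U : Subgroup (P × P)) := Nat.card_pos
  have c5 : Nat.card ((psi (zpowers a)).ker ⊓ U : Subgroup (P × P)) = 1 := by
    by_contra hne
    have : 2 ≤ Nat.card ((psi (zpowers a)).ker ⊓ U : Subgroup (P × P)) := by omega
    have := Nat.mul_le_mul_right (zpowers a).index this
    omega
  refine ⟨by rw [c5, one_mul] at c3; exact c3.symm, fun u hu h1 h2 => ?_⟩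
  rw [card_eq_one] at c5
  have : u ∈ ((psi (zpowers a)).ker ⊓ U : Subgroup (P × P)) := by
    refine ⟨?_, hu⟩
    change u ∈ (psi (zpowers a)).ker
    rw [psi_ker, mem_prod]
    exact ⟨h1, h2⟩
  rw [c5, mem_bot] at this
  exact this

theorem pow_one_of_dvd {k : ℕ} (hk : orderOf a = 2 ^ (k + 2)) (c : ℤ) :
    a ^ ((2 : ℤ) ^ (k + 2) * c) = 1 := by
  rw [← orderOf_dvd_iff_zpow_eq_one, hk]
  push_cast
  exact Dvd.intro c rfl

theorem type0_main (hP : IsPGroup 2 P) (D : Data a b r) {k : ℕ} (hk : orderOf a = 2 ^ (k + 2))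
    {U : Subgroup (P × P)} (hcard : Nat.card U = Nat.card P) (hr : (FF a b).relIndex U = 4)
    (h0 : T0 a b U) (hn : orderOf a ≤ (zpowers a).index) :
    b ^ (2 ^ (k + 2)) = 1 ∧ b ^ (2 ^ (k + 1)) ≠ 1 ∧ ((b ^ (2 ^ (k + 1)), 1) : P × P) ∈ U ∧
      ((1, b ^ (2 ^ (k + 1))) : P × P) ∈ U := by
  have := D.norm
  obtain ⟨hi, htriv⟩ := type0_card hP D hcard hr h0 hn
  obtain ⟨u, hu, hu1⟩ := psi_left hP D hr h0
  obtain ⟨v, hv, hv1⟩ := psi_right hP D hr h0
  rw [psi_apply, Prod.mk.injEq] at hu1 hv1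
  obtain ⟨i, hui⟩ : ∃ i : ℤ, u.1 = b * a ^ i := by
    have h := hu1.1.symm
    rw [QuotientGroup.eq] at h
    obtain ⟨i, hi⟩ := h
    exact ⟨i, by rw [show a ^ i = b⁻¹ * u.1 from hi, mul_inv_cancel_left]⟩
  obtain ⟨m, hum⟩ : ∃ m : ℤ, u.2 = a ^ m := by
    have h := hu1.2
    rw [QuotientGroup.eq_one_iff] at h
    obtain ⟨m, hm⟩ := h
    exact ⟨m, hm.symm⟩
  obtain ⟨i', hvi⟩ : ∃ i : ℤ, v.2 = b * a ^ i := by
    have h := hv1.2.symm
    rw [QuotientGroup.eq] at h
    obtain ⟨i, hi⟩ := h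
    exact ⟨i, by rw [show a ^ i = b⁻¹ * v.2 from hi, mul_inv_cancel_left]⟩
  obtain ⟨m', hvm⟩ : ∃ m : ℤ, v.1 = a ^ m := by
    have h := hv1.1
    rw [QuotientGroup.eq_one_iff] at h
    obtain ⟨m, hm⟩ := h
    exact ⟨m, hm.symm⟩
  have hcomm : u * v = v * u := by
    have := htriv ((v * u)⁻¹ * (u * v)) (U.mul_mem (U.inv_mem (U.mul_mem hv hu)) (U.mul_mem hu hv))
      (comm_A D u.1 v.1) (comm_A D u.2 v.2)
    exact (inv_mul_eq_one.1 this).symm
  have hm' : Even m' := by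
    have h := (Prod.ext_iff.1 hcomm).1
    rw [Prod.fst_mul, Prod.fst_mul, hui, hvm] at h
    apply even_of_comm D
    have h2 : b * a ^ i * a ^ m' = b * a ^ m' * a ^ i := by
      rw [mul_assoc, mul_assoc, (Commute.zpow_zpow_self a i m').eq]
    rw [h2, ← mul_assoc] at h
    exact (mul_right_cancel h).symm
  have hm : Even m := by
    have h := (Prod.ext_iff.1 hcomm).2
    rw [Prod.snd_mul, Prod.snd_mul, hum, hvi] at h
    apply even_of_comm D
    have h2 : b * a ^ i' * a ^ m = b * a ^ m * a ^ i' := by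
      rw [mul_assoc, mul_assoc, (Commute.zpow_zpow_self a i' m).eq]
    rw [h2, ← mul_assoc] at h
    exact mul_right_cancel h
  have hpow : ∀ i : ℤ, (b * a ^ i) ^ (2 ^ (k + 1)) = b ^ (2 ^ (k + 1)) := by
    intro i
    obtain ⟨c, hc⟩ := pow_odd D k (by decide : Odd 1) i
    rw [pow_one, mul_one, pow_one_of_dvd hk, mul_one] at hc
    exact hc
  have hpow2 : ∀ m : ℤ, Even m → (a ^ m) ^ (2 ^ (k + 1)) = 1 := by
    rintro m ⟨c, rfl⟩
    rw [← zpow_natCast, ← zpow_mul]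
    have := pow_one_of_dvd (a := a) hk c
    rw [← this]
    congr 1
    push_cast
    ring
  have hb : b ^ (2 ^ (k + 2)) = 1 := by
    have h1 : u ^ (2 ^ (k + 2)) = 1 := by
      apply htriv _ (U.pow_mem hu _)
      · change u.1 ^ (2 ^ (k + 2)) ∈ zpowers a
        rw [← QuotientGroup.eq_one_iff, QuotientGroup.mk_pow, hu1.1, ← hk, hi, ← ord_mk_b D]
        exact pow_orderOf_eq_one _
      · change u.2 ^ (2 ^ (k + 2)) ∈ zpowers a
        rw [hum]
        exact (zpowers a).pow_mem ⟨m, rfl⟩ _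
    have h2 : u.1 ^ (2 ^ (k + 2)) = 1 := (Prod.ext_iff.1 h1).1
    rw [hui, pow_succ 2 (k + 1), pow_mul, hpow, ← pow_mul, ← pow_succ] at h2
    exact h2
  refine ⟨hb, ?_, ?_, ?_⟩
  · intro h1
    have h2 : (b : P ⧸ zpowers a) ^ (2 ^ (k + 1)) = 1 := by
      rw [← QuotientGroup.mk_pow, h1, QuotientGroup.mk_one]
    have h3 := orderOf_dvd_of_pow_eq_one h2
    rw [ord_mk_b D, ← hi, hk, Nat.pow_dvd_pow_iff_le_right (by norm_num)] at h3
    omega
  · have h1 := U.pow_mem hu (2 ^ (k + 1))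
    have h2 : u ^ (2 ^ (k + 1)) = (b ^ (2 ^ (k + 1)), 1) := by
      refine Prod.ext ?_ ?_
      · change u.1 ^ (2 ^ (k + 1)) = _
        rw [hui, hpow]
      · change u.2 ^ (2 ^ (k + 1)) = _
        rw [hum, hpow2 m hm]
    rwa [h2] at h1
  · have h1 := U.pow_mem hv (2 ^ (k + 1))
    have h2 : v ^ (2 ^ (k + 1)) = (1, b ^ (2 ^ (k + 1))) := by
      refine Prod.ext ?_ ?_
      · change v.1 ^ (2 ^ (k + 1)) = _
        rw [hvm, hpow2 m' hm']
      · change v.2 ^ (2 ^ (k + 1)) = _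
        rw [hvi, hpow]
    rwa [h2] at h1

theorem pow_notN (hP : IsPGroup 2 P) (D : Data a b r) {k : ℕ} (hk : orderOf a = 2 ^ (k + 2))
    (hb : b ^ (2 ^ (k + 2)) = 1) {x : P} (hx : x ∉ N a b) :
    x ^ (2 ^ (k + 1)) = b ^ (2 ^ (k + 1)) := by
  obtain ⟨j, i, rfl⟩ := rep D x
  rw [mem_N hP D, Nat.not_even_iff_odd] at hx
  obtain ⟨c, hc⟩ := pow_odd D k hx i
  rw [pow_one_of_dvd hk, mul_one] at hc
  rw [hc]
  obtain ⟨s, rfl⟩ := hx
  rw [mul_add, mul_one, pow_add, ← mul_assoc, ← pow_succ, pow_mul, hb, one_pow, one_mul]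

theorem pow_F (hP : IsPGroup 2 P) (D : Data a b r) {k : ℕ} (hk : orderOf a = 2 ^ (k + 2))
    (hb : b ^ (2 ^ (k + 2)) = 1) {x : P} (hx : x ∈ F a b) : x ^ (2 ^ (k + 1)) = 1 := by
  obtain ⟨j, i, rfl⟩ := rep D x
  rw [mem_F hP D] at hx
  obtain ⟨o, -, ho⟩ := pow_even D (k + 1) hx.1 i
  rw [ho]
  obtain ⟨s, rfl⟩ := hx.1
  obtain ⟨t, rfl⟩ := hx.2
  have h1 : (2 : ℤ) ^ (k + 1) * (t + t) * o = 2 ^ (k + 2) * (t * o) := by ring
  have h2 : 2 ^ (k + 1) * (s + s) = 2 ^ (k + 2) * s := by ring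
  rw [h1, pow_one_of_dvd hk, h2, pow_mul, hb, one_pow, one_mul]

theorem case_ge (hP : IsPGroup 2 P) (D : Data a b r) {𝒰 : Finset (Subgroup (P × P))}
    (h : IsPCP (Nat.card P) 𝒰) (hn : orderOf a ≤ (zpowers a).index) : 𝒰.card ≤ 3 := by
  classical
  by_contra hlt
  rw [not_le] at hlt
  have : Fact (Nat.Prime 2) := ⟨Nat.prime_two⟩
  obtain ⟨k, hk⟩ : ∃ k, orderOf a = 2 ^ (k + 2) := by
    obtain ⟨e, he⟩ := IsPGroup.iff_orderOf.1 hP a
    have h4 := D.four
    rw [he, show (4 : ℕ) = 2 ^ 2 by norm_num, Nat.pow_dvd_pow_iff_le_right (by norm_num)] at h4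
    exact ⟨e - 2, by rw [he]; congr 1; omega⟩
  have hrel : ∀ U ∈ 𝒰, (FF a b).relIndex U = 4 := by
    intro U hU
    obtain ⟨V, hV, hne⟩ := Finset.exists_mem_ne (by omega : 1 < 𝒰.card) U
    exact (members hP D h hU hV hne.symm).1
  set t := b ^ (2 ^ (k + 1)) with ht
  -- at most one member of type 0
  have h0 : (𝒰.filter (fun U => T0 a b U)).card ≤ 1 := by
    rw [Finset.card_le_one]
    intro U hU V hV
    rw [Finset.mem_filter] at hU hV
    by_contra hne
    obtain ⟨-, ht1, htU, -⟩ := type0_main hP D hk (h.1 U hU.1) (hrel U hU.1) hU.2 hn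
    obtain ⟨-, -, htV, -⟩ := type0_main hP D hk (h.1 V hV.1) (hrel V hV.1) hV.2 hn
    have h1 : ((t, 1) : P × P) ∈ U ⊓ V := ⟨htU, htV⟩
    rw [h.2 U hU.1 V hV.1 hne, mem_bot] at h1
    exact ht1 (Prod.ext_iff.1 h1).1
  -- the classes of the other members
  have hex : ∀ U : Subgroup (P × P), ∃ g : P × P, ¬ T0 a b U →
      g ∈ U ∧ g.1 ∈ N a b ∧ g.2 ∈ N a b ∧ g ∉ FF a b := by
    intro U
    by_cases hU : T0 a b U
    · exact ⟨1, fun h => absurd hU h⟩
    · unfold T0 at hU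
      push Not at hU
      obtain ⟨g, h1, h2, h3, h4⟩ := hU
      exact ⟨g, fun _ => ⟨h1, h2, h3, h4⟩⟩
  choose g hg using hex
  set κ : Subgroup (P × P) → Bool × Bool :=
    fun U => (decide ((g U).1 ∈ M a b), decide ((g U).2 ∈ M a b)) with hκ
  have hMM : ∀ x y : P, (x ∈ M a b ↔ y ∈ M a b) → x⁻¹ * y ∈ M a b := by
    intro x y hxy
    rw [mul_mem_iff_of_index_two (index_M D), inv_mem_iff]
    exact hxy
  have hinj : Set.InjOn κ (𝒰.filter (fun U => ¬ T0 a b U) : Finset (Subgroup (P × P))) := by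
    intro U hU V hV hUV
    rw [Finset.mem_coe, Finset.mem_filter] at hU hV
    by_contra hne
    obtain ⟨u1, u2, u3, u4⟩ := hg U hU.2
    obtain ⟨v1, v2, v3, v4⟩ := hg V hV.2
    simp only [hκ, Prod.mk.injEq, decide_eq_decide] at hUV
    apply u4
    refine (members hP D h hU.1 hV.1 hne).2 _ u1 _ v1 ?_
    rw [FF, mem_prod]
    exact ⟨⟨(N a b).mul_mem ((N a b).inv_mem u2) v2, hMM _ _ hUV.1⟩,
      ⟨(N a b).mul_mem ((N a b).inv_mem u3) v3, hMM _ _ hUV.2⟩⟩
  have hsub : (𝒰.filter (fun U => ¬ T0 a b U)).image κ ⊆ Finset.univ.erase (true, true) := by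
    intro q hq
    rw [Finset.mem_image] at hq
    obtain ⟨U, hU, rfl⟩ := hq
    rw [Finset.mem_filter] at hU
    rw [Finset.mem_erase]
    refine ⟨?_, Finset.mem_univ _⟩
    intro he
    obtain ⟨u1, u2, u3, u4⟩ := hg U hU.2
    simp only [hκ, Prod.mk.injEq, decide_eq_true_eq] at he
    exact u4 ⟨⟨u2, he.1⟩, ⟨u3, he.2⟩⟩
  have hc3 : (Finset.univ.erase ((true, true) : Bool × Bool)).card = 3 := by decide
  have hc1 := Finset.card_image_of_injOn hinj
  have hsum := Finset.card_filter_add_card_filter_not (s := 𝒰) (fun U => T0 a b U)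
  have hc2 := Finset.card_le_card hsub
  have heq : (𝒰.filter (fun U => ¬ T0 a b U)).image κ = Finset.univ.erase (true, true) :=
    Finset.eq_of_subset_of_card_le hsub (by omega)
  obtain ⟨U0, hU0⟩ : (𝒰.filter (fun U => T0 a b U)).Nonempty := by
    rw [← Finset.card_pos]; omega
  rw [Finset.mem_filter] at hU0
  obtain ⟨hb, ht1, ht0, ht0'⟩ :=
    type0_main hP D hk (h.1 U0 hU0.1) (hrel U0 hU0.1) hU0.2 hn
  have hm1 : ((false, true) : Bool × Bool) ∈ (𝒰.filter (fun U => ¬ T0 a b U)).image κ := by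
    rw [heq]; decide
  have hm3 : ((false, false) : Bool × Bool) ∈ (𝒰.filter (fun U => ¬ T0 a b U)).image κ := by
    rw [heq]; decide
  rw [Finset.mem_image] at hm1 hm3
  obtain ⟨U1, hU1, hκ1⟩ := hm1
  obtain ⟨U3, hU3, hκ3⟩ := hm3
  rw [Finset.mem_filter] at hU1 hU3
  have hne13 : U3 ≠ U1 := by
    intro he
    rw [he, hκ1] at hκ3
    exact absurd hκ3 (by decide)
  have hne03 : U3 ≠ U0 := by
    intro he
    rw [he] at hU3
    exact hU3.2 hU0.2
  obtain ⟨a1, a2, a3, a4⟩ := hg U1 hU1.2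
  obtain ⟨c1, c2, c3, c4⟩ := hg U3 hU3.2
  simp only [hκ, Prod.mk.injEq, decide_eq_false_iff_not, decide_eq_true_eq] at hκ1 hκ3
  -- no nontrivial common element of `U3` and `U0`
  have hno : ∀ x ∈ U3, x ∈ U0 → x = 1 := by
    intro x h1 h2
    have h3 : x ∈ U3 ⊓ U0 := ⟨h1, h2⟩
    rwa [h.2 U3 hU3.1 U0 hU0.1 hne03, mem_bot] at h3
  have hleft : ∀ w ∈ U3, w.1 ∉ N a b → w.2 ∈ F a b → False := by
    intro w hw h1 h2
    have h3 : w ^ (2 ^ (k + 1)) = (t, 1) :=
      Prod.ext (pow_notN hP D hk hb h1) (pow_F hP D hk hb h2)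
    have h4 := hno _ (U3.pow_mem hw _) (by rw [h3]; exact ht0)
    rw [h3] at h4
    exact ht1 (Prod.ext_iff.1 h4).1
  have hright : ∀ w ∈ U3, w.1 ∈ F a b → w.2 ∉ N a b → False := by
    intro w hw h1 h2
    have h3 : w ^ (2 ^ (k + 1)) = (1, t) :=
      Prod.ext (pow_F hP D hk hb h1) (pow_notN hP D hk hb h2)
    have h4 := hno _ (U3.pow_mem hw _) (by rw [h3]; exact ht0')
    rw [h3] at h4
    exact ht1 (Prod.ext_iff.1 h4).2
  by_cases hall : ∀ w ∈ U3, w.1 ∈ N a b ∧ w.2 ∈ N a b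
  · -- `U3 ≤ N × N`: an element of the class of `U1`
    have hw : ∃ w ∈ U3, w.1 ∉ M a b ∧ w.2 ∈ M a b := by
      by_contra hno2
      push Not at hno2
      have h1 : (FF a b).relIndex U3 = ((M a b).comap (MonoidHom.snd P P)).relIndex U3 := by
        apply relIndex_congr
        intro x hx
        rw [mem_comap]
        constructor
        · intro h; exact h.2.2
        · intro h
          refine ⟨⟨(hall x hx).1, ?_⟩, ⟨(hall x hx).2, h⟩⟩
          by_contra hc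
          exact hno2 x hx hc h
      have h2 := le_two_of_index (K := U3)
        (comap_index (MonoidHom.snd P P) Prod.snd_surjective (index_M D))
      rw [← h1, hrel U3 hU3.1] at h2
      omega
    obtain ⟨w, hw, hw1, hw2⟩ := hw
    have h5 : w ∈ FF a b := by
      refine (members hP D h hU3.1 hU1.1 hne13).2 w hw (g U1) a1 ?_
      rw [FF, mem_prod]
      refine ⟨⟨(N a b).mul_mem ((N a b).inv_mem (hall w hw).1) a2, hMM _ _ ?_⟩,
        ⟨(N a b).mul_mem ((N a b).inv_mem (hall w hw).2) a3, hMM _ _ ?_⟩⟩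
      · exact iff_of_false hw1 hκ1.1
      · exact iff_of_true hw2 hκ1.2
    exact hw1 h5.1.2
  · push Not at hall
    obtain ⟨w, hw, hwn⟩ := hall
    by_cases h1 : w.1 ∈ N a b
    · have h2 := hwn h1
      by_cases h3 : w.1 ∈ M a b
      · exact hright w hw ⟨h1, h3⟩ h2
      · refine hright (w * g U3) (U3.mul_mem hw c1) ⟨(N a b).mul_mem h1 c2,
          mul_mem_M D _ _ h3 hκ3.1⟩ ?_
        intro hc
        exact h2 (((N a b).mul_mem_cancel_right c3).1 hc)
    · by_cases h2 : w.2 ∈ N a b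
      · by_cases h3 : w.2 ∈ M a b
        · exact hleft w hw h1 ⟨h2, h3⟩
        · refine hleft (w * g U3) (U3.mul_mem hw c1) ?_ ⟨(N a b).mul_mem h2 c3,
            mul_mem_M D _ _ h3 hκ3.2⟩
          intro hc
          exact h1 (((N a b).mul_mem_cancel_right c2).1 hc)
      · have h3 : w ^ (2 ^ (k + 1)) = (t, t) :=
          Prod.ext (pow_notN hP D hk hb h1) (pow_notN hP D hk hb h2)
        have h4 : ((t, t) : P × P) ∈ U0 := by
          have := U0.mul_mem ht0 ht0'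
          rwa [Prod.mk_mul_mk, mul_one, one_mul] at this
        have h5 := hno _ (U3.pow_mem hw _) (by rw [h3]; exact h4)
        rw [h3] at h5
        exact ht1 (Prod.ext_iff.1 h5).1

end Pool.Agent.MC50

namespace Pool.Agent.MC

open Subgroup
open Pool.Agent.Helper19.PCP

/-- `p = 2`, not powerful -/
theorem two_nonpowerful {P : Type} [Group P] [Finite P] (hP : IsPGroup 2 P)
    (hna : ∃ x y : P, x * y ≠ y * x) {a b : P} {r : ℕ} (hab : a * b = b * a ^ r)
    (hr : r % 4 = 3) (hgen : ∀ x : P, ∃ v u : ℕ, x = b ^ v * a ^ u) (h4 : 4 ∣ orderOf a) :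
    T (P × P) = 3 := by
  have hnt : Nontrivial P := by
    obtain ⟨x, y, hxy⟩ := hna
    exact ⟨x * y, y * x, hxy⟩
  have hrel : b⁻¹ * a * b = a ^ r := by rw [mul_assoc, hab, inv_mul_cancel_left]
  have hnorm : (zpowers a).Normal := by
    have hfwd : ∀ x ∈ zpowers a, b⁻¹ * x * b ∈ zpowers a := by
      rintro x ⟨i, rfl⟩
      refine ⟨r * i, ?_⟩
      change a ^ ((r : ℤ) * i) = b⁻¹ * a ^ i * b
      have h := map_zpow (MulAut.conj b⁻¹) a i
      simp only [MulAut.conj_apply, inv_inv] at h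
      rw [h, hrel, zpow_mul, zpow_natCast]
    have hpow : ∀ (j : ℕ), ∀ x ∈ zpowers a, (b ^ j)⁻¹ * x * b ^ j ∈ zpowers a := by
      intro j
      induction j with
      | zero => intro x hx; simpa using hx
      | succ j ih =>
        intro x hx
        have h := hfwd _ (ih x hx)
        have e : b⁻¹ * ((b ^ j)⁻¹ * x * b ^ j) * b = (b ^ (j + 1))⁻¹ * x * b ^ (j + 1) := by
          rw [pow_succ]; group
        rwa [e] at h
    constructor
    intro n hn g
    obtain ⟨v, u, hvu⟩ := hgen g⁻¹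
    have hg : g = (b ^ v * a ^ u)⁻¹ := by rw [← hvu, inv_inv]
    have h1 : g * n * g⁻¹ = (a ^ u)⁻¹ * ((b ^ v)⁻¹ * n * b ^ v) * a ^ u := by
      rw [hg]; group
    rw [h1]
    have hau : a ^ u ∈ zpowers a := ⟨u, by simp⟩
    exact (zpowers a).mul_mem ((zpowers a).mul_mem ((zpowers a).inv_mem hau) (hpow v n hn)) hau
  have hgen' : closure {a, b} = ⊤ := by
    rw [eq_top_iff]
    intro x _
    obtain ⟨v, u, rfl⟩ := hgen x
    exact (closure {a, b}).mul_mem ((closure {a, b}).pow_mem (subset_closure (by simp)) v)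
      ((closure {a, b}).pow_mem (subset_closure (by simp)) u)
  have D : MC50.Data a b r := ⟨hnorm, hgen', hrel, hr, h4⟩
  apply le_antisymm _ three_le_T
  apply T_prod_le
  intro 𝒰 h
  rcases lt_or_ge (zpowers a).index (orderOf a) with hlt | hge
  · exact MC50.case_lt hP D h hlt
  · exact MC50.case_ge hP D h hge

end Pool.Agent.MC
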