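import Pool.Agent.MC.Base
import Pool.Agent.MC.Two50

/-!
Metacyclic `p`-groups: choice of generators and the condition `|P| = exp(P)²`, `P' ≤ P⁴`.
-/

set_option autoImplicit false

namespace Pool.Agent.MC

open Subgroup
open scoped commutatorElement

/-- generators of a metacyclic group -/
theorem exists_gens {P : Type} [Group P] [Finite P]
    (hM : ∃ A : Subgroup P, ∃ _ : A.Normal, IsCyclic A ∧ IsCyclic (P ⧸ A)) :
    ∃ a b : P, ∃ r : ℕ, (zpowers a).Normal ∧ a * b = b * a ^ r ∧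
      ∀ x : P, ∃ v u : ℕ, x = b ^ v * a ^ u := by
  obtain ⟨A, hA, hc, hq⟩ := hM
  obtain ⟨⟨a, haA⟩, ha⟩ := hc.exists_generator
  obtain ⟨q, hq⟩ := hq.exists_generator
  obtain ⟨b, rfl⟩ := QuotientGroup.mk_surjective q
  have hAa : A = zpowers a := by
    apply le_antisymm
    · intro x hx
      obtain ⟨i, hi⟩ := ha ⟨x, hx⟩
      exact ⟨i, by simpa using congrArg Subtype.val hi⟩
    · rwa [zpowers_le]
  subst hAa
  have hnat : ∀ x ∈ zpowers a, ∃ u : ℕ, x = a ^ u := by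
    intro x hx
    obtain ⟨u, hu⟩ := mem_powers_iff_mem_zpowers.2 hx
    exact ⟨u, hu.symm⟩
  obtain ⟨r, hr⟩ := hnat (b⁻¹ * a * b) (by
    have := hA.conj_mem a (mem_zpowers a) b⁻¹
    rwa [inv_inv] at this)
  refine ⟨a, b, r, hA, ?_, fun x => ?_⟩
  · rw [← hr]; group
  · have h1 := hq (x : P ⧸ zpowers a)
    obtain ⟨v, hv⟩ := mem_powers_iff_mem_zpowers.2 h1
    have h2 : (b ^ v)⁻¹ * x ∈ zpowers a := by
      rw [← QuotientGroup.eq, QuotientGroup.mk_pow]; exact hv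
    obtain ⟨u, hu⟩ := hnat _ h2
    exact ⟨v, u, by rw [← hu, mul_inv_cancel_left]⟩

/-- `a` and `b` do not commute -/
theorem not_commute {P : Type} [Group P] (hna : ∃ x y : P, x * y ≠ y * x) {a b : P}
    (hgen : ∀ x : P, ∃ v u : ℕ, x = b ^ v * a ^ u) : ¬ Commute a b := by
  intro hc
  obtain ⟨x, y, hxy⟩ := hna
  apply hxy
  obtain ⟨v, u, rfl⟩ := hgen x
  obtain ⟨v', u', rfl⟩ := hgen y
  have h1 : Commute (b ^ v * a ^ u) (b ^ v' * a ^ u') :=
    (((Commute.refl b).pow_pow v v').mul_left (hc.pow_pow u v')).mul_right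
      ((hc.symm.pow_pow v u').mul_left ((Commute.refl a).pow_pow u u'))
  exact h1

/-- `r = 1` modulo `p` -/
theorem r_modEq {p : ℕ} [hp : Fact p.Prime] {P : Type} [Group P] [Finite P] (hP : IsPGroup p P)
    {a b : P} {r : ℕ} (hab : a * b = b * a ^ r) (ha : a ≠ 1) : r ≡ 1 [MOD p] := by
  obtain ⟨m, hm⟩ := IsPGroup.iff_orderOf.1 hP b
  obtain ⟨e, he⟩ := IsPGroup.iff_orderOf.1 hP a
  have h1 := swap hab 1 (p ^ m)
  rw [← hm, pow_orderOf_eq_one, one_mul, mul_one, one_mul, pow_one] at h1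
  have h2 : a ^ 1 = a ^ (r ^ orderOf b) := by rw [pow_one]; exact h1
  rw [pow_eq_pow_iff_modEq, he, hm] at h2
  have hpe : p ∣ p ^ e := by
    apply dvd_pow_self
    rintro rfl
    rw [pow_zero, orderOf_eq_one_iff] at he
    exact ha he
  have h3 : 1 ≡ r ^ p ^ m [MOD p] := Nat.ModEq.of_dvd hpe h2
  have h4 : ((r : ZMod p)) ^ p ^ m = 1 := by
    have := (ZMod.natCast_eq_natCast_iff _ _ _).2 h3
    push_cast at this
    exact this.symm
  rw [ZMod.pow_card_pow] at h4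
  rw [← ZMod.natCast_eq_natCast_iff]
  simpa using h4

/-- `p = 2`: `4` divides the order of `a` -/
theorem four_dvd {P : Type} [Group P] [Finite P] (hP : IsPGroup 2 P) {a b : P} {r : ℕ}
    (hab : a * b = b * a ^ r) (hc : ¬ Commute a b) (hr : r % 2 = 1) : 4 ∣ orderOf a := by
  have : Fact (Nat.Prime 2) := ⟨Nat.prime_two⟩
  obtain ⟨e, he⟩ := IsPGroup.iff_orderOf.1 hP a
  have h2 : 2 ≤ e := by
    by_contra hlt
    apply hc
    have ha2 : a ^ 2 = 1 := by
      rw [← orderOf_dvd_iff_pow_eq_one, he]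
      calc 2 ^ e ∣ 2 ^ 1 := pow_dvd_pow 2 (by omega)
        _ = 2 := pow_one 2
    have h3 : a ^ r = a := by
      have h4 : r = 2 * (r / 2) + 1 := by omega
      rw [h4, pow_add, pow_mul, ha2, one_pow, one_mul, pow_one]
    rw [h3] at hab
    exact hab
  rw [he]
  exact pow_dvd_pow 2 h2

/-- the structure of a non-abelian metacyclic `p`-group: a presentation pair -/
theorem gens {p : ℕ} [hp : Fact p.Prime] {P : Type} [Group P] [Finite P] (hP : IsPGroup p P)
    (hna : ∃ x y : P, x * y ≠ y * x)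
    (hM : ∃ A : Subgroup P, ∃ _ : A.Normal, IsCyclic A ∧ IsCyclic (P ⧸ A)) :
    ∃ a b : P, ∃ r : ℕ, a * b = b * a ^ r ∧ (∀ x : P, ∃ v u : ℕ, x = b ^ v * a ^ u) ∧
      (zpowers a).Normal ∧ (Pair p a b r ∨ (p = 2 ∧ r % 4 = 3 ∧ 4 ∣ orderOf a)) := by
  obtain ⟨a, b, r, hN, hab, hgen⟩ := exists_gens hM
  have hc := not_commute hna hgen
  have ha : a ≠ 1 := by
    rintro rfl
    exact hc (Commute.one_left b)
  have hr := r_modEq hP hab ha
  refine ⟨a, b, r, hab, hgen, hN, ?_⟩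
  by_cases hp2 : p = 2
  · subst hp2
    have h2 : r % 2 = 1 := hr
    have h4 : r % 4 = 1 ∨ r % 4 = 3 := by omega
    rcases h4 with h4 | h4
    · exact Or.inl ⟨hab, hr, fun _ => h4⟩
    · exact Or.inr ⟨rfl, h4, four_dvd hP hab hc h2⟩
  · exact Or.inl ⟨hab, hr, fun h => absurd h hp2⟩

/-- `⟨a⟩` is normal -/
theorem norm_of {P : Type} [Group P] {a b : P} {r : ℕ} (hab : a * b = b * a ^ r)
    (hgen : ∀ x : P, ∃ v u : ℕ, x = b ^ v * a ^ u) : (zpowers a).Normal := by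
  have hrel : b⁻¹ * a * b = a ^ r := by rw [mul_assoc, hab, inv_mul_cancel_left]
  have hfwd : ∀ x ∈ zpowers a, b⁻¹ * x * b ∈ zpowers a := by
    rintro x ⟨i, rfl⟩
    refine ⟨r * i, ?_⟩
    change a ^ ((r : ℤ) * i) = b⁻¹ * a ^ i * b
    have h := map_zpow (MulAut.conj b⁻¹) a i
    simp only [MulAut.conj_apply, inv_inv] at h
    rw [h, hrel, zpow_mul, zpow_natCast]
  have hpow : ∀ (j : ℕ), ∀ x ∈ zpowers a, (b ^ j)⁻¹ * x * b ^ j ∈ zpowers a := by
    intro j
    induction j with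
    | zero => intro x hx; simpa using hx
    | succ j ih =>
      intro x hx
      have h := hfwd _ (ih x hx)
      have e : b⁻¹ * ((b ^ j)⁻¹ * x * b ^ j) * b = (b ^ (j + 1))⁻¹ * x * b ^ (j + 1) := by
        rw [pow_succ]; group
      rwa [e] at h
  constructor
  intro n hn g
  obtain ⟨v, u, hvu⟩ := hgen g⁻¹
  have hg : g = (b ^ v * a ^ u)⁻¹ := by rw [← hvu, inv_inv]
  have h1 : g * n * g⁻¹ = (a ^ u)⁻¹ * ((b ^ v)⁻¹ * n * b ^ v) * a ^ u := by
    rw [hg]; group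
  rw [h1]
  have hau : a ^ u ∈ zpowers a := ⟨u, by simp⟩
  exact (zpowers a).mul_mem ((zpowers a).mul_mem ((zpowers a).inv_mem hau) (hpow v n hn)) hau

section Three

variable {P : Type} [Group P] [Finite P]

omit [Finite P] in
/-- the data of file `Two50a` -/
theorem data_of {a b : P} {r : ℕ} (hab : a * b = b * a ^ r) (hr : r % 4 = 3)
    (hgen : ∀ x : P, ∃ v u : ℕ, x = b ^ v * a ^ u) (hN : (zpowers a).Normal)
    (h4 : 4 ∣ orderOf a) : MC50.Data a b r := by
  refine ⟨hN, ?_, by rw [mul_assoc, hab, inv_mul_cancel_left], hr, h4⟩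
  rw [eq_top_iff]
  intro x _
  obtain ⟨v, u, rfl⟩ := hgen x
  exact (closure {a, b}).mul_mem ((closure {a, b}).pow_mem (subset_closure (by simp)) v)
    ((closure {a, b}).pow_mem (subset_closure (by simp)) u)

omit [Finite P] in
theorem norm4 {a : P} (hN : (zpowers a).Normal) : (zpowers (a ^ 4)).Normal := by
  constructor
  intro n hn g
  obtain ⟨k, rfl⟩ := hn
  obtain ⟨s, hs⟩ := hN.conj_mem a (mem_zpowers a) g
  refine ⟨s * k, ?_⟩
  have h1 : g * (a ^ 4) ^ k * g⁻¹ = (g * a * g⁻¹) ^ (4 * k : ℤ) := by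
    have := map_zpow (MulAut.conj g) a (4 * k)
    simp only [MulAut.conj_apply] at this
    rw [← this, zpow_mul]; norm_cast
  change (a ^ 4) ^ (s * k) = _
  rw [h1, ← hs]
  change (a ^ 4) ^ (s * k) = (a ^ s) ^ (4 * k)
  rw [← zpow_natCast, ← zpow_mul, ← zpow_mul]
  congr 1
  push_cast; ring

/-- `r = 3` modulo `4`: not (`|P| = exp(P)²` and `P' ≤ P⁴`) -/
theorem not_cond (hP : IsPGroup 2 P) {a b : P} {r : ℕ} (hab : a * b = b * a ^ r) (hr : r % 4 = 3)
    (hgen : ∀ x : P, ∃ v u : ℕ, x = b ^ v * a ^ u) (hN : (zpowers a).Normal)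
    (h4 : 4 ∣ orderOf a) :
    ¬ (Nat.card P = Monoid.exponent P ^ 2 ∧
      commutator P ≤ closure {x | ∃ y : P, x = y ^ 4}) := by
  rintro ⟨hcard, hcomm⟩
  have D := data_of hab hr hgen hN h4
  have : Fact (Nat.Prime 2) := ⟨Nat.prime_two⟩
  have hn4 := norm4 hN
  -- fourth powers
  have hle : closure {x | ∃ y : P, x = y ^ 4} ≤ zpowers (b ^ 4) ⊔ zpowers (a ^ 4) := by
    rw [closure_le]
    rintro x ⟨y, rfl⟩
    obtain ⟨j, i, rfl⟩ := MC50.rep D y
    have hin : ∀ (j : ℕ) (c : ℤ), b ^ (4 * j) * a ^ (4 * c) ∈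
        (zpowers (b ^ 4) ⊔ zpowers (a ^ 4) : Subgroup P) := by
      intro j c
      refine mul_mem (le_sup_left (a := zpowers (b ^ 4)) ⟨j, by simp [pow_mul]⟩)
        (le_sup_right (a := zpowers (b ^ 4)) ⟨c, ?_⟩)
      change (a ^ 4) ^ c = _
      rw [zpow_mul]; norm_cast
    rcases Nat.even_or_odd j with hj | hj
    · obtain ⟨o, -, ho⟩ := MC50.pow_even D 2 hj i
      have e1 : (b ^ j * a ^ i) ^ 4 = b ^ (4 * j) * a ^ (4 * (i * o)) := by
        have : (2 : ℕ) ^ 2 = 4 := by norm_num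
        rw [this] at ho
        rw [ho]
        congr 2
        ring
      rw [e1]
      exact hin j _
    · obtain ⟨c, hc⟩ := MC50.pow_odd D 1 hj i
      have e1 : (b ^ j * a ^ i) ^ 4 = b ^ (4 * j) * a ^ (4 * (2 * c)) := by
        have : (2 : ℕ) ^ (1 + 1) = 4 := by norm_num
        rw [this] at hc
        rw [hc]
        congr 2
        ring
      rw [e1]
      exact hin j _
  -- the commutator `a ^ (r - 1)`
  obtain ⟨s, hs⟩ : ∃ s : ℤ, (r : ℤ) = 4 * s + 3 := ⟨(r / 4 : ℕ), by push_cast; omega⟩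
  have hmem : a ^ (4 * s + 2) ∈ (zpowers (b ^ 4) ⊔ zpowers (a ^ 4) : Subgroup P) := by
    apply hle
    apply hcomm
    have h1 : ⁅a⁻¹, b⁻¹⁆ ∈ commutator P :=
      commutator_mem_commutator (mem_top _) (mem_top _)
    have h2 : ⁅a⁻¹, b⁻¹⁆ = a ^ (4 * s + 2) := by
      rw [commutatorElement_def, inv_inv, inv_inv]
      have h3 : b⁻¹ * a * b = a ^ ((r : ℤ)) := by rw [zpow_natCast]; exact D.rel
      have h4 : a⁻¹ * b⁻¹ * a * b = a⁻¹ * (b⁻¹ * a * b) := by group
      rw [h4, h3, ← zpow_neg_one, ← zpow_add, hs]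
      congr 1
      ring
    rwa [h2] at h1
  rw [← SetLike.mem_coe, mul_normal] at hmem
  obtain ⟨x, hx, y, hy, hxy⟩ := hmem
  obtain ⟨j, rfl⟩ := mem_powers_iff_mem_zpowers.2 hx
  obtain ⟨c, rfl⟩ := hy
  have hb4 : b ^ (4 * j) = a ^ (4 * (s - c) + 2) := by
    have e1 : (b ^ 4) ^ j * (a ^ 4) ^ c = a ^ (4 * s + 2) := hxy
    have e2 : (a ^ 4) ^ c = a ^ (4 * c) := by rw [zpow_mul]; norm_cast
    rw [e2, ← pow_mul] at e1
    rw [eq_mul_inv_of_mul_eq e1, ← zpow_neg, ← zpow_add]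
    congr 1
    ring
  set E := 4 * (s - c) + 2 with hE
  -- `|a| = 4`
  have hcb : a ^ (E * r) = a ^ E := by
    rw [← MC50.conj_zpow D, ← hb4, mul_assoc, ← pow_succ, pow_succ', inv_mul_cancel_left]
  have hone : a ^ (E * r - E) = 1 := by rw [zpow_sub, hcb]; group
  have hE1 : a ^ E ≠ 1 := by
    intro h
    have := MC50.ord_dvd D h
    omega
  have ho4 : orderOf a = 4 := by
    obtain ⟨e, he⟩ := IsPGroup.iff_orderOf.1 hP a
    have h2 : 2 ≤ e := by
      by_contra hlt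
      rw [he] at h4
      have := Nat.le_of_dvd (by positivity) h4
      have h3 : 2 ^ e ≤ 2 ^ 1 := Nat.pow_le_pow_right (by norm_num) (by omega)
      omega
    have h3 : ¬ 3 ≤ e := by
      intro h3
      have h5 : (8 : ℤ) ∣ E * r - E := by
        have h6 : ((8 : ℕ) : ℤ) ∣ ((orderOf a : ℕ) : ℤ) := by
          rw [he]
          exact_mod_cast (pow_dvd_pow 2 h3 : 2 ^ 3 ∣ 2 ^ e)
        exact h6.trans (orderOf_dvd_iff_zpow_eq_one.2 hone)
      rw [hs, hE] at h5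
      have h7 : (4 * (s - c) + 2) * (4 * s + 3) - (4 * (s - c) + 2) =
        8 * (2 * (s - c) * s + (s - c) + s) + 4 := by ring
      omega
    have : e = 2 := by omega
    rw [he, this]; norm_num
  -- the order of `b`
  have hb1 : b ^ (zpowers a).index ≠ 1 := by
    intro h
    have h5 : (b : P ⧸ zpowers a) ^ (4 * j) = 1 := by
      rw [← QuotientGroup.mk_pow, hb4, QuotientGroup.eq_one_iff]
      exact ⟨_, rfl⟩
    have h6 := orderOf_dvd_of_pow_eq_one h5
    rw [MC50.ord_mk_b D] at h6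
    obtain ⟨m, hm⟩ := h6
    apply hE1
    rw [← hb4, hm, pow_mul, h, one_pow]
  obtain ⟨ν, hν⟩ := MC50.index_pow hP D
  obtain ⟨β, hβ⟩ := IsPGroup.iff_orderOf.1 hP b
  have hlt : ν + 1 < β := by
    by_contra hle
    apply hb1
    rw [← orderOf_dvd_iff_pow_eq_one, hβ, hν]
    exact pow_dvd_pow 2 (by omega)
  have hexp : 2 * (zpowers a).index ≤ Monoid.exponent P := by
    apply Nat.le_of_dvd (Nat.pos_of_ne_zero Monoid.exponent_ne_zero_of_finite)
    refine Dvd.dvd.trans ?_ (Monoid.order_dvd_exponent b)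
    rw [hν, hβ, ← pow_succ']
    exact pow_dvd_pow 2 (by omega)
  have hcP := MC50.card_P a
  rw [ho4, hcard] at hcP
  have h2 : 2 ≤ (zpowers a).index := by
    rw [hν, pow_succ]
    have := Nat.one_le_two_pow (n := ν)
    omega
  nlinarith

end Three

/-- the order of `a` and `b` when `|P| = exp(P)²` -/
theorem orders {P : Type} [Group P] [Finite P] {a b : P} {r m : ℕ} (hab : a * b = b * a ^ r)
    (hgen : ∀ x : P, ∃ v u : ℕ, x = b ^ v * a ^ u)
    (hexp : Monoid.exponent P = m) (hcard : Nat.card P = m * m) :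
    orderOf a = m ∧ orderOf b = m := by
  have hN := norm_of hab hgen
  have hm : 0 < m := by rw [← hexp]; exact Nat.pos_of_ne_zero Monoid.exponent_ne_zero_of_finite
  have ha : orderOf a ≤ m := Nat.le_of_dvd hm (hexp ▸ Monoid.order_dvd_exponent a)
  have hb : orderOf b ≤ m := Nat.le_of_dvd hm (hexp ▸ Monoid.order_dvd_exponent b)
  have hq : orderOf (b : P ⧸ zpowers a) = (zpowers a).index := by
    have h0 : Nat.card (P ⧸ zpowers a) = (zpowers a).index := rfl
    rw [← h0]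
    apply orderOf_eq_card_of_forall_mem_zpowers
    intro q
    obtain ⟨x, rfl⟩ := QuotientGroup.mk_surjective q
    obtain ⟨v, u, rfl⟩ := hgen x
    refine ⟨v, ?_⟩
    have h1 : ((a ^ u : P) : P ⧸ zpowers a) = 1 := by
      rw [QuotientGroup.eq_one_iff]; exact ⟨u, by simp⟩
    rw [QuotientGroup.mk_mul, h1, mul_one, QuotientGroup.mk_pow]
    exact zpow_natCast _ v
  have hi : (zpowers a).index ≤ orderOf b := by
    rw [← hq]
    exact Nat.le_of_dvd (orderOf_pos b) (orderOf_map_dvd (QuotientGroup.mk' (zpowers a)) b)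
  have hc : orderOf a * (zpowers a).index = m * m := by
    rw [← hcard, ← Nat.card_zpowers]; exact card_mul_index _
  have h1 : orderOf a = m := by
    by_contra hne
    have : orderOf a * (zpowers a).index < m * m :=
      Nat.mul_lt_mul_of_lt_of_le (by omega) (by omega) (by omega)
    omega
  have h2 : (zpowers a).index = m := by
    rw [h1] at hc
    exact Nat.eq_of_mul_eq_mul_left hm hc
  exact ⟨h1, by omega⟩

/-- the generators and the two cases -/
theorem choice {p : ℕ} [hp : Fact p.Prime] {P : Type} [Group P] [Finite P] (hP : IsPGroup p P)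
    (hna : ∃ x y : P, x * y ≠ y * x)
    (hM : ∃ A : Subgroup P, ∃ _ : A.Normal, IsCyclic A ∧ IsCyclic (P ⧸ A)) :
    ∃ (a b : P) (r : ℕ), a * b = b * a ^ r ∧ (∀ x : P, ∃ v u : ℕ, x = b ^ v * a ^ u) ∧
      (Pair p a b r ∨ (p = 2 ∧ r % 4 = 3 ∧ 4 ∣ orderOf a)) := by
  obtain ⟨a, b, r, h1, h2, -, h3⟩ := gens hP hna hM
  exact ⟨a, b, r, h1, h2, h3⟩

/-- the second case: not (`|P| = exp(P)²` and `P' ≤ P⁴`) -/
theorem choice_neg {P : Type} [Group P] [Finite P] (hP : IsPGroup 2 P)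
    (_hna : ∃ x y : P, x * y ≠ y * x) {a b : P} {r : ℕ} (hab : a * b = b * a ^ r)
    (hr : r % 4 = 3) (hgen : ∀ x : P, ∃ v u : ℕ, x = b ^ v * a ^ u) (h4 : 4 ∣ orderOf a) :
    ¬ (Nat.card P = Monoid.exponent P ^ 2 ∧
      commutator P ≤ Subgroup.closure {x | ∃ y : P, x = y ^ 4}) :=
  not_cond hP hab hr hgen (norm_of hab hgen) h4

end Pool.Agent.MC
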