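import Pool.Agent.MC.Base

/-!
# Metacyclic `p`-groups (problem MP_47f3f4_co): commutators are fourth powers if `r = 1` mod `4`
-/

set_option autoImplicit false

namespace Pool.Agent.MC

open scoped commutatorElement

theorem comm_le_of_pair {P : Type} [Group P] [Finite P] {a b : P} {r : ℕ} (h : Pair 2 a b r)
    (hgen : ∀ x : P, ∃ v u : ℕ, x = b ^ v * a ^ u) :
    commutator P ≤ Subgroup.closure {x | ∃ y : P, x = y ^ 4} := by
  rw [commutator_eq_closure, Subgroup.closure_le]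
  rintro g ⟨x, y, rfl⟩
  apply Subgroup.subset_closure
  obtain ⟨v, u, rfl⟩ := hgen x
  obtain ⟨v', u', rfl⟩ := hgen y
  have hr : r ≡ 1 [MOD 4] := h.r4 rfl
  have e1 := mul_form h.conj v u v' u'
  have e2 := mul_form h.conj v' u' v u
  have m1 : (u * r ^ v' + u') ≡ (u' * r ^ v + u) [MOD 4] := by
    have a1 : u * r ^ v' ≡ u * 1 [MOD 4] := Nat.ModEq.mul_left _ (by simpa using hr.pow v')
    have a2 : u' * r ^ v ≡ u' * 1 [MOD 4] := Nat.ModEq.mul_left _ (by simpa using hr.pow v)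
    have a3 := a1.add_right u'
    have a4 := a2.add_right u
    simp only [mul_one] at a3 a4
    rw [add_comm u' u] at a4
    exact a3.trans a4.symm
  obtain ⟨k, hk⟩ : ∃ k : ℤ, ((u * r ^ v' + u' : ℕ) : ℤ) = ((u' * r ^ v + u : ℕ) : ℤ) + 4 * k := by
    have := (Nat.modEq_iff_dvd.mp m1.symm)
    obtain ⟨k, hk⟩ := this
    refine ⟨k, ?_⟩
    push_cast at hk ⊢
    linarith
  set X := b ^ v * a ^ u with hX
  set Y := b ^ v' * a ^ u' with hY
  have e3 : X * Y = (Y * X) * (a ^ k) ^ 4 := by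
    rw [e1, e2, ← zpow_natCast a, hk, zpow_add, zpow_natCast, mul_assoc, add_comm v' v]
    congr 1
    congr 1
    rw [mul_comm, zpow_mul]
    exact_mod_cast rfl
  refine ⟨(Y * X) * a ^ k * (Y * X)⁻¹, ?_⟩
  rw [conj_pow, ← e3, commutatorElement_def]
  group

end Pool.Agent.MC
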