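import Pool.Agent.Helper19.PCPBound

/-!
# Metacyclic `p`-groups (problem MP_47f3f4_co): definitions

`V p` is the plane `F_p ^ 2`, `dt` the determinant, `Pair` the relations of a powerful metacyclic
group, `Frame` the linear data of such a group that the bounds for `T(P × P)` use.
-/

set_option autoImplicit false

namespace Pool.Agent.MC

/-- the plane over `F_p` -/
abbrev V (p : ℕ) : Type := ZMod p × ZMod p

/-- the determinant -/
def dt {p : ℕ} (x y : V p) : ZMod p := x.1 * y.2 - x.2 * y.1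

/-- the linear form with the coefficients `κ` -/
def kp {p : ℕ} (κ : V p) (x : V p) : ZMod p := κ.1 * x.1 + κ.2 * x.2

/-- `a b = b a ^ r` with `r = 1` modulo `p`, and modulo `4` if `p = 2` -/
structure Pair {P : Type} [Group P] (p : ℕ) (a b : P) (r : ℕ) : Prop where
  conj : a * b = b * a ^ r
  r1 : r ≡ 1 [MOD p]
  r4 : p = 2 → r ≡ 1 [MOD 4]

/-- The linear data of `P` used for the bounds. `H` is the last subgroup `P_i = {x ^ (p ^ i)}` which
is not cyclic (`i = e`), the kernel of `lam` on `H` is the cyclic subgroup `P_(e + 1)`, of order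
`p ^ k`. -/
structure Frame (p : ℕ) (P : Type) [Group P] where
  pi : P → V p
  pi_mul : ∀ x y, pi (x * y) = pi x + pi y
  pi_surj : Function.Surjective pi
  H : Subgroup P
  lam : P → V p
  lam_mul : ∀ x ∈ H, ∀ y ∈ H, lam (x * y) = lam x + lam y
  e : ℕ
  k : ℕ
  card_H : Nat.card H = p ^ (k + 2)
  pow_mem : ∀ x, x ^ p ^ e ∈ H
  lam_pow : ∀ x, lam (x ^ p ^ e) = pi x
  z : P
  z_mem : z ∈ H
  z_ne : z ≠ 1
  z_pow : z ^ p = 1
  f : ℕ
  comm : ∀ x y, ((y * x)⁻¹ * (x * y)) ^ f = z ^ (dt (pi x) (pi y)).val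
  w : P
  κ : V p
  κ_ne : 0 < k → κ ≠ 0
  w_ne : 0 < k → w ≠ 1
  w_pow : 0 < k → w ^ p = 1
  pow_w : 0 < k → ∀ x, x ^ p ^ (e + k) = w ^ (kp κ (pi x)).val
  z_w : 0 < k → lam z = 0 → ∃ j : ℕ, w = z ^ j

end Pool.Agent.MC
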