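import Pool.Agent.MC.Base

/-!
# The frame of a powerful metacyclic `p`-group
-/

set_option autoImplicit false

namespace Pool.Agent.MC

theorem cast_mul_of_modEq {p u m : ℕ} (h : m ≡ 1 [MOD p]) : ((u * m : ℕ) : ZMod p) = u := by
  rw [Nat.cast_mul, (ZMod.natCast_eq_natCast_iff _ _ _).2 h]; simp

section Zpow

variable {P : Type} [Group P] {p : ℕ}

theorem zpow_eq_val {z : P} (hz : z ^ p = 1) [NeZero p] (n : ℤ) (t : ZMod p) (h : (n : ZMod p) = t) :
    z ^ n = z ^ t.val := by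
  have h1 : ((n - t.val : ℤ) : ZMod p) = 0 := by
    push_cast
    rw [ZMod.natCast_zmod_val, h, sub_self]
  obtain ⟨q, hq⟩ := (ZMod.intCast_zmod_eq_zero_iff_dvd _ _).1 h1
  have h2 : n = (t.val : ℤ) + p * q := by linarith
  rw [h2, zpow_add, zpow_mul, zpow_natCast, zpow_natCast, hz, one_zpow, mul_one]

theorem pow_eq_val {z : P} (hz : z ^ p = 1) [NeZero p] (n : ℕ) (t : ZMod p) (h : (n : ZMod p) = t) :
    z ^ n = z ^ t.val := by
  rw [← zpow_natCast z n]
  exact zpow_eq_val hz _ t (by simpa using h)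

end Zpow

section

variable {P : Type} [Group P] [Finite P] {p : ℕ} [hp : Fact p.Prime]


theorem lamF_mul (hP : IsPGroup p P) {a b : P} {r : ℕ} (h : Pair p a b r)
    (hA : a ∉ Subgroup.zpowers b) (hB : b ∉ Subgroup.zpowers a) {x y : P}
    (hx : x ∈ MS h.conj) (hy : y ∈ MS h.conj) :
    lamF p a b (x * y) = lamF p a b x + lamF p a b y := by
  obtain ⟨v, u, rfl⟩ := hx
  obtain ⟨v', u', rfl⟩ := hy
  rw [mul_form h.conj, lamF_form hP hA hB, lamF_form hP hA hB, lamF_form hP hA hB]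
  have h1 : ((u * r ^ v' + u' : ℕ) : ZMod p) = u + u' := by
    rw [Nat.cast_add, cast_mul_of_modEq (by simpa using h.r1.pow v')]
  refine Prod.ext ?_ ?_
  · show ((v + v' : ℕ) : ZMod p) = v + v'
    push_cast; rfl
  · exact h1

/-- the condition `P_i` not cyclic -/
def NC (p : ℕ) (a b : P) (i : ℕ) : Prop :=
  a ^ p ^ i ∉ Subgroup.zpowers (b ^ p ^ i) ∧ b ^ p ^ i ∉ Subgroup.zpowers (a ^ p ^ i)

omit hp [Finite P] in
theorem pow_succ_pow (a : P) (i u : ℕ) : (a ^ p ^ i) ^ (p * u) = (a ^ p ^ (i + 1)) ^ u := by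
  rw [← pow_mul, ← pow_mul, pow_succ]
  congr 1
  ring

theorem lamF_eq_zero (hP : IsPGroup p P) {a b : P} {r : ℕ} (h : Pair p a b r) {i : ℕ}
    (hi : NC p a b i) (x : P) (hx : x ∈ MS (h.swap_pow i).conj) :
    lamF p (a ^ p ^ i) (b ^ p ^ i) x = 0 ↔ x ∈ MS (h.swap_pow (i + 1)).conj := by
  constructor
  · obtain ⟨v, u, rfl⟩ := hx
    rw [lamF_form hP hi.1 hi.2]
    intro h0
    have h1 : (v : ZMod p) = 0 := congrArg Prod.fst h0
    have h2 : (u : ZMod p) = 0 := congrArg Prod.snd h0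
    rw [ZMod.natCast_eq_zero_iff] at h1 h2
    obtain ⟨v', rfl⟩ := h1
    obtain ⟨u', rfl⟩ := h2
    exact ⟨v', u', by rw [pow_succ_pow, pow_succ_pow]⟩
  · rintro ⟨v, u, rfl⟩
    rw [← pow_succ_pow, ← pow_succ_pow, lamF_form hP hi.1 hi.2]
    simp

omit hp in
theorem MS_succ_le {a b : P} {r : ℕ} (h : Pair p a b r) (i : ℕ) :
    MS (h.swap_pow (i + 1)).conj ≤ MS (h.swap_pow i).conj := by
  rintro x ⟨v, u, rfl⟩
  exact ⟨p * v, p * u, by rw [pow_succ_pow, pow_succ_pow]⟩

theorem card_step (hP : IsPGroup p P) {a b : P} {r : ℕ} (h : Pair p a b r) {i : ℕ}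
    (hi : NC p a b i) :
    Nat.card (MS (h.swap_pow i).conj) = p ^ 2 * Nat.card (MS (h.swap_pow (i + 1)).conj) := by
  let M := MS (h.swap_pow i).conj
  let φ : M →* Multiplicative (V p) :=
    { toFun := fun x => Multiplicative.ofAdd (lamF p (a ^ p ^ i) (b ^ p ^ i) x.1)
      map_one' := by
        have := (lamF_eq_zero hP h hi 1 (one_mem _)).2 (one_mem _)
        show Multiplicative.ofAdd (lamF p (a ^ p ^ i) (b ^ p ^ i) 1) = 1
        rw [this]; rfl
      map_mul' := fun x y => by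
        show Multiplicative.ofAdd (lamF p (a ^ p ^ i) (b ^ p ^ i) (x.1 * y.1)) = _
        rw [lamF_mul hP (h.swap_pow i) hi.1 hi.2 x.2 y.2, ofAdd_add] }
  have hsurj : Function.Surjective φ := by
    intro t
    obtain ⟨t1, t2⟩ := t
    refine ⟨⟨(b ^ p ^ i) ^ t1.val * (a ^ p ^ i) ^ t2.val, ⟨_, _, rfl⟩⟩, ?_⟩
    show Multiplicative.ofAdd (lamF p (a ^ p ^ i) (b ^ p ^ i) _) = _
    rw [lamF_form hP hi.1 hi.2, ZMod.natCast_zmod_val, ZMod.natCast_zmod_val]
    rfl
  have hker : φ.ker = (MS (h.swap_pow (i + 1)).conj).subgroupOf M := by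
    ext x
    rw [MonoidHom.mem_ker, Subgroup.mem_subgroupOf, ← lamF_eq_zero hP h hi x.1 x.2]
    exact ⟨fun h => h, fun h => h⟩
  have h1 := Subgroup.card_mul_index φ.ker
  rw [Subgroup.index_ker, MonoidHom.range_eq_top.2 hsurj, Subgroup.card_top, hker,
    Nat.card_congr (Subgroup.subgroupOfEquivOfLe (MS_succ_le h i)).toEquiv] at h1
  have h2 : Nat.card (Multiplicative (V p)) = p ^ 2 := by
    rw [Nat.card_congr Multiplicative.toAdd, Nat.card_prod, Nat.card_zmod, sq]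
  rw [h2] at h1
  show Nat.card M = _
  rw [← h1, mul_comm]

omit [Finite P] hp in
theorem NC_zero {a b : P} (hna : ∃ x y : P, x * y ≠ y * x)
    (hgen : ∀ x : P, ∃ v u : ℕ, x = b ^ v * a ^ u) : NC p a b 0 := by
  have key : ¬ Commute a b := by
    intro hc
    obtain ⟨x, y, hxy⟩ := hna
    apply hxy
    obtain ⟨v, u, rfl⟩ := hgen x
    obtain ⟨v', u', rfl⟩ := hgen y
    have h1 : Commute (b ^ v * a ^ u) (b ^ v' * a ^ u') :=
      (((Commute.refl b).pow_pow v v').mul_left (hc.pow_pow u v')).mul_right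
        ((hc.symm.pow_pow v u').mul_left ((Commute.refl a).pow_pow u u'))
    exact h1
  unfold NC
  simp only [pow_zero, pow_one]
  constructor
  · rintro ⟨n, hn⟩
    apply key
    have hn' : b ^ n = a := hn
    rw [← hn']
    exact (Commute.refl b).zpow_left n
  · rintro ⟨n, hn⟩
    apply key
    have hn' : a ^ n = b := hn
    rw [← hn']
    exact (Commute.refl a).zpow_right n

/-- in a finite group an element of `zpowers` is a natural power -/
theorem exists_pow_of_mem_zpowers {g x : P} (h : x ∈ Subgroup.zpowers g) : ∃ n : ℕ, x = g ^ n := by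
  rw [← mem_powers_iff_mem_zpowers] at h
  obtain ⟨n, hn⟩ := h
  exact ⟨n, hn.symm⟩

/-- the cyclic subgroup `P_(e + 1)` -/
theorem cyclic_data {a b : P} (i : ℕ) (hi : ¬ NC p a b i) :
    ∃ g : P, ∃ α β : ℕ, a ^ p ^ i = g ^ α ∧ b ^ p ^ i = g ^ β ∧
      (g = a ^ p ^ i ∨ g = b ^ p ^ i) ∧ ((β : ZMod p), (α : ZMod p)) ≠ (0 : V p) := by
  by_cases h1 : a ^ p ^ i ∈ Subgroup.zpowers (b ^ p ^ i)
  · obtain ⟨n, hn⟩ := exists_pow_of_mem_zpowers h1
    refine ⟨b ^ p ^ i, n, 1, hn, (pow_one _).symm, Or.inr rfl, ?_⟩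
    intro h0
    have : ((1 : ℕ) : ZMod p) = 0 := congrArg Prod.fst h0
    simp at this
  · have h2 : b ^ p ^ i ∈ Subgroup.zpowers (a ^ p ^ i) := by
      by_contra h2
      exact hi ⟨h1, h2⟩
    obtain ⟨n, hn⟩ := exists_pow_of_mem_zpowers h2
    refine ⟨a ^ p ^ i, 1, n, (pow_one _).symm, hn, Or.inl rfl, ?_⟩
    intro h0
    have : ((1 : ℕ) : ZMod p) = 0 := congrArg Prod.snd h0
    simp at this

omit [Finite P] in
/-- a power of `a` of order dividing `p` is a power of `a ^ (p ^ i)`, if the latter is not `1` -/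
theorem mem_of_pow_eq_one (hP : IsPGroup p P) {a : P} {i : ℕ} (ha : a ^ p ^ i ≠ 1) {n : ℕ}
    (hn : (a ^ n) ^ p = 1) : ∃ j, a ^ n = (a ^ p ^ i) ^ j := by
  obtain ⟨m, hm⟩ := (IsPGroup.iff_orderOf.1 hP) a
  have him : i < m := by
    by_contra hlt
    apply ha
    rw [← orderOf_dvd_iff_pow_eq_one, hm]
    exact pow_dvd_pow p (not_lt.1 hlt)
  rw [← pow_mul] at hn
  have h1 := orderOf_dvd_of_pow_eq_one hn
  rw [hm] at h1
  obtain ⟨m', rfl⟩ : ∃ m', m = m' + 1 := ⟨m - 1, by omega⟩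
  rw [pow_succ] at h1
  have h2 : p ^ m' ∣ n := Nat.dvd_of_mul_dvd_mul_right hp.out.pos h1
  obtain ⟨j, hj⟩ := (pow_dvd_pow p (by omega : i ≤ m')).trans h2
  exact ⟨j, by rw [hj, pow_mul]⟩

omit [Finite P] hp in
theorem comm_form {a b : P} {r : ℕ} (hc : a * b = b * a ^ r) (hr : 1 ≤ r) (v u v' u' : ℕ) :
    ((b ^ v' * a ^ u') * (b ^ v * a ^ u))⁻¹ * ((b ^ v * a ^ u) * (b ^ v' * a ^ u')) =
      (a ^ (r - 1)) ^ ((u : ℤ) * (∑ j ∈ Finset.range v', r ^ j : ℕ) -
        u' * (∑ j ∈ Finset.range v, r ^ j : ℕ)) := by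
  rw [mul_form hc, mul_form hc, add_comm v' v]
  have h1 : (b ^ (v + v') * a ^ (u' * r ^ v + u))⁻¹ * (b ^ (v + v') * a ^ (u * r ^ v' + u')) =
      a ^ (((u * r ^ v' + u' : ℕ) : ℤ) - (u' * r ^ v + u : ℕ)) := by
    rw [zpow_sub, zpow_natCast, zpow_natCast]
    rw [((Commute.refl a).pow_pow (u * r ^ v' + u') (u' * r ^ v + u)).inv_right.eq]
    group
  have h2 : a ^ (r - 1) = a ^ ((r : ℤ) - 1) := by
    rw [← zpow_natCast]; congr 1; omega
  rw [h1, h2, ← zpow_mul]
  congr 1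
  have g1 := geom_sum_mul (r : ℤ) v
  have g2 := geom_sum_mul (r : ℤ) v'
  push_cast
  linear_combination (u' : ℤ) * g1 - (u : ℤ) * g2

theorem exists_frame (hP : IsPGroup p P)
    (hna : ∃ x y : P, x * y ≠ y * x) {a b : P} {r : ℕ} (h : Pair p a b r)
    (hgen : ∀ x : P, ∃ v u : ℕ, x = b ^ v * a ^ u) :
    ∃ F : Frame p P, Nat.card P = p ^ (2 * (F.e + 1) + F.k) ∧
      Monoid.exponent P = p ^ (F.e + 1 + F.k) := by
  classical
  have hp1 : 1 < p := hp.out.one_lt
  have hNC0 : NC p a b 0 := NC_zero hna hgen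
  have hex : ∃ i, ¬ NC p a b i := by
    obtain ⟨s, hs⟩ := (IsPGroup.iff_orderOf.1 hP) a
    refine ⟨s, fun hn => hn.1 ?_⟩
    rw [← hs, pow_orderOf_eq_one]
    exact one_mem _
  obtain ⟨e, he⟩ : ∃ e, Nat.find hex = e + 1 := by
    refine ⟨Nat.find hex - 1, ?_⟩
    have : Nat.find hex ≠ 0 := fun h0 => (Nat.find_eq_zero hex).1 h0 hNC0
    omega
  have hlt : ∀ i, i ≤ e → NC p a b i := fun i hi => by
    have := Nat.find_min hex (m := i) (by omega)
    exact not_not.1 this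
  have hnot : ¬ NC p a b (e + 1) := he ▸ Nat.find_spec hex
  have hNCe : NC p a b e := hlt e le_rfl
  have hae : a ^ p ^ e ≠ 1 := fun h0 => hNCe.1 (h0 ▸ one_mem _)
  have hbe : b ^ p ^ e ≠ 1 := fun h0 => hNCe.2 (h0 ▸ one_mem _)
  -- cardinalities
  have hcard : ∀ i, i ≤ e + 1 → Nat.card P = p ^ (2 * i) * Nat.card (MS (h.swap_pow i).conj) := by
    intro i
    induction i with
    | zero =>
      intro _
      have : MS (h.swap_pow 0).conj = ⊤ := by
        rw [eq_top_iff]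
        intro x _
        obtain ⟨v, u, rfl⟩ := hgen x
        exact ⟨v, u, by simp⟩
      rw [this, Subgroup.card_top]; simp
    | succ i ih =>
      intro hi
      rw [ih (by omega), card_step hP h (hlt i (by omega)), ← mul_assoc, ← pow_add]
      congr 2
  obtain ⟨g, α, β, hα, hβ, hg, hκ⟩ := cyclic_data (p := p) (e + 1) hnot
  have hMSg : ∀ x, x ∈ MS (h.swap_pow (e + 1)).conj ↔ x ∈ Subgroup.zpowers g := by
    intro x
    constructor
    · rintro ⟨v, u, rfl⟩
      rw [hα, hβ]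
      exact mul_mem (pow_mem (pow_mem (Subgroup.mem_zpowers g) _) _)
        (pow_mem (pow_mem (Subgroup.mem_zpowers g) _) _)
    · intro hx
      obtain ⟨n, rfl⟩ := exists_pow_of_mem_zpowers hx
      rcases hg with hg | hg
      · exact ⟨0, n, by rw [← hg]; simp⟩
      · exact ⟨n, 0, by rw [← hg]; simp⟩
  obtain ⟨k, hk⟩ := (IsPGroup.iff_orderOf.1 hP) g
  have hcN : Nat.card (MS (h.swap_pow (e + 1)).conj) = p ^ k := by
    have : MS (h.swap_pow (e + 1)).conj = Subgroup.zpowers g := Subgroup.ext hMSg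
    rw [this, Nat.card_zpowers, hk]
  have hcH : Nat.card (MS (h.swap_pow e).conj) = p ^ (k + 2) := by
    rw [card_step hP h hNCe, hcN, ← pow_add, add_comm]
  have hcP : Nat.card P = p ^ (2 * (e + 1) + k) := by
    rw [hcard (e + 1) le_rfl, hcN, ← pow_add]
  -- the power map
  have hpow : ∀ x : P, ∃ v u m : ℕ, x = b ^ v * a ^ u ∧ m ≡ 1 [MOD p] ∧
      x ^ p ^ e = (b ^ p ^ e) ^ v * (a ^ p ^ e) ^ (u * m) := by
    intro x
    obtain ⟨v, u, rfl⟩ := hgen x
    obtain ⟨m, hm, hm1⟩ := h.pow_prime_pow e v u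
    exact ⟨v, u, m, rfl, hm1, hm⟩
  have hpow1 : ∀ x : P, ∃ v u m : ℕ, x = b ^ v * a ^ u ∧ m ≡ 1 [MOD p] ∧
      x ^ p ^ (e + 1) = g ^ (β * v + α * (u * m)) := by
    intro x
    obtain ⟨v, u, rfl⟩ := hgen x
    obtain ⟨m, hm, hm1⟩ := h.pow_prime_pow (e + 1) v u
    refine ⟨v, u, m, rfl, hm1, ?_⟩
    rw [hm, hα, hβ, ← pow_mul, ← pow_mul, ← pow_add]
  -- the commutator
  have hr1 : 1 ≤ r := by
    rcases Nat.eq_zero_or_pos r with h0 | h0
    · have := h.r1
      rw [h0] at this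
      have := (Nat.modEq_iff_dvd' (Nat.zero_le 1)).1 this
      have := Nat.le_of_dvd (by norm_num) this
      omega
    · exact h0
  have hc1 : a ^ (r - 1) ≠ 1 := by
    intro h0
    have har : a ^ r = a := by
      have : a ^ r = a ^ (r - 1) * a := by rw [← pow_succ]; congr 1; omega
      rw [this, h0, one_mul]
    have hab : Commute a b := by
      have := h.conj
      rw [har] at this
      exact this
    have hz : a ∈ Subgroup.centralizer {b} := by
      rw [Subgroup.mem_centralizer_singleton_iff]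
      exact hab
    obtain ⟨x, y, hxy⟩ := hna
    apply hxy
    obtain ⟨v, u, rfl⟩ := hgen x
    obtain ⟨v', u', rfl⟩ := hgen y
    have h1 : Commute (b ^ v * a ^ u) (b ^ v' * a ^ u') :=
      (((Commute.refl b).pow_pow v v').mul_left (hab.pow_pow u v')).mul_right
        ((hab.symm.pow_pow v u').mul_left ((Commute.refl a).pow_pow u u'))
    exact h1
  obtain ⟨s, hs⟩ := (IsPGroup.iff_orderOf.1 hP) (a ^ (r - 1))
  have hs1 : s ≠ 0 := by
    rintro rfl
    rw [pow_zero, orderOf_eq_one_iff] at hs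
    exact hc1 hs
  obtain ⟨s', rfl⟩ : ∃ s', s = s' + 1 := ⟨s - 1, by omega⟩
  have hz0 : ((a ^ (r - 1)) ^ p ^ s') ^ p = 1 := by
    rw [← pow_mul, ← pow_succ, ← hs, pow_orderOf_eq_one]
  have hz1 : (a ^ (r - 1)) ^ p ^ s' ≠ 1 := by
    intro h0
    have := orderOf_dvd_of_pow_eq_one h0
    rw [hs, Nat.pow_dvd_pow_iff_le_right hp1] at this
    omega
  have hzp : (((a ^ (r - 1)) ^ p ^ s')⁻¹) ^ p = 1 := by rw [inv_pow, hz0, inv_one]
  have hzH : ((a ^ (r - 1)) ^ p ^ s')⁻¹ ∈ MS (h.swap_pow e).conj := by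
    apply inv_mem
    have hz0' : (a ^ ((r - 1) * p ^ s')) ^ p = 1 := by rw [pow_mul]; exact hz0
    rw [← pow_mul]
    obtain ⟨j, hj⟩ := mem_of_pow_eq_one hP hae hz0'
    exact ⟨0, j, by rw [hj]; simp⟩
  have hw : 0 < k → g ^ p ^ (k - 1) ≠ 1 ∧ (g ^ p ^ (k - 1)) ^ p = 1 := by
    intro hk0
    constructor
    · intro h0
      have := orderOf_dvd_of_pow_eq_one h0
      rw [hk, Nat.pow_dvd_pow_iff_le_right hp1] at this
      omega
    · rw [← pow_mul, ← pow_succ, Nat.sub_add_cancel hk0, ← hk, pow_orderOf_eq_one]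
  let F : Frame p P :=
    { pi := lamF p a b
      pi_mul := fun x y => by
        have h0 := lamF_mul hP (h.swap_pow 0) (a := a ^ p ^ 0) (b := b ^ p ^ 0)
          (hNC0.1) (hNC0.2) (x := x) (y := y)
        simp only [pow_zero, pow_one] at h0
        obtain ⟨v, u, hx⟩ := hgen x
        obtain ⟨v', u', hy⟩ := hgen y
        exact h0 ⟨v, u, by simpa using hx⟩ ⟨v', u', by simpa using hy⟩
      pi_surj := by
        rintro ⟨t1, t2⟩
        refine ⟨b ^ t1.val * a ^ t2.val, ?_⟩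
        have hA := hNC0.1
        have hB := hNC0.2
        simp only [pow_zero, pow_one] at hA hB
        rw [lamF_form hP hA hB, ZMod.natCast_zmod_val, ZMod.natCast_zmod_val]
      H := MS (h.swap_pow e).conj
      lam := lamF p (a ^ p ^ e) (b ^ p ^ e)
      lam_mul := fun x hx y hy => lamF_mul hP (h.swap_pow e) hNCe.1 hNCe.2 hx hy
      e := e
      k := k
      card_H := hcH
      pow_mem := fun x => by
        obtain ⟨v, u, m, -, -, hx⟩ := hpow x
        rw [hx]
        exact ⟨_, _, rfl⟩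
      lam_pow := fun x => by
        obtain ⟨v, u, m, hx, hm, hx2⟩ := hpow x
        have hA := hNC0.1
        have hB := hNC0.2
        simp only [pow_zero, pow_one] at hA hB
        rw [hx2, lamF_form hP hNCe.1 hNCe.2, hx, lamF_form hP hA hB, cast_mul_of_modEq hm]
      z := ((a ^ (r - 1)) ^ p ^ s')⁻¹
      z_mem := hzH
      z_ne := fun h0 => hz1 (inv_eq_one.1 h0)
      z_pow := hzp
      f := p ^ s'
      comm := fun x y => by
        obtain ⟨v, u, hx⟩ := hgen x
        obtain ⟨v', u', hy⟩ := hgen y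
        have hA := hNC0.1
        have hB := hNC0.2
        simp only [pow_zero, pow_one] at hA hB
        rw [hx, hy, comm_form h.conj hr1, lamF_form hP hA hB, lamF_form hP hA hB,
          ← zpow_natCast, zpow_comm, zpow_natCast, ← inv_inv ((a ^ (r - 1)) ^ p ^ s'), inv_zpow',
          inv_inv]
        apply zpow_eq_val hzp
        have e1 := (ZMod.natCast_eq_natCast_iff _ _ _).2 (sum_pow_modEq h.r1 v)
        have e2 := (ZMod.natCast_eq_natCast_iff _ _ _).2 (sum_pow_modEq h.r1 v')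
        push_cast at e1 e2 ⊢
        rw [e1, e2]
        unfold dt
        simp only
        ring
      w := g ^ p ^ (k - 1)
      κ := ((β : ZMod p), (α : ZMod p))
      κ_ne := fun _ => hκ
      w_ne := fun hk0 => (hw hk0).1
      w_pow := fun hk0 => (hw hk0).2
      pow_w := fun hk0 x => by
        obtain ⟨v, u, m, hx, hm, hx2⟩ := hpow1 x
        have hA := hNC0.1
        have hB := hNC0.2
        simp only [pow_zero, pow_one] at hA hB
        have hek : p ^ (e + k) = p ^ (e + 1) * p ^ (k - 1) := by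
          rw [← pow_add]; congr 1; omega
        rw [hek, pow_mul, hx2, ← pow_mul, mul_comm (β * v + α * (u * m)), pow_mul]
        apply pow_eq_val (hw hk0).2
        rw [hx, lamF_form hP hA hB]
        unfold kp
        simp only
        rw [Nat.cast_add, Nat.cast_mul, Nat.cast_mul, cast_mul_of_modEq hm]
      z_w := fun hk0 hl => by
        have hzN : ((a ^ (r - 1)) ^ p ^ s')⁻¹ ∈ MS (h.swap_pow (e + 1)).conj :=
          (lamF_eq_zero hP h hNCe _ hzH).1 hl
        obtain ⟨n, hn⟩ := exists_pow_of_mem_zpowers ((hMSg _).1 hzN)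
        have h1 : (g ^ n) ^ p = 1 := by rw [← hn]; exact hzp
        have hge : g ^ p ^ (k - 1) ≠ 1 := (hw hk0).1
        obtain ⟨j, hj⟩ := mem_of_pow_eq_one hP hge h1
        have hnd : ¬ (p : ℤ) ∣ (j : ℤ) := by
          intro hd
          obtain ⟨j', hj'⟩ := Int.natCast_dvd_natCast.1 hd
          apply hz1
          rw [← inv_eq_one, hn, hj, hj', pow_mul, (hw hk0).2, one_pow]
        have h2 := mem_zpowers_zpow hP (g ^ p ^ (k - 1)) hnd
        rw [zpow_natCast, ← hj, ← hn] at h2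
        exact exists_pow_of_mem_zpowers h2 }
  refine ⟨F, hcP, ?_⟩
  show Monoid.exponent P = p ^ (e + 1 + k)
  have hdvd : Monoid.exponent P ∣ p ^ (e + 1 + k) := by
    rw [Monoid.exponent_dvd_iff_forall_pow_eq_one]
    intro x
    obtain ⟨v, u, m, -, -, hx2⟩ := hpow1 x
    rw [pow_add, pow_mul, hx2, ← pow_mul, mul_comm _ (p ^ k), pow_mul, ← hk, pow_orderOf_eq_one,
      one_pow]
  obtain ⟨t, ht, hte⟩ := (Nat.dvd_prime_pow hp.out).1 hdvd
  rw [hte]
  congr 1
  by_contra hne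
  have hlt' : t ≤ e + k := by omega
  have hone : ∀ x : P, x ^ p ^ (e + k) = 1 := by
    intro x
    have h1 : x ^ p ^ t = 1 := by rw [← hte]; exact Monoid.pow_exponent_eq_one x
    obtain ⟨q, hq⟩ := pow_dvd_pow p hlt'
    rw [hq, pow_mul, h1, one_pow]
  rcases Nat.eq_zero_or_pos k with hk0 | hk0
  · apply hae
    have := hone a
    rwa [hk0, add_zero] at this
  · have hek : p ^ (e + k) = p ^ (e + 1) * p ^ (k - 1) := by
      rw [← pow_add]; congr 1; omega
    apply (hw hk0).1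
    rcases hg with hg | hg
    · have := hone a
      rwa [hek, pow_mul, ← hg] at this
    · have := hone b
      rwa [hek, pow_mul, ← hg] at this

end

end Pool.Agent.MC
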