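import Pool.Agent.MC.Choice50

/-!
# The lower bound `p + 3 ≤ T(P × P)`
-/

set_option autoImplicit false

namespace Pool.Agent.MC

open Subgroup
open Pool.Agent.Helper19.PCP

section Lower

variable {p : ℕ} [hp : Fact p.Prime] {P : Type} [Group P] [Finite P] {a b : P} {r : ℕ}

omit hp in
/-- `b ^ v ∈ ⟨a⟩` only if `|b|` divides `v`, when `|P| = |a| |b|` -/
theorem dvd_of_mem (hab : a * b = b * a ^ r) (hgen : ∀ x : P, ∃ v u : ℕ, x = b ^ v * a ^ u)
    {q : ℕ} (ha : orderOf a = q) (hb : orderOf b = q) (hcard : Nat.card P = q * q) {v : ℤ}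
    (hv : b ^ v ∈ zpowers a) : (q : ℤ) ∣ v := by
  classical
  -- the map `(v, u) ↦ b ^ v a ^ u` from `Fin q × Fin q` is bijective
  have hq : 0 < q := ha ▸ orderOf_pos a
  let f : Fin q × Fin q → P := fun x => b ^ (x.1 : ℕ) * a ^ (x.2 : ℕ)
  have hf : Function.Surjective f := by
    intro x
    obtain ⟨v, u, rfl⟩ := hgen x
    refine ⟨(⟨v % q, Nat.mod_lt _ hq⟩, ⟨u % q, Nat.mod_lt _ hq⟩), ?_⟩
    change b ^ (v % q) * a ^ (u % q) = _
    rw [← hb, pow_mod_orderOf, hb, ← ha, pow_mod_orderOf]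
  have hbij : Function.Bijective f := hf.bijective_of_nat_card_le (by
    rw [hcard, Nat.card_prod]; simp)
  obtain ⟨u, hu⟩ := hv
  have hu' : a ^ u = b ^ v := hu
  -- reduce both exponents modulo `q`
  obtain ⟨v', hv', hv1⟩ : ∃ v' : ℕ, v' < q ∧ b ^ v' = b ^ v := by
    refine ⟨(v % q).toNat, ?_, ?_⟩
    · have h1 := Int.emod_lt_of_pos v (by omega : (0 : ℤ) < q)
      have h2 := Int.emod_nonneg v (by omega : (q : ℤ) ≠ 0)
      omega
    · have h2 := Int.emod_nonneg v (by omega : (q : ℤ) ≠ 0)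
      rw [← zpow_natCast, Int.toNat_of_nonneg h2, ← hb, zpow_mod_orderOf]
  obtain ⟨u', hu', hu1⟩ : ∃ u' : ℕ, u' < q ∧ a ^ u' = a ^ u := by
    refine ⟨(u % q).toNat, ?_, ?_⟩
    · have h1 := Int.emod_lt_of_pos u (by omega : (0 : ℤ) < q)
      have h2 := Int.emod_nonneg u (by omega : (q : ℤ) ≠ 0)
      omega
    · have h2 := Int.emod_nonneg u (by omega : (q : ℤ) ≠ 0)
      rw [← zpow_natCast, Int.toNat_of_nonneg h2, ← ha, zpow_mod_orderOf]
  have h3 : f (⟨v', hv'⟩, ⟨0, hq⟩) = f (⟨0, hq⟩, ⟨u', hu'⟩) := by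
    simp only [f, pow_zero, mul_one, one_mul]
    rw [hv1, hu1]; exact hu.symm
  have h4 := hbij.1 h3
  have h5 : v' = 0 := congrArg (fun x => (x.1 : ℕ)) h4
  rw [h5, pow_zero] at hv1
  rw [← hb]
  exact orderOf_dvd_iff_zpow_eq_one.2 hv1.symm

omit hp in
/-- powers of `b a ^ i` in `⟨a⟩` -/
theorem dvd_of_mem' (hab : a * b = b * a ^ r) (hgen : ∀ x : P, ∃ v u : ℕ, x = b ^ v * a ^ u)
    (hN : (zpowers a).Normal) {q : ℕ} (ha : orderOf a = q) (hb : orderOf b = q)
    (hcard : Nat.card P = q * q) {i : ℕ} {v : ℤ} (hv : (b * a ^ i) ^ v ∈ zpowers a) :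
    (q : ℤ) ∣ v := by
  apply dvd_of_mem hab hgen ha hb hcard
  have h : ((a ^ i : P) : P ⧸ zpowers a) = 1 := by
    rw [QuotientGroup.eq_one_iff]; exact ⟨i, by simp⟩
  rw [← QuotientGroup.eq_one_iff] at hv ⊢
  rw [QuotientGroup.mk_zpow, QuotientGroup.mk_mul, h, mul_one] at hv
  rw [QuotientGroup.mk_zpow]
  exact hv

omit hp in
theorem mk_eq (hN : (zpowers a).Normal) (i j : ℕ) (v : ℤ) :
    (b * a ^ i) ^ v * ((b * a ^ j) ^ v)⁻¹ ∈ zpowers a := by
  have h : ∀ i : ℕ, ((a ^ i : P) : P ⧸ zpowers a) = 1 := by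
    intro i
    rw [QuotientGroup.eq_one_iff]; exact ⟨i, by simp⟩
  rw [← QuotientGroup.eq_one_iff, QuotientGroup.mk_mul, QuotientGroup.mk_inv,
    QuotientGroup.mk_zpow, QuotientGroup.mk_zpow, QuotientGroup.mk_mul, QuotientGroup.mk_mul,
    h i, h j, mul_one, mul_inv_cancel]

theorem pow_q (h : Pair p a b r) {e : ℕ} (ha : orderOf a = p ^ (e + 1))
    (hb : orderOf b = p ^ (e + 1)) (i : ℕ) : (b * a ^ i) ^ (p ^ (e + 1)) = 1 := by
  obtain ⟨m, hm, -⟩ := h.pow_prime_pow (e + 1) 1 i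
  have h1 : a ^ p ^ (e + 1) = 1 := by rw [← ha]; exact pow_orderOf_eq_one a
  have h2 : b ^ p ^ (e + 1) = 1 := by rw [← hb]; exact pow_orderOf_eq_one b
  rw [h1, h2, one_pow, one_pow, mul_one, pow_one] at hm
  exact hm

theorem pow_pe (h : Pair p a b r) {e : ℕ} (ha : orderOf a = p ^ (e + 1)) (i : ℕ) :
    (b * a ^ i) ^ (p ^ e) = b ^ p ^ e * (a ^ p ^ e) ^ i := by
  obtain ⟨m, hm, hm1⟩ := h.pow_prime_pow e 1 i
  rw [pow_one, pow_one] at hm
  rw [hm]
  congr 1
  have h1 : orderOf (a ^ p ^ e) = p := by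
    rw [orderOf_pow_of_dvd (pow_pos hp.out.pos e).ne' (by rw [ha]; exact pow_dvd_pow p (by omega)),
      ha, pow_succ, Nat.mul_div_cancel_left _ (pow_pos hp.out.pos e)]
  rw [pow_eq_pow_iff_modEq, h1]
  simpa using (hm1.mul_left i)

/-- the cyclic subgroups `⟨b a ^ i⟩` -/
def Ai (a b : P) (i : ℕ) : Subgroup P := zpowers (b * a ^ i)

theorem card_Ai (h : Pair p a b r) (hgen : ∀ x : P, ∃ v u : ℕ, x = b ^ v * a ^ u)
    (hN : (zpowers a).Normal) {e : ℕ} (ha : orderOf a = p ^ (e + 1))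
    (hb : orderOf b = p ^ (e + 1)) (hcard : Nat.card P = p ^ (e + 1) * p ^ (e + 1)) (i : ℕ) :
    Nat.card (Ai a b i) = p ^ (e + 1) := by
  rw [Ai, Nat.card_zpowers]
  apply Nat.dvd_antisymm
  · exact orderOf_dvd_of_pow_eq_one (pow_q h ha hb i)
  · have h1 : ((b * a ^ i) ^ ((orderOf (b * a ^ i) : ℕ) : ℤ)) ∈ zpowers a := by
      rw [zpow_natCast, pow_orderOf_eq_one]; exact one_mem _
    exact_mod_cast dvd_of_mem' h.conj hgen hN ha hb hcard h1

theorem Ai_a (h : Pair p a b r) (hgen : ∀ x : P, ∃ v u : ℕ, x = b ^ v * a ^ u)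
    (hN : (zpowers a).Normal) {e : ℕ} (ha : orderOf a = p ^ (e + 1))
    (hb : orderOf b = p ^ (e + 1)) (hcard : Nat.card P = p ^ (e + 1) * p ^ (e + 1)) {i : ℕ}
    {x : P} (hx : x ∈ Ai a b i) (hxa : x ∈ zpowers a) : x = 1 := by
  obtain ⟨v, rfl⟩ := hx
  obtain ⟨w, rfl⟩ := dvd_of_mem' h.conj hgen hN ha hb hcard hxa
  change (b * a ^ i) ^ (((p ^ (e + 1) : ℕ) : ℤ) * w) = 1
  rw [zpow_mul, zpow_natCast, pow_q h ha hb, one_zpow]

theorem Ai_Ai (h : Pair p a b r) (hgen : ∀ x : P, ∃ v u : ℕ, x = b ^ v * a ^ u)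
    (hN : (zpowers a).Normal) {e : ℕ} (ha : orderOf a = p ^ (e + 1))
    (hb : orderOf b = p ^ (e + 1)) (hcard : Nat.card P = p ^ (e + 1) * p ^ (e + 1)) {i j : ℕ}
    (hij : ¬ i ≡ j [MOD p]) {x : P} (hx : x ∈ Ai a b i) (hx' : x ∈ Ai a b j) : x = 1 := by
  obtain ⟨v, hv⟩ := hx
  obtain ⟨w, hw⟩ := hx'
  have hv' : (b * a ^ i) ^ v = x := hv
  have hw' : (b * a ^ j) ^ w = x := hw
  have hq : ∀ (i : ℕ) (c : ℤ), (b * a ^ i) ^ (((p ^ (e + 1) : ℕ) : ℤ) * c) = 1 := by
    intro i c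
    rw [zpow_mul, zpow_natCast, pow_q h ha hb, one_zpow]
  -- both exponents agree modulo `q`
  have h1 : (b * a ^ j) ^ (w - v) ∈ zpowers a := by
    have h2 := mk_eq (b := b) hN i j v
    have h3 : (b * a ^ i) ^ v * ((b * a ^ j) ^ v)⁻¹ = (b * a ^ j) ^ (w - v) := by
      rw [hv', ← hw', zpow_sub]
    rwa [h3] at h2
  obtain ⟨c, hc⟩ := dvd_of_mem' h.conj hgen hN ha hb hcard h1
  have h4 : (b * a ^ j) ^ v = x := by
    have h5 : w = v + ((p ^ (e + 1) : ℕ) : ℤ) * c := by linarith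
    rw [← hw', h5, zpow_add, hq, mul_one]
  by_contra hx1
  -- the gcd of `v` and `q`
  obtain ⟨s, hs, hsg⟩ := (Nat.dvd_prime_pow hp.out).1
    (Int.natCast_dvd_natCast.1 (Int.gcd_dvd_right v ((p ^ (e + 1) : ℕ) : ℤ)))
  have hse : s ≤ e := by
    by_contra hlt
    have hs1 : s = e + 1 := by omega
    apply hx1
    have h6 : ((p ^ (e + 1) : ℕ) : ℤ) ∣ v := by
      have := Int.gcd_dvd_left v ((p ^ (e + 1) : ℕ) : ℤ)
      rwa [hsg, hs1] at this
    obtain ⟨c, rfl⟩ := h6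
    rw [← hv', hq]
  have hbez := Int.gcd_eq_gcd_ab v ((p ^ (e + 1) : ℕ) : ℤ)
  rw [hsg] at hbez
  have key : ∀ i : ℕ, (b * a ^ i) ^ v = x →
      (b * a ^ i) ^ (p ^ s) = x ^ (Int.gcdA v ((p ^ (e + 1) : ℕ) : ℤ)) := by
    intro i hi
    rw [← zpow_natCast, hbez, zpow_add, hq, mul_one, zpow_mul, hi]
  have h7 : (b * a ^ i) ^ (p ^ e) = (b * a ^ j) ^ (p ^ e) := by
    have h8 : p ^ e = p ^ s * p ^ (e - s) := by rw [← pow_add]; congr 1; omega
    rw [h8, pow_mul, pow_mul, key i hv', key j h4]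
  rw [pow_pe h ha, pow_pe h ha] at h7
  have h9 := mul_left_cancel h7
  have h10 : orderOf (a ^ p ^ e) = p := by
    rw [orderOf_pow_of_dvd (pow_pos hp.out.pos e).ne' (by rw [ha]; exact pow_dvd_pow p (by omega)),
      ha, pow_succ, Nat.mul_div_cancel_left _ (pow_pos hp.out.pos e)]
  rw [pow_eq_pow_iff_modEq, h10] at h9
  exact hij h9

/-- the graph of `h`, flipped -/
def graphF (h : P →* P) : Subgroup (P × P) := (MonoidHom.prod h (MonoidHom.id P)).range

omit [Finite P] in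
theorem mem_graphF (f : P →* P) (x : P × P) : x ∈ graphF f ↔ x.1 = f x.2 := by
  unfold graphF
  rw [MonoidHom.mem_range]
  constructor
  · rintro ⟨y, rfl⟩; rfl
  · intro h
    exact ⟨x.2, by ext <;> simp [h]⟩

omit [Finite P] in
theorem card_graphF (f : P →* P) : Nat.card (graphF f) = Nat.card P := by
  refine Nat.card_congr (Equiv.ofBijective (fun x : graphF f => x.1.2) ⟨?_, ?_⟩)
  · rintro ⟨⟨a, b⟩, h⟩ ⟨⟨a', b'⟩, h'⟩ heq
    rw [mem_graphF] at h h'
    simp only at heq h h'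
    subst heq
    rw [← h] at h'
    subst h'
    rfl
  · intro a
    exact ⟨⟨(f a, a), by rw [mem_graphF]⟩, rfl⟩

theorem le_T_of_family {ι : Type} [Fintype ι] [Nontrivial P] (M : ι → Subgroup (P × P))
    (hcard : ∀ i, Nat.card (M i) = Nat.card P)
    (hd : ∀ i j, i ≠ j → ∀ x ∈ M i, x ∈ M j → x = 1) : Fintype.card ι ≤ T (P × P) := by
  classical
  have hbot : ∀ i j, i ≠ j → M i ⊓ M j = ⊥ := by
    intro i j hij
    rw [eq_bot_iff]
    intro x hx
    rw [mem_bot]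
    exact hd i j hij x hx.1 hx.2
  have hinj : Function.Injective M := by
    intro i j hij
    by_contra hne
    have h1 := hbot i j hne
    rw [← hij, inf_idem] at h1
    have h2 := hcard i
    rw [h1, card_bot] at h2
    have := Finite.one_lt_card (α := P)
    omega
  rw [← Finset.card_univ, ← Finset.card_image_of_injective _ hinj]
  apply le_T_prod
  refine ⟨?_, ?_⟩
  · intro U hU
    obtain ⟨i, -, rfl⟩ := Finset.mem_image.1 hU
    exact hcard i
  · intro U hU W hW hne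
    obtain ⟨i, -, rfl⟩ := Finset.mem_image.1 hU
    obtain ⟨j, -, rfl⟩ := Finset.mem_image.1 hW
    exact hbot i j (fun h => hne (by rw [h]))

omit hp in
/-- the endomorphism `b ^ v a ^ u ↦ a ^ v` -/
theorem exists_shift50 (hab : a * b = b * a ^ r) (hgen : ∀ x : P, ∃ v u : ℕ, x = b ^ v * a ^ u)
    {q : ℕ} (ha : orderOf a = q) (hb : orderOf b = q) (hcard : Nat.card P = q * q) :
    ∃ h : P →* P, ∀ v u : ℕ, h (b ^ v * a ^ u) = a ^ v := by
  classical
  choose v u hvu using hgen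
  have hgen : ∀ x : P, ∃ v u : ℕ, x = b ^ v * a ^ u := fun x => ⟨v x, u x, hvu x⟩
  have hwd : ∀ s t s' t' : ℕ, b ^ s * a ^ t = b ^ s' * a ^ t' → a ^ s = a ^ s' := by
    intro s t s' t' h
    have h1 : b ^ ((s : ℤ) - s') ∈ zpowers a := by
      refine ⟨(t' : ℤ) - t, ?_⟩
      change a ^ ((t' : ℤ) - t) = b ^ ((s : ℤ) - s')
      have h2 : b ^ s = b ^ s' * a ^ t' * (a ^ t)⁻¹ := by rw [← h]; group
      have h3 : Commute (b ^ s) (b ^ s')⁻¹ := ((Commute.refl b).pow_pow s s').inv_right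
      rw [zpow_sub, zpow_sub, zpow_natCast, zpow_natCast, zpow_natCast, zpow_natCast, h3.eq, h2]
      group
    have h4 := dvd_of_mem hab hgen ha hb hcard h1
    rw [← ha] at h4
    have h5 := orderOf_dvd_iff_zpow_eq_one.1 h4
    rw [zpow_sub, zpow_natCast, zpow_natCast] at h5
    exact mul_inv_eq_one.1 h5
  refine ⟨⟨⟨fun x => a ^ v x, ?_⟩, ?_⟩, ?_⟩
  · have := hwd (v 1) (u 1) 0 0 (by rw [← hvu 1]; simp)
    simpa using this
  · intro x y
    change a ^ v (x * y) = a ^ v x * a ^ v y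
    rw [← pow_add]
    refine hwd (v (x * y)) (u (x * y)) (v x + v y) (u x * r ^ v y + u y) ?_
    rw [← hvu (x * y), ← mul_form hab, ← hvu x, ← hvu y]
  · intro s t
    change a ^ v (b ^ s * a ^ t) = a ^ s
    exact hwd _ (u (b ^ s * a ^ t)) _ t (by rw [← hvu])

/-- R1: the lower bound -/
theorem lower (_hP : IsPGroup p P) (h : Pair p a b r)
    (hgen : ∀ x : P, ∃ v u : ℕ, x = b ^ v * a ^ u)
    {e : ℕ} (ha : orderOf a = p ^ (e + 1)) (hb : orderOf b = p ^ (e + 1))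
    (hcard : Nat.card P = p ^ (2 * (e + 1))) : p + 3 ≤ T (P × P) := by
  have hc : Nat.card P = p ^ (e + 1) * p ^ (e + 1) := by rw [hcard, ← pow_add]; congr 1; ring
  have hN : (zpowers a).Normal := norm_of h.conj hgen
  have hq1 : 1 < p ^ (e + 1) := Nat.one_lt_pow (by omega) hp.out.one_lt
  have hnt : Nontrivial P := by
    refine ⟨a, 1, ?_⟩
    rintro rfl
    rw [orderOf_one] at ha
    omega
  obtain ⟨f, hf⟩ := exists_shift50 h.conj hgen ha hb hc
  have hfa : ∀ x, f x ∈ zpowers a := by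
    intro x
    obtain ⟨v, u, rfl⟩ := hgen x
    rw [hf]
    exact ⟨v, by simp⟩
  have hfk : ∀ x ∈ zpowers a, f x = 1 := by
    intro x hx
    obtain ⟨u, rfl⟩ := mem_powers_iff_mem_zpowers.2 hx
    have := hf 0 u
    rwa [pow_zero, one_mul, pow_zero] at this
  have hfk' : ∀ x, f x = 1 → x ∈ zpowers a := by
    intro x hx
    obtain ⟨v, u, rfl⟩ := hgen x
    rw [hf] at hx
    have h1 := orderOf_dvd_of_pow_eq_one hx
    rw [ha, ← hb] at h1
    rw [orderOf_dvd_iff_pow_eq_one.1 h1, one_mul]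
    exact ⟨u, by simp⟩
  have hfix : ∀ x, f x = x → x = 1 := by
    intro x hx
    have h1 := hfa x
    rw [hx] at h1
    rw [← hx]; exact hfk x h1
  have hAa := fun (i : ℕ) (x : P) (h1 : x ∈ Ai a b i) (h2 : x ∈ zpowers a) =>
    Ai_a h hgen hN ha hb hc h1 h2
  have hAA := fun (i j : ℕ) (hij : ¬ i ≡ j [MOD p]) (x : P) (h1 : x ∈ Ai a b i)
    (h2 : x ∈ Ai a b j) => Ai_Ai h hgen hN ha hb hc hij h1 h2
  have hval : ∀ i j : ZMod p, i ≠ j → ¬ i.val ≡ j.val [MOD p] := by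
    intro i j hij hm
    apply hij
    have := (ZMod.natCast_eq_natCast_iff _ _ _).2 hm
    rwa [ZMod.natCast_zmod_val, ZMod.natCast_zmod_val] at this
  let M : ZMod p ⊕ Fin 3 → Subgroup (P × P) := fun x =>
    match x with
    | Sum.inl i => (Ai a b i.val).prod (Ai a b (i + 1).val)
    | Sum.inr 0 => graph f
    | Sum.inr 1 => graphF f
    | Sum.inr 2 => graph (MonoidHom.id P)
  -- the disjointness statements
  have d1 : ∀ i j : ZMod p, i ≠ j → ∀ x ∈ M (Sum.inl i), x ∈ M (Sum.inl j) → x = 1 := by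
    intro i j hij x hx hy
    have hx' := mem_prod.1 (hx : x ∈ (Ai a b i.val).prod (Ai a b (i + 1).val))
    have hy' := mem_prod.1 (hy : x ∈ (Ai a b j.val).prod (Ai a b (j + 1).val))
    refine Prod.ext (hAA _ _ (hval i j hij) x.1 hx'.1 hy'.1)
      (hAA _ _ (hval (i + 1) (j + 1) ?_) x.2 hx'.2 hy'.2)
    intro h1
    exact hij (add_right_cancel h1)
  have d2 : ∀ (i : ZMod p) (k : Fin 3), ∀ x ∈ M (Sum.inl i), x ∈ M (Sum.inr k) → x = 1 := by
    intro i k x hx hy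
    have hx' := mem_prod.1 (hx : x ∈ (Ai a b i.val).prod (Ai a b (i + 1).val))
    fin_cases k
    · have h1 : x.2 = f x.1 := (mem_graph f x).1 hy
      have h2 : x.2 = 1 := hAa _ _ hx'.2 (by rw [h1]; exact hfa _)
      have h3 : x.1 = 1 := hAa _ _ hx'.1 (hfk' _ (by rw [← h1, h2]))
      exact Prod.ext h3 h2
    · have h1 : x.1 = f x.2 := (mem_graphF f x).1 hy
      have h2 : x.1 = 1 := hAa _ _ hx'.1 (by rw [h1]; exact hfa _)
      have h3 : x.2 = 1 := hAa _ _ hx'.2 (hfk' _ (by rw [← h1, h2]))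
      exact Prod.ext h2 h3
    · have h1 : x.2 = x.1 := (mem_graph (MonoidHom.id P) x).1 hy
      have h2 : x.1 = 1 := by
        refine hAA _ _ (hval i (i + 1) ?_) x.1 hx'.1 (by rw [← h1]; exact hx'.2)
        intro h3
        have h4 : (1 : ZMod p) = 0 := by
          have := add_left_cancel ((add_zero i).trans h3)
          exact this.symm
        exact one_ne_zero h4
      exact Prod.ext h2 (by rw [h1, h2]; rfl)
  have d3 : ∀ k l : Fin 3, k ≠ l → ∀ x ∈ M (Sum.inr k), x ∈ M (Sum.inr l) → x = 1 := by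
    have e01 : ∀ x : P × P, x ∈ graph f → x ∈ graphF f → x = 1 := by
      intro x hx hy
      rw [mem_graph] at hx
      rw [mem_graphF] at hy
      have h1 : x.2 = 1 := by rw [hx]; exact hfk _ (by rw [hy]; exact hfa _)
      exact Prod.ext (by rw [hy, h1, map_one]; rfl) h1
    have e02 : ∀ x : P × P, x ∈ graph f → x ∈ graph (MonoidHom.id P) → x = 1 := by
      intro x hx hy
      rw [mem_graph] at hx hy
      have h1 : x.1 = 1 := hfix _ (by rw [← hx, hy]; rfl)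
      exact Prod.ext h1 (by rw [hx, h1, map_one]; rfl)
    have e12 : ∀ x : P × P, x ∈ graphF f → x ∈ graph (MonoidHom.id P) → x = 1 := by
      intro x hx hy
      rw [mem_graphF] at hx
      rw [mem_graph] at hy
      have h0 : x.2 = x.1 := hy
      have h1 : x.2 = 1 := hfix _ (by rw [← hx, h0])
      exact Prod.ext (by rw [← h0, h1]; rfl) h1
    intro k l hkl x hx hy
    fin_cases k <;> fin_cases l
    · exact absurd rfl hkl
    · exact e01 x hx hy
    · exact e02 x hx hy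
    · exact e01 x hy hx
    · exact absurd rfl hkl
    · exact e12 x hx hy
    · exact e02 x hy hx
    · exact e12 x hy hx
    · exact absurd rfl hkl
  have hfam := le_T_of_family M ?_ ?_
  · have hcι : Fintype.card (ZMod p ⊕ Fin 3) = p + 3 := by
      rw [Fintype.card_sum, ZMod.card, Fintype.card_fin]
    rwa [hcι] at hfam
  · rintro (i | k)
    · change Nat.card ((Ai a b i.val).prod (Ai a b (i + 1).val)) = _
      rw [Nat.card_congr (Subgroup.prodEquiv _ _).toEquiv, Nat.card_prod,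
        card_Ai h hgen hN ha hb hc, card_Ai h hgen hN ha hb hc, hc]
    · fin_cases k
      · exact card_graph f
      · exact card_graphF f
      · exact card_graph _
  · rintro (i | k) (j | l) hne x hx hy
    · exact d1 i j (fun h => hne (by rw [h])) x hx hy
    · exact d2 i l x hx hy
    · exact d2 j k x hy hx
    · exact d3 k l (fun h => hne (by rw [h])) x hx hy

end Lower

end Pool.Agent.MC
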