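import Pool.Agent.MC.Bound
import Pool.Agent.MC.Two50
import Pool.Agent.MC.Choice50
import Pool.Agent.MC.Comm38
import Pool.Agent.MC.Lower

/-!
# The exact value of `T(P × P)` for the non-abelian metacyclic `p`-groups
-/

set_option autoImplicit false

namespace Pool.Agent.MC

open Pool.Agent.Helper19.PCP

/-- `|P| = exp(P)²` gives `|a| = |b| = p ^ (e + 1)` -/
theorem orders_of_sq {p : ℕ} [hp : Fact p.Prime] {P : Type} [Group P] [Finite P]
    {a b : P} (hgen : ∀ x : P, ∃ v u : ℕ, x = b ^ v * a ^ u)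
    {m : ℕ} (hcard : Nat.card P = p ^ (2 * m)) (hexp : Monoid.exponent P = p ^ m) :
    orderOf a = p ^ m ∧ orderOf b = p ^ m := by
  have ha : orderOf a ≤ p ^ m :=
    Nat.le_of_dvd (pow_pos hp.out.pos _) (hexp ▸ Monoid.order_dvd_exponent a)
  have hb : orderOf b ≤ p ^ m :=
    Nat.le_of_dvd (pow_pos hp.out.pos _) (hexp ▸ Monoid.order_dvd_exponent b)
  have hle : Nat.card P ≤ orderOf b * orderOf a := by
    rw [← Nat.card_zpowers, ← Nat.card_zpowers, ← Nat.card_prod]
    refine Nat.card_le_card_of_surjective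
      (fun x : Subgroup.zpowers b × Subgroup.zpowers a => x.1.1 * x.2.1) ?_
    intro x
    obtain ⟨v, u, rfl⟩ := hgen x
    exact ⟨(⟨b ^ v, pow_mem (Subgroup.mem_zpowers b) v⟩,
      ⟨a ^ u, pow_mem (Subgroup.mem_zpowers a) u⟩), rfl⟩
  rw [hcard, two_mul, pow_add] at hle
  have hpos : 0 < p ^ m := pow_pos hp.out.pos _
  constructor
  · by_contra hne
    have hlt : orderOf a < p ^ m := lt_of_le_of_ne ha hne
    have : orderOf b * orderOf a < p ^ m * p ^ m :=
      lt_of_le_of_lt (Nat.mul_le_mul_right _ hb) (Nat.mul_lt_mul_of_pos_left hlt hpos)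
    omega
  · by_contra hne
    have hlt : orderOf b < p ^ m := lt_of_le_of_ne hb hne
    have : orderOf b * orderOf a < p ^ m * p ^ m :=
      lt_of_le_of_lt (Nat.mul_le_mul_left _ ha) (Nat.mul_lt_mul_of_pos_right hlt hpos)
    omega

theorem metacyclic_exact {p : ℕ} [hp : Fact p.Prime] {P : Type} [Group P] [Finite P]
    (hP : IsPGroup p P) (hna : ∃ x y : P, x * y ≠ y * x)
    (hM : ∃ A : Subgroup P, ∃ _ : A.Normal, IsCyclic A ∧ IsCyclic (P ⧸ A)) :
    ((Nat.card P = Monoid.exponent P ^ 2 ∧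
      (p = 2 → commutator P ≤ Subgroup.closure {x | ∃ y : P, x = y ^ 4})) →
        T (P × P) = p + 3) ∧
    (¬ (Nat.card P = Monoid.exponent P ^ 2 ∧
      (p = 2 → commutator P ≤ Subgroup.closure {x | ∃ y : P, x = y ^ 4})) →
        T (P × P) = 3) := by
  have hnt : Nontrivial P := by
    obtain ⟨x, y, hxy⟩ := hna
    exact ⟨⟨x * y, y * x, hxy⟩⟩
  have h3 : 3 ≤ T (P × P) := three_le_T
  obtain ⟨a, b, r, hab, hgen, hcase⟩ := choice hP hna hM
  rcases hcase with h | ⟨rfl, hr, h4⟩
  · obtain ⟨F, hcard, hexp⟩ := exists_frame hP hna h hgen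
    have hiff : Nat.card P = Monoid.exponent P ^ 2 ↔ F.k = 0 := by
      rw [hcard, hexp, ← pow_mul, Nat.pow_right_inj (Nat.Prime.one_lt hp.out)]
      omega
    constructor
    · rintro ⟨hsq, -⟩
      have hk := hiff.1 hsq
      refine le_antisymm (bound_zero hP F hk) ?_
      rw [hk, add_zero] at hcard hexp
      obtain ⟨ha, hb⟩ := orders_of_sq hgen hcard hexp
      exact lower hP h hgen ha hb hcard
    · intro hnot
      have hk : F.k ≠ 0 := by
        intro hk
        apply hnot
        refine ⟨hiff.2 hk, ?_⟩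
        rintro rfl
        exact comm_le_of_pair h hgen
      exact le_antisymm (bound_pos hP F (Nat.pos_of_ne_zero hk)) h3
  · have hT := two_nonpowerful hP hna hab hr hgen h4
    have hneg := choice_neg hP hna hab hr hgen h4
    constructor
    · rintro ⟨h1, h2⟩
      exact absurd ⟨h1, h2 rfl⟩ hneg
    · intro _
      exact hT

end Pool.Agent.MC
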