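import Pool.Agent.MC.Frame

/-!
# The reduction of the bounds for `T(P × P)` to linear algebra
-/

set_option autoImplicit false

namespace Pool.Agent.MC

open Pool.Agent.Helper19.PCP

namespace Frame

variable {P : Type} [Group P] {p : ℕ} (F : Frame p P)

theorem pi_one : F.pi 1 = 0 := by
  have := F.pi_mul 1 1
  rw [one_mul] at this
  exact left_eq_add.1 this

theorem pi_inv (x : P) : F.pi x⁻¹ = - F.pi x := by
  have := F.pi_mul x⁻¹ x
  rw [inv_mul_cancel, pi_one] at this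
  exact eq_neg_of_add_eq_zero_left this.symm

theorem pi_pow (x : P) (n : ℕ) : F.pi (x ^ n) = n • F.pi x := by
  induction n with
  | zero => rw [pow_zero, zero_smul, pi_one]
  | succ n ih => rw [pow_succ, F.pi_mul, ih, succ_nsmul]

theorem lam_one : F.lam 1 = 0 := by
  have := F.lam_mul 1 (one_mem _) 1 (one_mem _)
  rw [one_mul] at this
  exact left_eq_add.1 this

theorem lam_npow {x : P} (hx : x ∈ F.H) (n : ℕ) : F.lam (x ^ n) = n • F.lam x := by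
  induction n with
  | zero => rw [pow_zero, zero_smul, lam_one]
  | succ n ih => rw [pow_succ, F.lam_mul _ (_root_.pow_mem hx n) _ hx, ih, succ_nsmul]

theorem pow_succ_mem (x : P) : x ^ p ^ (F.e + 1) ∈ F.H := by
  rw [pow_succ, pow_mul]
  exact _root_.pow_mem (F.pow_mem x) _

theorem lam_pow_succ (x : P) : F.lam (x ^ p ^ (F.e + 1)) = 0 := by
  rw [pow_succ, pow_mul, F.lam_npow (F.pow_mem x), F.lam_pow]
  refine Prod.ext ?_ ?_ <;> simp

/-- the subgroup `H ∩ ker lam` -/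
def N : Subgroup P where
  carrier := {x | x ∈ F.H ∧ F.lam x = 0}
  mul_mem' := by
    rintro x y ⟨hx, hx'⟩ ⟨hy, hy'⟩
    exact ⟨mul_mem hx hy, by rw [F.lam_mul _ hx _ hy, hx', hy', add_zero]⟩
  one_mem' := ⟨one_mem _, F.lam_one⟩
  inv_mem' := by
    rintro x ⟨hx, hx'⟩
    refine ⟨inv_mem hx, ?_⟩
    have := F.lam_mul x⁻¹ (inv_mem hx) x hx
    rw [inv_mul_cancel, F.lam_one, hx', add_zero] at this
    exact this.symm

theorem mem_N (x : P) : x ∈ F.N ↔ x ∈ F.H ∧ F.lam x = 0 := Iff.rfl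

/-- the image of a subgroup of `P × P` in `V × V` -/
def D (U : Subgroup (P × P)) : Submodule (ZMod p) (V p × V p) :=
  AddSubgroup.toZModSubmodule p
    { carrier := {t | ∃ x ∈ U, (F.pi x.1, F.pi x.2) = t}
      add_mem' := by
        rintro s t ⟨x, hx, rfl⟩ ⟨y, hy, rfl⟩
        exact ⟨x * y, mul_mem hx hy, by rw [Prod.fst_mul, Prod.snd_mul, F.pi_mul, F.pi_mul]; rfl⟩
      zero_mem' := ⟨1, one_mem _, by rw [Prod.fst_one, Prod.snd_one, F.pi_one]; rfl⟩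
      neg_mem' := by
        rintro s ⟨x, hx, rfl⟩
        exact ⟨x⁻¹, inv_mem hx, by rw [Prod.fst_inv, Prod.snd_inv, F.pi_inv, F.pi_inv]; rfl⟩ }

theorem mem_D (U : Subgroup (P × P)) (t : V p × V p) :
    t ∈ F.D U ↔ ∃ x ∈ U, (F.pi x.1, F.pi x.2) = t := Iff.rfl

/-- the image of `U ∩ H²` under `lam` -/
def Y (U : Subgroup (P × P)) : Submodule (ZMod p) (V p × V p) :=
  AddSubgroup.toZModSubmodule p
    { carrier := {t | ∃ x ∈ U, x.1 ∈ F.H ∧ x.2 ∈ F.H ∧ (F.lam x.1, F.lam x.2) = t}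
      add_mem' := by
        rintro s t ⟨x, hx, h1, h2, rfl⟩ ⟨y, hy, h3, h4, rfl⟩
        exact ⟨x * y, mul_mem hx hy, mul_mem h1 h3, mul_mem h2 h4, by
          rw [Prod.fst_mul, Prod.snd_mul, F.lam_mul _ h1 _ h3, F.lam_mul _ h2 _ h4]; rfl⟩
      zero_mem' := ⟨1, one_mem _, one_mem _, one_mem _, by
        rw [Prod.fst_one, Prod.snd_one, F.lam_one]; rfl⟩
      neg_mem' := by
        rintro s ⟨x, hx, h1, h2, rfl⟩
        have e1 : ∀ y ∈ F.H, F.lam y⁻¹ = - F.lam y := by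
          intro y hy
          have := F.lam_mul y⁻¹ (inv_mem hy) y hy
          rw [inv_mul_cancel, F.lam_one] at this
          exact eq_neg_of_add_eq_zero_left this.symm
        exact ⟨x⁻¹, inv_mem hx, inv_mem h1, inv_mem h2, by
          rw [Prod.fst_inv, Prod.snd_inv, e1 _ h1, e1 _ h2]; rfl⟩ }

theorem mem_Y (U : Subgroup (P × P)) (t : V p × V p) :
    t ∈ F.Y U ↔ ∃ x ∈ U, x.1 ∈ F.H ∧ x.2 ∈ F.H ∧ (F.lam x.1, F.lam x.2) = t := Iff.rfl

theorem D_le_Y (U : Subgroup (P × P)) : F.D U ≤ F.Y U := by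
  rintro t ⟨x, hx, rfl⟩
  exact ⟨x ^ p ^ F.e, _root_.pow_mem hx _, F.pow_mem _, F.pow_mem _, by
    rw [Prod.pow_fst, Prod.pow_snd, F.lam_pow, F.lam_pow]⟩

/-- `|U ∩ H²| = |Y| |U ∩ N²|` -/
theorem card_inf (U : Subgroup (P × P)) [Finite P] :
    Nat.card (U ⊓ F.H.prod F.H : Subgroup (P × P)) =
      Nat.card (F.Y U) * Nat.card (U ⊓ F.N.prod F.N : Subgroup (P × P)) := by
  let M : Subgroup (P × P) := U ⊓ F.H.prod F.H
  have hM : ∀ x : M, x.1.1 ∈ F.H ∧ x.1.2 ∈ F.H := fun x => (Subgroup.mem_prod.1 x.2.2)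
  let φ : M →* Multiplicative (V p × V p) :=
    { toFun := fun x => Multiplicative.ofAdd (F.lam x.1.1, F.lam x.1.2)
      map_one' := by
        show Multiplicative.ofAdd (F.lam 1, F.lam 1) = 1
        rw [F.lam_one]; rfl
      map_mul' := fun x y => by
        show Multiplicative.ofAdd (F.lam (x.1.1 * y.1.1), F.lam (x.1.2 * y.1.2)) = _
        rw [F.lam_mul _ (hM x).1 _ (hM y).1, F.lam_mul _ (hM x).2 _ (hM y).2]
        rfl }
  have hle : U ⊓ F.N.prod F.N ≤ M := by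
    rintro x ⟨hx, hx2⟩
    have hx3 := Subgroup.mem_prod.1 hx2
    exact ⟨hx, Subgroup.mem_prod.2 ⟨hx3.1.1, hx3.2.1⟩⟩
  have hker : φ.ker = (U ⊓ F.N.prod F.N).subgroupOf M := by
    ext x
    rw [MonoidHom.mem_ker, Subgroup.mem_subgroupOf]
    constructor
    · intro h0
      have h1 : F.lam x.1.1 = 0 := congrArg Prod.fst h0
      have h2 : F.lam x.1.2 = 0 := congrArg Prod.snd h0
      exact ⟨x.2.1, Subgroup.mem_prod.2 ⟨⟨(hM x).1, h1⟩, ⟨(hM x).2, h2⟩⟩⟩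
    · rintro ⟨-, h00⟩
      have h0 := Subgroup.mem_prod.1 h00
      show Multiplicative.ofAdd (F.lam x.1.1, F.lam x.1.2) = 1
      rw [h0.1.2, h0.2.2]; rfl
  have h1 := Subgroup.card_mul_index φ.ker
  rw [Subgroup.index_ker, hker, Nat.card_congr (Subgroup.subgroupOfEquivOfLe hle).toEquiv] at h1
  have h2 : Nat.card φ.range = Nat.card (F.Y U) := by
    apply Nat.card_congr
    refine Equiv.subtypeEquiv Multiplicative.toAdd ?_
    intro t
    constructor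
    · rintro ⟨x, rfl⟩
      exact ⟨x.1, x.2.1, (hM x).1, (hM x).2, rfl⟩
    · rintro ⟨x, hx, h1, h2, h3⟩
      exact ⟨⟨x, hx, Subgroup.mem_prod.2 ⟨h1, h2⟩⟩, h3⟩
  rw [h2] at h1
  show Nat.card M = _
  rw [← h1, mul_comm]

variable [hp : Fact p.Prime]

theorem card_N : Nat.card F.N = p ^ F.k := by
  let φ : F.H →* Multiplicative (V p) :=
    { toFun := fun x => Multiplicative.ofAdd (F.lam x.1)
      map_one' := by
        show Multiplicative.ofAdd (F.lam 1) = 1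
        rw [F.lam_one]; rfl
      map_mul' := fun x y => by
        show Multiplicative.ofAdd (F.lam (x.1 * y.1)) = _
        rw [F.lam_mul _ x.2 _ y.2]
        rfl }
  have hle : F.N ≤ F.H := fun x hx => hx.1
  have hker : φ.ker = F.N.subgroupOf F.H := by
    ext x
    rw [MonoidHom.mem_ker, Subgroup.mem_subgroupOf]
    constructor
    · intro h0
      exact ⟨x.2, h0⟩
    · rintro ⟨-, h0⟩
      exact h0
  have hsurj : Function.Surjective φ := by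
    intro t
    obtain ⟨x, hx⟩ := F.pi_surj t.toAdd
    refine ⟨⟨x ^ p ^ F.e, F.pow_mem x⟩, ?_⟩
    show Multiplicative.ofAdd (F.lam (x ^ p ^ F.e)) = t
    rw [F.lam_pow, hx]; rfl
  have h1 := Subgroup.card_mul_index φ.ker
  rw [Subgroup.index_ker, hker, Nat.card_congr (Subgroup.subgroupOfEquivOfLe hle).toEquiv,
    MonoidHom.range_eq_top.2 hsurj, Subgroup.card_top, F.card_H] at h1
  have h2 : Nat.card (Multiplicative (V p)) = p ^ 2 := by
    rw [Nat.card_congr Multiplicative.toAdd, Nat.card_prod, Nat.card_zmod, sq]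
  rw [h2, pow_add] at h1
  exact Nat.eq_of_mul_eq_mul_right (pow_pos hp.out.pos 2) h1

omit hp in
/-- the `p ^ (e + k)`-th power -/
theorem pow_kp (hk : 0 < F.k) (x : P × P) : x ^ p ^ (F.e + F.k) =
    (F.w ^ (kp F.κ (F.pi x.1)).val, F.w ^ (kp F.κ (F.pi x.2)).val) := by
  rw [← F.pow_w hk, ← F.pow_w hk]
  rfl

theorem w_inj (hk : 0 < F.k) {s t : ZMod p} (h : F.w ^ s.val = F.w ^ t.val) : s = t := by
  have h1 : orderOf F.w = p := orderOf_eq_prime (F.w_pow hk) (F.w_ne hk)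
  rw [pow_eq_pow_iff_modEq, h1, ← ZMod.natCast_eq_natCast_iff, ZMod.natCast_zmod_val,
    ZMod.natCast_zmod_val] at h
  exact h

theorem kp_add (κ x y : V p) : kp κ (x + y) = kp κ x + kp κ y := by
  unfold kp
  rw [Prod.fst_add, Prod.snd_add]
  ring

theorem kp_surj {κ : V p} (hκ : κ ≠ 0) (c : ZMod p) : ∃ v : V p, kp κ v = c := by
  unfold kp
  by_cases h1 : κ.1 = 0
  · have h2 : κ.2 ≠ 0 := fun h2 => hκ (Prod.ext h1 h2)
    exact ⟨(0, κ.2⁻¹ * c), by simp [mul_inv_cancel_left₀ h2]⟩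
  · exact ⟨(κ.1⁻¹ * c, 0), by simp [mul_inv_cancel_left₀ h1]⟩

end Frame

section PCP

variable {P : Type} [Group P] [Finite P] {p : ℕ} [hp : Fact p.Prime]
variable (F : Frame p P) {𝒰 : Finset (Subgroup (P × P))}

omit hp in
theorem fac (h : IsPCP (Nat.card P) 𝒰) {U U' : Subgroup (P × P)} (hU : U ∈ 𝒰)
    (hU' : U' ∈ 𝒰) (hne : U ≠ U') (g : P × P) : ∃ u ∈ U, ∃ v ∈ U', u * v = g :=
  exists_mul (isComplement_of_mem (Nat.card_prod P P).symm h hU hU' hne) g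

theorem sup_top (h : IsPCP (Nat.card P) 𝒰) {U U' : Subgroup (P × P)} (hU : U ∈ 𝒰)
    (hU' : U' ∈ 𝒰) (hne : U ≠ U') : F.D U ⊔ F.D U' = ⊤ := by
  rw [eq_top_iff]
  rintro ⟨t1, t2⟩ -
  obtain ⟨x1, rfl⟩ := F.pi_surj t1
  obtain ⟨x2, rfl⟩ := F.pi_surj t2
  obtain ⟨u, hu, v, hv, huv⟩ := fac h hU hU' hne (x1, x2)
  rw [Submodule.mem_sup]
  refine ⟨(F.pi u.1, F.pi u.2), ⟨u, hu, rfl⟩, (F.pi v.1, F.pi v.2), ⟨v, hv, rfl⟩, ?_⟩
  rw [Prod.mk_add_mk, ← F.pi_mul, ← F.pi_mul, ← Prod.fst_mul, ← Prod.snd_mul, huv]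

omit [Finite P] in
theorem others (hc : 3 ≤ 𝒰.card) (U : Subgroup (P × P)) : ∃ U' ∈ 𝒰, ∃ U'' ∈ 𝒰,
    U' ≠ U ∧ U'' ≠ U ∧ U' ≠ U'' := by
  classical
  have h1 : 1 < (𝒰.erase U).card := by
    have := Finset.pred_card_le_card_erase (s := 𝒰) (a := U)
    omega
  obtain ⟨U', hU', U'', hU'', hne⟩ := Finset.one_lt_card.1 h1
  rw [Finset.mem_erase] at hU' hU''
  exact ⟨U', hU'.2, U'', hU''.2, hU'.1, hU''.1, hne⟩

theorem exists_kp_ne (h : IsPCP (Nat.card P) 𝒰) (hc : 3 ≤ 𝒰.card) (hk : 0 < F.k)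
    {U : Subgroup (P × P)} (hU : U ∈ 𝒰) :
    ∃ x ∈ U, (kp F.κ (F.pi x.1), kp F.κ (F.pi x.2)) ≠ 0 := by
  by_contra hcon
  push Not at hcon
  obtain ⟨U', hU', U'', hU'', hne', hne'', hne⟩ := others hc U
  obtain ⟨v, hv⟩ := Frame.kp_surj (F.κ_ne hk) 1
  obtain ⟨x1, hx1⟩ := F.pi_surj v
  have key : ∀ W ∈ 𝒰, W ≠ U → ∃ y ∈ W, kp F.κ (F.pi y.1) = 1 ∧ kp F.κ (F.pi y.2) = 0 := by
    intro W hW hWU
    obtain ⟨u, hu, y, hy, huy⟩ := fac h hU hW (Ne.symm hWU) (x1, 1)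
    have h0 := hcon u hu
    have h01 : kp F.κ (F.pi u.1) = 0 := congrArg Prod.fst h0
    have h02 : kp F.κ (F.pi u.2) = 0 := congrArg Prod.snd h0
    refine ⟨y, hy, ?_, ?_⟩
    · have h3 : u.1 * y.1 = x1 := congrArg Prod.fst huy
      have h4 := F.pi_mul u.1 y.1
      rw [h3, hx1] at h4
      rw [h4, Frame.kp_add, h01, zero_add] at hv
      exact hv
    · have h3 : u.2 * y.2 = 1 := congrArg Prod.snd huy
      have h4 := F.pi_mul u.2 y.2
      rw [h3, F.pi_one] at h4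
      have h5 : kp F.κ (F.pi u.2 + F.pi y.2) = 0 := by rw [← h4]; simp [kp]
      rwa [Frame.kp_add, h02, zero_add] at h5
  obtain ⟨y', hy', h1, h2⟩ := key U' hU' hne'
  obtain ⟨y'', hy'', h3, h4⟩ := key U'' hU'' hne''
  have e1 : y' ^ p ^ (F.e + F.k) = y'' ^ p ^ (F.e + F.k) := by
    rw [F.pow_kp hk, F.pow_kp hk, h1, h2, h3, h4]
  have hmem : y' ^ p ^ (F.e + F.k) ∈ U' ⊓ U'' :=
    ⟨pow_mem hy' _, by rw [e1]; exact pow_mem hy'' _⟩
  rw [h.2 U' hU' U'' hU'' hne, Subgroup.mem_bot, F.pow_kp hk, h1] at hmem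
  have h5 : F.w ^ (1 : ZMod p).val = F.w ^ (0 : ZMod p).val := by
    have := congrArg Prod.fst hmem
    simpa using this
  exact one_ne_zero (F.w_inj hk h5)

theorem card_inf_N (hP : IsPGroup p P) (h : IsPCP (Nat.card P) 𝒰) (hc : 3 ≤ 𝒰.card)
    {U : Subgroup (P × P)} (hU : U ∈ 𝒰) :
    p ^ F.k ≤ Nat.card (U ⊓ F.N.prod F.N : Subgroup (P × P)) := by
  rcases Nat.eq_zero_or_pos F.k with hk | hk
  · rw [hk, pow_zero]
    exact Nat.card_pos
  · obtain ⟨x, hx, hne⟩ := exists_kp_ne F h hc hk hU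
    have hy : x ^ p ^ (F.e + 1) ∈ U ⊓ F.N.prod F.N := by
      refine ⟨pow_mem hx _, Subgroup.mem_prod.2 ⟨⟨F.pow_succ_mem _, F.lam_pow_succ _⟩,
        ⟨F.pow_succ_mem _, F.lam_pow_succ _⟩⟩⟩
    have hPP : IsPGroup p (P × P) := by
      intro g
      obtain ⟨k1, h1⟩ := hP g.1
      obtain ⟨k2, h2⟩ := hP g.2
      refine ⟨k1 + k2, Prod.ext ?_ ?_⟩
      · rw [Prod.pow_fst, pow_add, pow_mul, h1, one_pow]; rfl
      · rw [Prod.pow_snd, pow_add, mul_comm, pow_mul, h2, one_pow]; rfl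
    obtain ⟨s, hs⟩ := (IsPGroup.iff_orderOf.1 hPP) (x ^ p ^ (F.e + 1))
    have hsk : F.k ≤ s := by
      by_contra hlt
      apply hne
      have h1 : (x ^ p ^ (F.e + 1)) ^ p ^ (F.k - 1) = 1 := by
        rw [← orderOf_dvd_iff_pow_eq_one, hs]
        exact pow_dvd_pow p (by omega)
      rw [← pow_mul, ← pow_add] at h1
      have h2 : F.e + 1 + (F.k - 1) = F.e + F.k := by omega
      rw [h2, F.pow_kp hk] at h1
      have h3 : F.w ^ (kp F.κ (F.pi x.1)).val = F.w ^ (0 : ZMod p).val := by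
        have := congrArg Prod.fst h1
        simpa using this
      have h4 : F.w ^ (kp F.κ (F.pi x.2)).val = F.w ^ (0 : ZMod p).val := by
        have := congrArg Prod.snd h1
        simpa using this
      exact Prod.ext (F.w_inj hk h3) (F.w_inj hk h4)
    have hle : Subgroup.zpowers (x ^ p ^ (F.e + 1)) ≤ U ⊓ F.N.prod F.N :=
      Subgroup.zpowers_le.2 hy
    calc p ^ F.k ≤ p ^ s := Nat.pow_le_pow_right hp.out.pos hsk
      _ = Nat.card (Subgroup.zpowers (x ^ p ^ (F.e + 1))) := by rw [Nat.card_zpowers, hs]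
      _ ≤ _ := Nat.card_le_card_of_injective _ (Subgroup.inclusion_injective hle)

theorem card_mul_card_le {G : Type} [Group G] [Finite G] {A B C : Subgroup G} (hA : A ≤ C)
    (hB : B ≤ C) (h : A ⊓ B = ⊥) : Nat.card A * Nat.card B ≤ Nat.card C := by
  rw [← Nat.card_prod]
  refine Nat.card_le_card_of_injective
    (fun x : A × B => (⟨x.1.1 * x.2.1, mul_mem (hA x.1.2) (hB x.2.2)⟩ : C)) ?_
  rintro ⟨⟨a, ha⟩, ⟨b, hb⟩⟩ ⟨⟨a', ha'⟩, ⟨b', hb'⟩⟩ heq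
  have heq' : a * b = a' * b' := congrArg Subtype.val heq
  have h1 : a'⁻¹ * a = b' * b⁻¹ := by
    rw [inv_mul_eq_iff_eq_mul, ← mul_assoc, ← heq', mul_inv_cancel_right]
  have h2 : a'⁻¹ * a ∈ A ⊓ B :=
    Subgroup.mem_inf.2 ⟨mul_mem (inv_mem ha') ha, by rw [h1]; exact mul_mem hb' (inv_mem hb)⟩
  rw [h, Subgroup.mem_bot] at h2
  have h3 : a = a' := by rw [inv_mul_eq_one] at h2; exact h2.symm
  subst h3
  have h4 : b = b' := mul_left_cancel heq'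
  subst h4
  rfl

theorem card_sub (S : Submodule (ZMod p) (V p × V p)) :
    Nat.card S = p ^ Module.finrank (ZMod p) S := by
  rw [Module.natCard_eq_pow_finrank (K := ZMod p), Nat.card_zmod]

theorem finrank_V4 : Module.finrank (ZMod p) (V p × V p) = 4 := by
  simp [Module.finrank_prod]

theorem pair_dim (hP : IsPGroup p P) (h : IsPCP (Nat.card P) 𝒰) (hc : 3 ≤ 𝒰.card)
    {U U' : Subgroup (P × P)} (hU : U ∈ 𝒰) (hU' : U' ∈ 𝒰) (hne : U ≠ U') :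
    F.Y U = F.D U ∧ Disjoint (F.D U) (F.D U') ∧
      Module.finrank (ZMod p) (F.D U) + Module.finrank (ZMod p) (F.D U') = 4 := by
  have h1 : Nat.card (U ⊓ F.H.prod F.H : Subgroup (P × P)) *
      Nat.card (U' ⊓ F.H.prod F.H : Subgroup (P × P)) ≤ Nat.card (F.H.prod F.H) := by
    apply card_mul_card_le inf_le_right inf_le_right
    rw [eq_bot_iff, ← h.2 U hU U' hU' hne]
    exact inf_le_inf inf_le_left inf_le_left
  have h2 : Nat.card (F.H.prod F.H) = p ^ (F.k + 2) * p ^ (F.k + 2) := by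
    rw [Nat.card_congr (Subgroup.prodEquiv F.H F.H).toEquiv, Nat.card_prod, F.card_H]
  rw [F.card_inf, F.card_inf, h2, card_sub, card_sub] at h1
  have h3 := card_inf_N F hP h hc hU
  have h4 := card_inf_N F hP h hc hU'
  have h5 : p ^ Module.finrank (ZMod p) (F.Y U) * p ^ F.k *
      (p ^ Module.finrank (ZMod p) (F.Y U') * p ^ F.k) ≤ p ^ (F.k + 2) * p ^ (F.k + 2) :=
    le_trans (Nat.mul_le_mul (Nat.mul_le_mul le_rfl h3) (Nat.mul_le_mul le_rfl h4)) h1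
  rw [← pow_add, ← pow_add, ← pow_add, ← pow_add] at h5
  have h6 := (Nat.pow_le_pow_iff_right hp.out.one_lt).1 h5
  have h7 := Submodule.finrank_mono (F.D_le_Y U)
  have h8 := Submodule.finrank_mono (F.D_le_Y U')
  have h9 := Submodule.finrank_sup_add_finrank_inf_eq (F.D U) (F.D U')
  rw [sup_top F h hU hU' hne, finrank_top, finrank_V4] at h9
  refine ⟨(Submodule.eq_of_le_of_finrank_le (F.D_le_Y U) (by omega)).symm, ?_, by omega⟩
  rw [disjoint_iff]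
  exact Submodule.finrank_eq_zero.1 (by omega)

theorem dim_two (hP : IsPGroup p P) (h : IsPCP (Nat.card P) 𝒰) (hc : 3 ≤ 𝒰.card)
    {U : Subgroup (P × P)} (hU : U ∈ 𝒰) : Module.finrank (ZMod p) (F.D U) = 2 := by
  obtain ⟨U', hU', U'', hU'', hne', hne'', hne⟩ := others hc U
  have h1 := (pair_dim F hP h hc hU hU' hne'.symm).2.2
  have h2 := (pair_dim F hP h hc hU hU'' hne''.symm).2.2
  have h3 := (pair_dim F hP h hc hU' hU'' hne).2.2
  omega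

omit [Finite P] hp in
/-- the commutators of a member -/
theorem comm_mem (F : Frame p P) {U : Subgroup (P × P)} {u v : P × P} (hu : u ∈ U) (hv : v ∈ U) :
    (F.z ^ (dt (F.pi u.1) (F.pi v.1)).val, F.z ^ (dt (F.pi u.2) (F.pi v.2)).val) ∈ U := by
  have h1 : ((v * u)⁻¹ * (u * v)) ^ F.f ∈ U :=
    pow_mem (mul_mem (inv_mem (mul_mem hv hu)) (mul_mem hu hv)) _
  rw [← F.comm, ← F.comm]
  exact h1

theorem closed (hP : IsPGroup p P) (h : IsPCP (Nat.card P) 𝒰) (hc : 3 ≤ 𝒰.card)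
    {U : Subgroup (P × P)} (hU : U ∈ 𝒰) : ∀ x ∈ F.D U, ∀ y ∈ F.D U,
    (dt x.1 y.1 • F.lam F.z, dt x.2 y.2 • F.lam F.z) ∈ F.D U := by
  obtain ⟨U', hU', -, -, hne', -, -⟩ := others hc U
  rw [← (pair_dim F hP h hc hU hU' hne'.symm).1]
  have h1 : ∀ x ∈ F.D U, ∀ y ∈ F.D U,
      (dt x.1 y.1 • F.lam F.z, dt x.2 y.2 • F.lam F.z) ∈ F.Y U := by
    rintro x ⟨u, hu, rfl⟩ y ⟨v, hv, rfl⟩
    refine ⟨_, comm_mem F hu hv, pow_mem F.z_mem _, pow_mem F.z_mem _, ?_⟩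
    have h2 : ∀ t : ZMod p, F.lam (F.z ^ t.val) = t • F.lam F.z := by
      intro t
      rw [F.lam_npow F.z_mem, ← Nat.cast_smul_eq_nsmul (ZMod p), ZMod.natCast_zmod_val]
    exact Prod.ext (h2 _) (h2 _)
  rw [(pair_dim F hP h hc hU hU' hne'.symm).1] at h1 ⊢
  exact h1

omit [Finite P] in
/-- `w ^ κ` in both `U` and `U'` vanishes -/
theorem kp_both (h : IsPCP (Nat.card P) 𝒰) (hk : 0 < F.k) {U U' : Subgroup (P × P)} (hU : U ∈ 𝒰)
    (hU' : U' ∈ 𝒰) (hne : U ≠ U') {s t : ZMod p} (h1 : (F.w ^ s.val, F.w ^ t.val) ∈ U)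
    (h2 : (F.w ^ s.val, F.w ^ t.val) ∈ U') : s = 0 ∧ t = 0 := by
  have hmem : (F.w ^ s.val, F.w ^ t.val) ∈ U ⊓ U' := Subgroup.mem_inf.2 ⟨h1, h2⟩
  rw [h.2 U hU U' hU' hne, Subgroup.mem_bot] at hmem
  have h3 : F.w ^ s.val = F.w ^ (0 : ZMod p).val := by
    have := congrArg Prod.fst hmem
    simpa using this
  have h4 : F.w ^ t.val = F.w ^ (0 : ZMod p).val := by
    have := congrArg Prod.snd hmem
    simpa using this
  exact ⟨F.w_inj hk h3, F.w_inj hk h4⟩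

theorem kp_disj (h : IsPCP (Nat.card P) 𝒰) (hk : 0 < F.k) {U U' : Subgroup (P × P)} (hU : U ∈ 𝒰)
    (hU' : U' ∈ 𝒰) (hne : U ≠ U') : ∀ x ∈ F.D U, ∀ y ∈ F.D U',
    (kp F.κ x.1, kp F.κ x.2) = (kp F.κ y.1, kp F.κ y.2) → (kp F.κ x.1, kp F.κ x.2) = 0 := by
  rintro x ⟨u, hu, rfl⟩ y ⟨v, hv, rfl⟩ heq
  have h1 : u ^ p ^ (F.e + F.k) ∈ U := pow_mem hu _
  have h2 : v ^ p ^ (F.e + F.k) ∈ U' := pow_mem hv _
  rw [F.pow_kp hk] at h1 h2
  have e1 : kp F.κ (F.pi u.1) = kp F.κ (F.pi v.1) := congrArg Prod.fst heq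
  have e2 : kp F.κ (F.pi u.2) = kp F.κ (F.pi v.2) := congrArg Prod.snd heq
  rw [← e1, ← e2] at h2
  have h3 := kp_both F h hk hU hU' hne h1 h2
  exact Prod.ext h3.1 h3.2

/-- the case `z ∈ N` -/
theorem closed' (h : IsPCP (Nat.card P) 𝒰) (hc : 3 ≤ 𝒰.card) (hk : 0 < F.k)
    (hz : F.lam F.z = 0) {U : Subgroup (P × P)} (hU : U ∈ 𝒰) : ∀ x ∈ F.D U, ∀ y ∈ F.D U,
    ∃ t ∈ F.D U, kp F.κ t.1 = dt x.1 y.1 ∧ kp F.κ t.2 = dt x.2 y.2 := by
  obtain ⟨U', hU', -, -, hne', -, -⟩ := others hc U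
  rintro x ⟨u, hu, rfl⟩ y ⟨v, hv, rfl⟩
  obtain ⟨j, hj⟩ := F.z_w hk hz
  have hzu := comm_mem F hu hv
  obtain ⟨s1, hs1⟩ := Frame.kp_surj (F.κ_ne hk) (dt (F.pi u.1) (F.pi v.1))
  obtain ⟨s2, hs2⟩ := Frame.kp_surj (F.κ_ne hk) (dt (F.pi u.2) (F.pi v.2))
  obtain ⟨x1, hx1⟩ := F.pi_surj s1
  obtain ⟨x2, hx2⟩ := F.pi_surj s2
  obtain ⟨t, ht, t', ht', htt⟩ := fac h hU hU' hne'.symm (x1, x2)
  have e1 : F.pi t.1 + F.pi t'.1 = s1 := by
    rw [← F.pi_mul, ← hx1]; exact congrArg F.pi (congrArg Prod.fst htt)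
  have e2 : F.pi t.2 + F.pi t'.2 = s2 := by
    rw [← F.pi_mul, ← hx2]; exact congrArg F.pi (congrArg Prod.snd htt)
  rw [← e1, Frame.kp_add] at hs1
  rw [← e2, Frame.kp_add] at hs2
  have h2 : t' ^ p ^ (F.e + F.k) ∈ U' := pow_mem ht' _
  have h3 : t ^ p ^ (F.e + F.k) ∈ U := pow_mem ht _
  have h1 : t' ^ p ^ (F.e + F.k) ∈ U := by
    have h4 := mul_mem (inv_mem h3) (pow_mem hzu j)
    have key : ∀ a b c : ZMod p, a + b = c → (F.w ^ a.val)⁻¹ * (F.z ^ c.val) ^ j = F.w ^ b.val := by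
      intro a b c habc
      have hw := F.w_pow hk
      have h5 : (F.z ^ c.val) ^ j = F.w ^ c.val := by rw [← pow_mul, mul_comm, pow_mul, ← hj]
      rw [h5, inv_mul_eq_iff_eq_mul, ← pow_add]
      symm
      apply pow_eq_val hw
      push_cast
      rw [ZMod.natCast_zmod_val, ZMod.natCast_zmod_val, habc]
    have h6 : (t ^ p ^ (F.e + F.k))⁻¹ * (F.z ^ (dt (F.pi u.1) (F.pi v.1)).val,
        F.z ^ (dt (F.pi u.2) (F.pi v.2)).val) ^ j = t' ^ p ^ (F.e + F.k) := by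
      rw [F.pow_kp hk, F.pow_kp hk]
      exact Prod.ext (key _ _ _ hs1) (key _ _ _ hs2)
    rw [← h6]
    exact h4
  rw [F.pow_kp hk] at h1 h2
  have h7 := kp_both F h hk hU hU' hne'.symm h1 h2
  refine ⟨(F.pi t.1, F.pi t.2), ⟨t, ht, rfl⟩, ?_, ?_⟩
  · rw [← hs1, h7.1, add_zero]
  · rw [← hs2, h7.2, add_zero]

omit [Finite P] in
theorem lam_z_ne (hk : F.k = 0) : F.lam F.z ≠ 0 := by
  intro h0
  have h1 := F.card_N
  rw [hk, pow_zero, Subgroup.card_eq_one] at h1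
  have h2 : F.z ∈ F.N := ⟨F.z_mem, h0⟩
  rw [h1, Subgroup.mem_bot] at h2
  exact F.z_ne h2

end PCP

end Pool.Agent.MC
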