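import Pool.Agent.MC.Base

/-!
# Metacyclic `p`-groups (problem MP_47f3f4_co): the endomorphism `b ^ v a ^ u ↦ a ^ v`
-/

set_option autoImplicit false

namespace Pool.Agent.MC

theorem exists_shift {P : Type} [Group P] {a b : P} {r : ℕ} (hab : a * b = b * a ^ r)
    (hgen : ∀ x : P, ∃ v u : ℕ, x = b ^ v * a ^ u)
    (hinf : Subgroup.zpowers b ⊓ Subgroup.zpowers a = ⊥) (hord : orderOf a = orderOf b) :
    ∃ h : P →* P, ∀ v u : ℕ, h (b ^ v * a ^ u) = a ^ v := by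
  have hwd : ∀ v u v' u' : ℕ, b ^ v * a ^ u = b ^ v' * a ^ u' → a ^ v = a ^ v' := by
    intro v u v' u' h
    have h1 : (b ^ v')⁻¹ * b ^ v = a ^ u' * (a ^ u)⁻¹ := by
      rw [eq_mul_inv_iff_mul_eq, mul_assoc, h]
      group
    have h2 : (b ^ v')⁻¹ * b ^ v ∈ Subgroup.zpowers b ⊓ Subgroup.zpowers a := by
      refine ⟨?_, ?_⟩
      · exact Subgroup.mul_mem _ (Subgroup.inv_mem _ (Subgroup.npow_mem_zpowers b v'))
          (Subgroup.npow_mem_zpowers b v)
      · show (b ^ v')⁻¹ * b ^ v ∈ Subgroup.zpowers a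
        rw [h1]
        exact Subgroup.mul_mem _ (Subgroup.npow_mem_zpowers a u')
          (Subgroup.inv_mem _ (Subgroup.npow_mem_zpowers a u))
    rw [hinf, Subgroup.mem_bot] at h2
    have h3 : b ^ v = b ^ v' := by
      rw [inv_mul_eq_one] at h2
      exact h2.symm
    rw [pow_eq_pow_iff_modEq] at h3 ⊢
    rwa [hord]
  choose V U hVU using hgen
  refine ⟨MonoidHom.mk' (fun x => a ^ V x) ?_, ?_⟩
  · intro x y
    have h1 : b ^ V (x * y) * a ^ U (x * y) =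
        b ^ (V x + V y) * a ^ (U x * r ^ V y + U y) := by
      rw [← hVU (x * y), ← mul_form hab, ← hVU x, ← hVU y]
    rw [hwd _ _ _ _ h1, pow_add]
  · intro v u
    show a ^ V (b ^ v * a ^ u) = a ^ v
    exact hwd _ _ _ _ (hVU (b ^ v * a ^ u)).symm

/-- if `|P| = |a| |b|` the two cyclic subgroups meet trivially -/
theorem inf_bot_of_card {P : Type} [Group P] [Finite P] {a b : P}
    (hgen : ∀ x : P, ∃ v u : ℕ, x = b ^ v * a ^ u) {q : ℕ} (ha : orderOf a = q)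
    (hb : orderOf b = q) (hcard : Nat.card P = q * q) :
    Subgroup.zpowers b ⊓ Subgroup.zpowers a = ⊥ := by
  have hq : 0 < q := by rw [← ha]; exact orderOf_pos a
  let f : Fin q × Fin q → P := fun i => b ^ (i.1 : ℕ) * a ^ (i.2 : ℕ)
  have hs : Function.Surjective f := by
    intro x
    obtain ⟨v, u, rfl⟩ := hgen x
    refine ⟨(⟨v % q, Nat.mod_lt _ hq⟩, ⟨u % q, Nat.mod_lt _ hq⟩), ?_⟩
    show b ^ (v % q) * a ^ (u % q) = _
    rw [← hb, pow_mod_orderOf, hb, ← ha, pow_mod_orderOf]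
  have hi : Function.Injective f := by
    have hc : Nat.card (Fin q × Fin q) = Nat.card P := by rw [hcard]; simp
    exact ((Nat.bijective_iff_surjective_and_card f).mpr ⟨hs, hc⟩).1
  rw [Subgroup.eq_bot_iff_forall]
  rintro x ⟨hx1, hx2⟩
  have hx1' : x ∈ Subgroup.zpowers b := hx1
  have hx2' : x ∈ Subgroup.zpowers a := hx2
  rw [← mem_powers_iff_mem_zpowers] at hx1' hx2'
  obtain ⟨v, hv⟩ := hx1'
  obtain ⟨u, hu⟩ := hx2'
  have hv' : b ^ v = x := hv
  have hu' : a ^ u = x := hu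
  have h1 : f (⟨v % q, Nat.mod_lt _ hq⟩, ⟨0, hq⟩) = f (⟨0, hq⟩, ⟨u % q, Nat.mod_lt _ hq⟩) := by
    show b ^ (v % q) * a ^ 0 = b ^ 0 * a ^ (u % q)
    rw [← hb, pow_mod_orderOf, hb, ← ha, pow_mod_orderOf, hv', hu']
    simp
  have h2 := hi h1
  have h3 : v % q = 0 := by
    have := congrArg (fun t => (t.1 : ℕ)) h2
    simpa using this
  rw [← hv', ← pow_mod_orderOf, hb, h3, pow_zero]

theorem exists_shift_card {P : Type} [Group P] [Finite P] {a b : P} {r : ℕ}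
    (hab : a * b = b * a ^ r) (hgen : ∀ x : P, ∃ v u : ℕ, x = b ^ v * a ^ u) {q : ℕ}
    (ha : orderOf a = q) (hb : orderOf b = q) (hcard : Nat.card P = q * q) :
    ∃ h : P →* P, ∀ v u : ℕ, h (b ^ v * a ^ u) = a ^ v :=
  exists_shift hab hgen (inf_bot_of_card hgen ha hb hcard) (by rw [ha, hb])

end Pool.Agent.MC
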