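import Pool.Agent.Helper19.PCPBound

/-!
Metacyclic `2`-groups `⟨a⟩ · ⟨b⟩`, `⟨a⟩` normal, `b⁻¹ a b = a ^ r` with `r = 3` modulo `4`:
normal form, the subgroups `N = ⟨b², a⟩`, `M = ⟨b, a²⟩`, `F = N ∩ M`, commutators and powers.
-/

set_option autoImplicit false

namespace Pool.Agent.MC50

open Subgroup

variable {P : Type} [Group P]

/-- `⟨a⟩` is normal, `P = ⟨a, b⟩`, `b⁻¹ a b = a ^ r`, `r = 3` modulo `4`, `4 ∣ |a|`. -/
structure Data (a b : P) (r : ℕ) : Prop where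
  norm : (zpowers a).Normal
  gen : closure {a, b} = ⊤
  rel : b⁻¹ * a * b = a ^ r
  r4 : r % 4 = 3
  four : 4 ∣ orderOf a

section

variable {a b : P} {r : ℕ}

theorem conj_zpow (D : Data a b r) (i : ℤ) : b⁻¹ * a ^ i * b = a ^ (i * r) := by
  have h : b⁻¹ * a ^ i * b = (b⁻¹ * a * b) ^ i := by
    have := map_zpow (MulAut.conj b⁻¹) a i
    simpa [MulAut.conj_apply] using this
  rw [h, D.rel, ← zpow_natCast, ← zpow_mul, mul_comm]

theorem a_b (D : Data a b r) (i : ℤ) (j : ℕ) : a ^ i * b ^ j = b ^ j * a ^ (i * (r : ℤ) ^ j) := by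
  induction j generalizing i with
  | zero => simp
  | succ j ih =>
    have h := conj_zpow D (i * (r : ℤ) ^ j)
    rw [pow_succ, ← mul_assoc, ih, mul_assoc, mul_assoc]
    congr 1
    have h2 : a ^ (i * (r : ℤ) ^ j) * b = b * a ^ (i * (r : ℤ) ^ j * r) := by
      rw [← h]; group
    rw [h2, pow_succ]; congr 2; ring

theorem mulf (D : Data a b r) (j l : ℕ) (i k : ℤ) :
    (b ^ j * a ^ i) * (b ^ l * a ^ k) = b ^ (j + l) * a ^ (i * (r : ℤ) ^ l + k) := by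
  rw [mul_assoc, ← mul_assoc (a ^ i), a_b D, pow_add, zpow_add]
  group

theorem rep [Finite P] (D : Data a b r) (x : P) : ∃ j : ℕ, ∃ i : ℤ, x = b ^ j * a ^ i := by
  have := D.norm
  have h1 : zpowers b ⊔ zpowers a = ⊤ := by
    rw [← D.gen, sup_comm, zpowers_eq_closure, zpowers_eq_closure, ← Subgroup.closure_union]
    rfl
  have h2 : x ∈ ((zpowers b ⊔ zpowers a : Subgroup P) : Set P) := by rw [h1]; trivial
  rw [mul_normal] at h2
  obtain ⟨y, hy, z, hz, rfl⟩ := h2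
  have hy' : y ∈ Submonoid.powers b := (mem_powers_iff_mem_zpowers).2 hy
  obtain ⟨j, rfl⟩ := hy'
  obtain ⟨i, rfl⟩ := hz
  exact ⟨j, i, rfl⟩

/-- powers of `r` modulo `4` -/
theorem r_pow_even (D : Data a b r) {j : ℕ} (hj : Even j) : ∃ m : ℤ, (r : ℤ) ^ j = 8 * m + 1 := by
  obtain ⟨k, rfl⟩ := hj
  obtain ⟨s, hs⟩ : ∃ s : ℤ, (r : ℤ) = 4 * s + 3 := ⟨(r / 4 : ℕ), by have := D.r4; push_cast; omega⟩
  have h2 : ∃ m : ℤ, (r : ℤ) ^ 2 = 8 * m + 1 := ⟨2 * s ^ 2 + 3 * s + 1, by rw [hs]; ring⟩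
  obtain ⟨m, hm⟩ := h2
  have h3 : ∀ k : ℕ, ∃ m : ℤ, ((r : ℤ) ^ 2) ^ k = 8 * m + 1 := by
    intro k
    induction k with
    | zero => exact ⟨0, by simp⟩
    | succ k ih =>
      obtain ⟨t, ht⟩ := ih
      exact ⟨8 * t * m + t + m, by rw [pow_succ, ht, hm]; ring⟩
  obtain ⟨t, ht⟩ := h3 k
  exact ⟨t, by rw [← ht, ← pow_mul]; congr 1; ring⟩

theorem r_pow_odd (D : Data a b r) {j : ℕ} (hj : Odd j) : ∃ m : ℤ, (r : ℤ) ^ j = 4 * m + 3 := by
  obtain ⟨k, rfl⟩ := hj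
  obtain ⟨s, hs⟩ : ∃ s : ℤ, (r : ℤ) = 4 * s + 3 := ⟨(r / 4 : ℕ), by have := D.r4; push_cast; omega⟩
  obtain ⟨t, ht⟩ := r_pow_even D (even_two_mul k)
  exact ⟨8 * t * s + 6 * t + s, by rw [pow_succ, ht, hs]; ring⟩

theorem ord_dvd (D : Data a b r) {m : ℤ} (h : a ^ m = 1) : (4 : ℤ) ∣ m :=
  (Int.natCast_dvd_natCast.2 D.four).trans (orderOf_dvd_iff_zpow_eq_one.2 h)

/-- `a ^ i` commutes with `b` only for even `i` -/
theorem even_of_comm (D : Data a b r) {i : ℤ} (h : a ^ i * b = b * a ^ i) : Even i := by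
  have h1 := conj_zpow D i
  have h2 : b⁻¹ * a ^ i * b = a ^ i := by rw [mul_assoc, h]; group
  rw [h2] at h1
  have h3 : a ^ (i * r - i) = 1 := by rw [zpow_sub, ← h1]; group
  have h4 := ord_dvd D h3
  obtain ⟨s, hs⟩ : ∃ s : ℤ, (r : ℤ) = 4 * s + 3 := ⟨(r / 4 : ℕ), by have := D.r4; push_cast; omega⟩
  rw [hs] at h4
  rw [Int.even_iff]
  obtain ⟨c, hc⟩ := h4
  have : i * (4 * s + 3) - i = 4 * (i * s) + 2 * i := by ring
  omega

theorem a_b_ne (D : Data a b r) : a * b ≠ b * a := by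
  intro h
  have h1 : a ^ (1 : ℤ) * b = b * a ^ (1 : ℤ) := by simpa using h
  have := even_of_comm D h1
  exact absurd this (by decide)

/-- the normal subgroup `⟨a²⟩` -/
theorem norm2 (D : Data a b r) : (zpowers (a ^ 2)).Normal := by
  constructor
  intro n hn g
  obtain ⟨k, rfl⟩ := hn
  obtain ⟨s, hs⟩ := D.norm.conj_mem a (mem_zpowers a) g
  refine ⟨s * k, ?_⟩
  have h1 : g * (a ^ 2) ^ k * g⁻¹ = (g * a * g⁻¹) ^ (2 * k : ℤ) := by
    have := map_zpow (MulAut.conj g) a (2 * k)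
    simp only [MulAut.conj_apply] at this
    rw [← this, zpow_mul]; norm_cast
  change (a ^ 2) ^ (s * k) = _
  rw [h1, ← hs]
  change (a ^ 2) ^ (s * k) = (a ^ s) ^ (2 * k)
  rw [← zpow_natCast, ← zpow_mul, ← zpow_mul]
  congr 1
  push_cast; ring

/-- `N = ⟨b², a⟩` -/
def N (a b : P) : Subgroup P := zpowers (b ^ 2) ⊔ zpowers a

/-- `M = ⟨b, a²⟩` -/
def M (a b : P) : Subgroup P := zpowers b ⊔ zpowers (a ^ 2)

theorem mem_N' [Finite P] (D : Data a b r) (x : P) :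
    x ∈ N a b ↔ ∃ j : ℕ, ∃ i : ℤ, x = b ^ (2 * j) * a ^ i := by
  have := D.norm
  rw [N, ← SetLike.mem_coe, mul_normal]
  constructor
  · rintro ⟨y, hy, z, hz, rfl⟩
    obtain ⟨j, rfl⟩ := (mem_powers_iff_mem_zpowers).2 hy
    obtain ⟨i, rfl⟩ := hz
    exact ⟨j, i, by simp [pow_mul]⟩
  · rintro ⟨j, i, rfl⟩
    exact ⟨b ^ (2 * j), ⟨j, by simp [pow_mul]⟩, a ^ i, ⟨i, rfl⟩, rfl⟩

theorem mem_M' [Finite P] (D : Data a b r) (x : P) :
    x ∈ M a b ↔ ∃ j : ℕ, ∃ i : ℤ, x = b ^ j * a ^ (2 * i) := by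
  have := norm2 D
  rw [M, ← SetLike.mem_coe, mul_normal]
  constructor
  · rintro ⟨y, hy, z, hz, rfl⟩
    obtain ⟨j, rfl⟩ := (mem_powers_iff_mem_zpowers).2 hy
    obtain ⟨i, rfl⟩ := hz
    refine ⟨j, i, ?_⟩
    change b ^ j * (a ^ 2) ^ i = _
    rw [zpow_mul]; norm_cast
  · rintro ⟨j, i, rfl⟩
    refine ⟨b ^ j, ⟨j, by simp⟩, a ^ (2 * i), ⟨i, ?_⟩, rfl⟩
    change (a ^ 2) ^ i = _
    rw [zpow_mul]; norm_cast

theorem a_not_mem [Finite P] (D : Data a b r) : a ∉ M a b := by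
  rw [mem_M' D]
  rintro ⟨j, i, h⟩
  have h1 : b ^ j = a ^ (1 - 2 * i) := by
    rw [zpow_sub, zpow_one]; exact eq_mul_inv_of_mul_eq h.symm
  have h2 : a ^ (1 - 2 * i) * b = b * a ^ (1 - 2 * i) := by
    rw [← h1, ← pow_succ, pow_succ']
  have := even_of_comm D h2
  rw [Int.even_iff] at this
  omega

theorem b_not_mem [Finite P] (hP : IsPGroup 2 P) (D : Data a b r) : b ∉ N a b := by
  rw [mem_N' D]
  rintro ⟨j, i, h⟩
  have h1 : b ^ (1 - 2 * j : ℤ) = a ^ i := by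
    have h2 : b ^ (2 * j : ℤ) * a ^ i = b := by
      have h3 := h.symm
      rw [← zpow_natCast] at h3
      exact_mod_cast h3
    rw [zpow_sub, zpow_one]
    calc b * (b ^ (2 * j : ℤ))⁻¹ = (b ^ (2 * j : ℤ))⁻¹ * b := by
          rw [← zpow_neg]; exact (Commute.self_zpow b _).eq
      _ = a ^ i := by rw [inv_mul_eq_iff_eq_mul]; exact h2.symm
  have : Fact (Nat.Prime 2) := ⟨Nat.prime_two⟩
  obtain ⟨m, hm⟩ := IsPGroup.iff_orderOf.1 hP b
  have h4 : b ∈ zpowers (b ^ (1 - 2 * j : ℤ)) := by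
    rw [mem_zpowers_zpow_iff, hm, ← Int.isCoprime_iff_gcd_eq_one]
    push_cast
    exact IsCoprime.pow_right ⟨1, j, by ring⟩
  rw [h1] at h4
  obtain ⟨t, ht⟩ := h4
  refine a_b_ne D ?_
  rw [← ht]
  change a * (a ^ i) ^ t = (a ^ i) ^ t * a
  rw [← zpow_mul]
  exact (Commute.self_zpow a _).eq

theorem mem_N [Finite P] (hP : IsPGroup 2 P) (D : Data a b r) (j : ℕ) (i : ℤ) :
    b ^ j * a ^ i ∈ N a b ↔ Even j := by
  have hA : ∀ i : ℤ, a ^ i ∈ N a b := fun i => (le_sup_right : zpowers a ≤ N a b) ⟨i, rfl⟩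
  rw [Subgroup.mul_mem_cancel_right _ (hA i)]
  have hB : ∀ k : ℕ, b ^ (2 * k) ∈ N a b := fun k =>
    (le_sup_left : zpowers (b ^ 2) ≤ N a b) ⟨k, by simp [pow_mul]⟩
  constructor
  · intro h
    by_contra ho
    rw [Nat.not_even_iff_odd] at ho
    obtain ⟨k, rfl⟩ := ho
    rw [pow_succ, Subgroup.mul_mem_cancel_left _ (hB k)] at h
    exact b_not_mem hP D h
  · rintro ⟨k, rfl⟩
    rw [← two_mul]
    exact hB k

theorem mem_M [Finite P] (D : Data a b r) (j : ℕ) (i : ℤ) :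
    b ^ j * a ^ i ∈ M a b ↔ Even i := by
  have hB : ∀ j : ℕ, b ^ j ∈ M a b := fun j => (le_sup_left : zpowers b ≤ M a b) ⟨j, by simp⟩
  rw [Subgroup.mul_mem_cancel_left _ (hB j)]
  have hA : ∀ k : ℤ, a ^ (2 * k) ∈ M a b := fun k =>
    (le_sup_right : zpowers (a ^ 2) ≤ M a b) ⟨k, by
      change (a ^ 2) ^ k = _
      rw [zpow_mul]; norm_cast⟩
  constructor
  · intro h
    by_contra ho
    rw [Int.not_even_iff_odd] at ho
    obtain ⟨k, rfl⟩ := ho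
    rw [zpow_add, zpow_one, Subgroup.mul_mem_cancel_left _ (hA k)] at h
    exact a_not_mem D h
  · rintro ⟨k, rfl⟩
    rw [← two_mul]
    exact hA k

/-- `F = N ∩ M` -/
def F (a b : P) : Subgroup P := N a b ⊓ M a b

theorem mem_F [Finite P] (hP : IsPGroup 2 P) (D : Data a b r) (j : ℕ) (i : ℤ) :
    b ^ j * a ^ i ∈ F a b ↔ Even j ∧ Even i := by
  rw [F, Subgroup.mem_inf, mem_N hP D, mem_M D]

theorem mul_mem_N [Finite P] (hP : IsPGroup 2 P) (D : Data a b r) (x y : P) (hx : x ∉ N a b)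
    (hy : y ∉ N a b) : x * y ∈ N a b := by
  obtain ⟨j, i, rfl⟩ := rep D x
  obtain ⟨l, k, rfl⟩ := rep D y
  rw [mem_N hP D] at hx hy
  rw [mulf D, mem_N hP D]
  rw [Nat.not_even_iff_odd] at hx hy
  exact hx.add_odd hy

theorem r_odd (D : Data a b r) (l : ℕ) : Odd ((r : ℤ) ^ l) := by
  apply Odd.pow
  have := D.r4
  rw [Int.odd_iff]; omega

theorem mul_mem_M [Finite P] (D : Data a b r) (x y : P) (hx : x ∉ M a b)
    (hy : y ∉ M a b) : x * y ∈ M a b := by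
  obtain ⟨j, i, rfl⟩ := rep D x
  obtain ⟨l, k, rfl⟩ := rep D y
  rw [mem_M D] at hx hy
  rw [mulf D, mem_M D]
  rw [Int.not_even_iff_odd] at hx hy
  exact (hx.mul (r_odd D l)).add_odd hy

theorem index_N [Finite P] (hP : IsPGroup 2 P) (D : Data a b r) : (N a b).index = 2 := by
  rw [index_eq_two_iff]
  refine ⟨b, fun x => ?_⟩
  by_cases hx : x ∈ N a b
  · right
    refine ⟨hx, fun h => b_not_mem hP D ((Subgroup.mul_mem_cancel_left _ hx).1 h)⟩
  · left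
    exact ⟨mul_mem_N hP D x b hx (b_not_mem hP D), hx⟩

theorem index_M [Finite P] (D : Data a b r) : (M a b).index = 2 := by
  rw [index_eq_two_iff]
  refine ⟨a, fun x => ?_⟩
  by_cases hx : x ∈ M a b
  · right
    refine ⟨hx, fun h => a_not_mem D ((Subgroup.mul_mem_cancel_left _ hx).1 h)⟩
  · left
    exact ⟨mul_mem_M D x a hx (a_not_mem D), hx⟩

theorem normN [Finite P] (hP : IsPGroup 2 P) (D : Data a b r) : (N a b).Normal :=
  Subgroup.normal_of_index_eq_two (index_N hP D)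

theorem normM [Finite P] (D : Data a b r) : (M a b).Normal :=
  Subgroup.normal_of_index_eq_two (index_M D)

theorem normF [Finite P] (hP : IsPGroup 2 P) (D : Data a b r) : (F a b).Normal := by
  have := normN hP D
  have := normM D
  exact Subgroup.normal_inf_normal _ _

theorem index_F [Finite P] (hP : IsPGroup 2 P) (D : Data a b r) : (F a b).index = 4 := by
  have h1 : (F a b).relIndex (N a b) = 2 := by
    rw [F, inf_comm, Subgroup.inf_relIndex_right]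
    rw [Subgroup.relIndex, index_eq_two_iff]
    have haN : a ∈ N a b := (le_sup_right : zpowers a ≤ N a b) (mem_zpowers a)
    refine ⟨⟨a, haN⟩, fun x => ?_⟩
    simp only [Subgroup.mem_subgroupOf]
    by_cases hx : (x : P) ∈ M a b
    · right
      refine ⟨hx, fun h => a_not_mem D ((Subgroup.mul_mem_cancel_left _ hx).1 h)⟩
    · left
      exact ⟨mul_mem_M D x a hx (a_not_mem D), hx⟩
  have h2 : (F a b).relIndex (N a b) * (N a b).index = (F a b).index :=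
    Subgroup.relIndex_mul_index (inf_le_left : F a b ≤ N a b)
  rw [h1, index_N hP D] at h2
  exact h2.symm

/-- the commutator `(y x)⁻¹ (x y)` in normal form -/
theorem comm_eq (D : Data a b r) (j l : ℕ) (i k : ℤ) :
    ((b ^ l * a ^ k) * (b ^ j * a ^ i))⁻¹ * ((b ^ j * a ^ i) * (b ^ l * a ^ k)) =
      a ^ (i * ((r : ℤ) ^ l - 1) - k * ((r : ℤ) ^ j - 1)) := by
  rw [mulf D, mulf D, add_comm l j]
  have : (i * ((r : ℤ) ^ l - 1) - k * ((r : ℤ) ^ j - 1)) =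
    -(k * (r : ℤ) ^ j + i) + (i * (r : ℤ) ^ l + k) := by ring
  rw [this, mul_inv_rev, mul_assoc, inv_mul_cancel_left, ← zpow_neg, ← zpow_add]

/-- the commutator lies in `⟨a²⟩` -/
theorem comm_even (D : Data a b r) (l j : ℕ) (i k : ℤ) :
    ∃ c : ℤ, i * ((r : ℤ) ^ l - 1) - k * ((r : ℤ) ^ j - 1) = 2 * (i * l + k * j) + 4 * c := by
  have h : ∀ l : ℕ, ∃ c : ℤ, (r : ℤ) ^ l - 1 = 2 * l + 4 * c := by
    intro l
    rcases Nat.even_or_odd l with hl | hl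
    · obtain ⟨m, hm⟩ := r_pow_even D hl
      obtain ⟨t, rfl⟩ := hl
      exact ⟨2 * m - t, by rw [hm]; push_cast; ring⟩
    · obtain ⟨m, hm⟩ := r_pow_odd D hl
      obtain ⟨t, rfl⟩ := hl
      exact ⟨m - t, by rw [hm]; push_cast; ring⟩
  obtain ⟨c, hc⟩ := h l
  obtain ⟨d, hd⟩ := h j
  exact ⟨i * c - k * d - k * j, by rw [hc, hd]; ring⟩

/-- powers: elements over even powers of `b` -/
theorem pow_even (D : Data a b r) (k : ℕ) {j : ℕ} (hj : Even j) (i : ℤ) :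
    ∃ o : ℤ, Odd o ∧ (b ^ j * a ^ i) ^ (2 ^ k) = b ^ (2 ^ k * j) * a ^ (2 ^ k * i * o) := by
  induction k with
  | zero => exact ⟨1, by decide, by simp⟩
  | succ k ih =>
    obtain ⟨o, ho, h⟩ := ih
    have hj2 : Even (2 ^ k * j) := hj.mul_left _
    obtain ⟨m, hm⟩ := r_pow_even D hj2
    refine ⟨o * (4 * m + 1), ho.mul ⟨2 * m, by ring⟩, ?_⟩
    rw [pow_succ, pow_mul, h, pow_two, mulf D, hm]
    congr 2 <;> ring

/-- powers: elements over odd powers of `b` -/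
theorem pow_odd (D : Data a b r) (k : ℕ) {j : ℕ} (hj : Odd j) (i : ℤ) :
    ∃ c : ℤ, (b ^ j * a ^ i) ^ (2 ^ (k + 1)) = b ^ (2 ^ (k + 1) * j) * a ^ (2 ^ (k + 2) * c) := by
  obtain ⟨m, hm⟩ := r_pow_odd D hj
  have h1 : (b ^ j * a ^ i) ^ 2 = b ^ (j + j) * a ^ (4 * (i * (m + 1))) := by
    rw [pow_two, mulf D, hm]; congr 2; ring
  obtain ⟨o, ho, h⟩ := pow_even D k (⟨j, rfl⟩ : Even (j + j)) (4 * (i * (m + 1)))
  refine ⟨i * (m + 1) * o, ?_⟩
  rw [pow_succ', pow_mul, h1, h]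
  congr 2 <;> ring

end

end Pool.Agent.MC50
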