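import Pool.Agent.MC.Two50a

/-!
Metacyclic `2`-groups with `b⁻¹ a b = a ^ r`, `r = 3` modulo `4`: the images of the members of a
partial congruence partition in `(P / F)²`.
-/

set_option autoImplicit false

namespace Pool.Agent.MC50

open Subgroup

theorem relIndex_le_two {G : Type} [Group G] {H K : Subgroup G}
    (h : ∀ x ∈ K, ∀ y ∈ K, x ∈ H ∨ y ∈ H ∨ x * y ∈ H) : H.relIndex K ≤ 2 := by
  by_cases hK : K ≤ H
  · rw [relIndex_eq_one.2 hK]; norm_num
  · obtain ⟨g, hg, hgH⟩ := SetLike.not_le_iff_exists.1 hK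
    refine le_of_eq (relIndex_eq_two_iff_exists_notMem_and.2 ⟨g, hg, hgH, fun x hx => ?_⟩)
    rcases h x hx g hg with h1 | h1 | h1
    · exact Or.inr h1
    · exact absurd h1 hgH
    · exact Or.inl h1

theorem card_relIndex {G : Type} [Group G] [Finite G] (H K : Subgroup G) :
    Nat.card (H ⊓ K : Subgroup G) * H.relIndex K = Nat.card K := by
  have h := relIndex_mul_relIndex (⊥ : Subgroup G) (H ⊓ K) K bot_le inf_le_right
  rwa [relIndex_bot_left, relIndex_bot_left, inf_relIndex_right] at h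

/-- Two subgroups with product `G`, of index at most `m` over a normal subgroup `K` of index
`m ^ 2`, have disjoint images modulo `K`. -/
theorem disj_gen {G : Type} [Group G] [Finite G] {K U V : Subgroup G} [K.Normal] {m : ℕ}
    (hK : K.index = m * m) (hm : 0 < m) (hc : ∀ g : G, ∃ u ∈ U, ∃ v ∈ V, u * v = g)
    (hU : K.relIndex U ≤ m) (hV : K.relIndex V ≤ m) :
    K.relIndex U = m ∧ ∀ u ∈ U, ∀ v ∈ V, u⁻¹ * v ∈ K → u ∈ K := by
  classical
  set π := QuotientGroup.mk' K with hπ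
  have hk : π.ker = K := QuotientGroup.ker_mk' K
  have cU : Nat.card (U.map π) = K.relIndex U := by rw [← relIndex_ker, hk]
  have cV : Nat.card (V.map π) = K.relIndex V := by rw [← relIndex_ker, hk]
  have cQ : Nat.card (G ⧸ K) = m * m := by rw [← hK]; rfl
  let f : (U.map π) × (V.map π) → G ⧸ K := fun x => (x.1 : G ⧸ K) * x.2
  have hf : Function.Surjective f := by
    intro q
    obtain ⟨g, rfl⟩ := QuotientGroup.mk_surjective q
    obtain ⟨u, hu, v, hv, rfl⟩ := hc g
    exact ⟨(⟨π u, mem_map_of_mem π hu⟩, ⟨π v, mem_map_of_mem π hv⟩), rfl⟩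
  have c1 : Nat.card ((U.map π) × (V.map π)) = K.relIndex U * K.relIndex V := by
    rw [Nat.card_prod, cU, cV]
  have c2 : m * m ≤ K.relIndex U * K.relIndex V := by
    rw [← cQ, ← c1]; exact Nat.card_le_card_of_surjective f hf
  have hUm : K.relIndex U = m := by
    refine le_antisymm hU ?_
    by_contra hlt
    rw [not_le] at hlt
    have : K.relIndex U * K.relIndex V < m * m :=
      Nat.mul_lt_mul_of_lt_of_le hlt hV hm
    omega
  refine ⟨hUm, fun u hu v hv huv => ?_⟩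
  have hb : Function.Bijective f := by
    refine hf.bijective_of_nat_card_le ?_
    rw [c1, cQ]
    exact Nat.mul_le_mul hU hV
  have h1 : π u = π v := by
    rw [hπ, QuotientGroup.mk'_apply, QuotientGroup.mk'_apply, QuotientGroup.eq]; exact huv
  have h2 : f (⟨π u, mem_map_of_mem π hu⟩, 1) = f (1, ⟨π v, mem_map_of_mem π hv⟩) := by
    simp only [f, OneMemClass.coe_one, mul_one, one_mul]; exact h1
  have h3 := hb.1 h2
  have h4 : (⟨π u, mem_map_of_mem π hu⟩ : U.map π) = 1 := (Prod.ext_iff.1 h3).1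
  have h5 : π u = 1 := congrArg Subtype.val h4
  rw [← hk, MonoidHom.mem_ker]
  exact h5

variable {P : Type} [Group P] [Finite P] {a b : P} {r : ℕ}

theorem sq_mem_F (hP : IsPGroup 2 P) (D : Data a b r) (x : P) : x ^ 2 ∈ F a b :=
  ⟨sq_mem_of_index_two (index_N hP D) x, sq_mem_of_index_two (index_M D) x⟩

theorem comm_A (D : Data a b r) (x y : P) : (y * x)⁻¹ * (x * y) ∈ zpowers a := by
  obtain ⟨j, i, rfl⟩ := rep D x
  obtain ⟨l, k, rfl⟩ := rep D y
  rw [comm_eq D]
  exact ⟨_, rfl⟩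

theorem comm_F (hP : IsPGroup 2 P) (D : Data a b r) (x y : P) : (y * x)⁻¹ * (x * y) ∈ F a b := by
  obtain ⟨j, i, rfl⟩ := rep D x
  obtain ⟨l, k, rfl⟩ := rep D y
  rw [comm_eq D]
  obtain ⟨c, hc⟩ := comm_even D l j i k
  have h := mem_F hP D 0 (i * ((r : ℤ) ^ l - 1) - k * ((r : ℤ) ^ j - 1))
  rw [pow_zero, one_mul] at h
  rw [h]
  refine ⟨Even.zero, ?_⟩
  rw [hc]
  exact ⟨(i * l + k * j) + 2 * c, by ring⟩

theorem comm_ord (hP : IsPGroup 2 P) (D : Data a b r) {x y : P} (hx : x ∉ F a b)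
    (hy : y ∉ F a b) (hxy : x * y ∉ F a b) :
    orderOf ((y * x)⁻¹ * (x * y)) * 2 = orderOf a := by
  obtain ⟨j, i, rfl⟩ := rep D x
  obtain ⟨l, k, rfl⟩ := rep D y
  rw [comm_eq D]
  obtain ⟨c, hc⟩ := comm_even D l j i k
  rw [mem_F hP D] at hx hy
  rw [mulf D, mem_F hP D] at hxy
  have hro := r_odd D l
  have hodd : Odd (i * (l : ℤ) + k * j + 2 * c) := by
    have e1 : Even (i * (r : ℤ) ^ l + k) ↔ Even (i + k) := by
      rw [Int.even_add, Int.even_add, Int.even_mul]
      have : ¬ Even ((r : ℤ) ^ l) := Int.not_even_iff_odd.2 hro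
      tauto
    rw [e1] at hxy
    rw [← Int.not_even_iff_odd, Int.even_add, Int.even_add, Int.even_mul, Int.even_mul]
    rw [Nat.even_add, Int.even_add] at hxy
    have e2 : Even (2 * c) := ⟨c, by ring⟩
    rw [Int.even_coe_nat, Int.even_coe_nat]
    tauto
  set o := i * (l : ℤ) + k * j + 2 * c with ho
  have he : i * ((r : ℤ) ^ l - 1) - k * ((r : ℤ) ^ j - 1) = 2 * o := by rw [hc]; ring
  rw [he]
  have h2 : orderOf (a ^ 2) * 2 = orderOf a := by
    have hd : 2 ∣ orderOf a := (by norm_num : (2 : ℕ) ∣ 4).trans D.four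
    rw [orderOf_pow_of_dvd (by norm_num) hd]
    exact Nat.div_mul_cancel hd
  have : Fact (Nat.Prime 2) := ⟨Nat.prime_two⟩
  obtain ⟨m, hm⟩ := IsPGroup.iff_orderOf.1 hP (a ^ 2)
  have h4 : a ^ 2 ∈ zpowers ((a ^ 2) ^ o) := by
    rw [mem_zpowers_zpow_iff, hm, ← Int.isCoprime_iff_gcd_eq_one]
    push_cast
    apply IsCoprime.pow_right
    obtain ⟨s, hs⟩ := hodd
    exact ⟨1, -s, by rw [hs]; ring⟩
  have h5 : zpowers ((a ^ 2) ^ o) = zpowers (a ^ 2) := by
    apply le_antisymm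
    · rw [zpowers_le]; exact ⟨o, rfl⟩
    · rwa [zpowers_le]
  have h6 : a ^ (2 * o) = (a ^ 2) ^ o := by rw [zpow_mul]; norm_cast
  rw [h6, ← Nat.card_zpowers, h5, Nat.card_zpowers, h2]

omit [Finite P] in
theorem mk_rep (D : Data a b r) [(zpowers a).Normal] (j : ℕ) (i : ℤ) :
    ((b ^ j * a ^ i : P) : P ⧸ zpowers a) = (b : P ⧸ zpowers a) ^ j := by
  have h : ((a ^ i : P) : P ⧸ zpowers a) = 1 := by
    rw [QuotientGroup.eq_one_iff]; exact ⟨i, rfl⟩
  rw [QuotientGroup.mk_mul, h, mul_one, QuotientGroup.mk_pow]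

theorem ord_mk_b (D : Data a b r) [(zpowers a).Normal] :
    orderOf (b : P ⧸ zpowers a) = (zpowers a).index := by
  have : Nat.card (P ⧸ zpowers a) = (zpowers a).index := rfl
  rw [← this]
  apply orderOf_eq_card_of_forall_mem_zpowers
  intro q
  obtain ⟨x, rfl⟩ := QuotientGroup.mk_surjective q
  obtain ⟨j, i, rfl⟩ := rep D x
  rw [mk_rep D]
  exact ⟨j, by simp⟩

theorem index_pow (hP : IsPGroup 2 P) (D : Data a b r) : ∃ s, (zpowers a).index = 2 ^ (s + 1) := by
  have : Fact (Nat.Prime 2) := ⟨Nat.prime_two⟩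
  obtain ⟨s, hs⟩ := hP.index (zpowers a)
  rcases s with _ | s
  · exfalso
    rw [pow_zero, index_eq_one] at hs
    have hb : b ∈ zpowers a := by rw [hs]; trivial
    obtain ⟨i, hi⟩ := hb
    refine a_b_ne D ?_
    rw [← hi]
    exact (Commute.self_zpow a i).eq
  · exact ⟨s, hs⟩

theorem ord_mk (hP : IsPGroup 2 P) (D : Data a b r) [(zpowers a).Normal] {w : P}
    (hw : w ∉ N a b) : orderOf (w : P ⧸ zpowers a) = (zpowers a).index := by
  obtain ⟨j, i, rfl⟩ := rep D w
  rw [mem_N hP D, Nat.not_even_iff_odd] at hw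
  rw [mk_rep D, Nat.Coprime.orderOf_pow, ord_mk_b D]
  obtain ⟨s, hs⟩ := index_pow hP D
  rw [ord_mk_b D, hs]
  exact Nat.Coprime.pow_left _ (Nat.coprime_two_left.2 hw)

theorem ord_mk_sq (hP : IsPGroup 2 P) (D : Data a b r) [(zpowers a).Normal] {w : P}
    (hw : w ∉ N a b) : orderOf ((w ^ 2 : P) : P ⧸ zpowers a) * 2 = (zpowers a).index := by
  have h := ord_mk hP D hw
  obtain ⟨s, hs⟩ := index_pow hP D
  have hd : 2 ∣ orderOf (w : P ⧸ zpowers a) := by rw [h, hs]; exact Dvd.intro_left (2 ^ s) rfl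
  rw [QuotientGroup.mk_pow, orderOf_pow_of_dvd (by norm_num) hd, Nat.div_mul_cancel hd, h]

/-- `F × F` -/
def FF (a b : P) : Subgroup (P × P) := (F a b).prod (F a b)

theorem card_ge (hP : IsPGroup 2 P) (D : Data a b r) (U : Subgroup (P × P)) (f g : P × P →* P)
    (hg : ∀ x ∈ (zpowers a).prod (zpowers a), g x ∈ zpowers a)
    {u v w : P × P} (hu : u ∈ U) (hv : v ∈ U) (hw : w ∈ U) (h1 : f u ∉ F a b)
    (h2 : f v ∉ F a b) (h3 : f u * f v ∉ F a b) (h4 : g w ∉ N a b) :
    Nat.card P ≤ 4 * Nat.card (FF a b ⊓ U : Subgroup (P × P)) := by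
  have := D.norm
  set W := (FF a b ⊓ U : Subgroup (P × P)) with hW
  set φ : P × P →* P ⧸ zpowers a := (QuotientGroup.mk' (zpowers a)).comp g with hφ
  set t := (v * u)⁻¹ * (u * v) with ht
  have htU : t ∈ U := U.mul_mem (U.inv_mem (U.mul_mem hv hu)) (U.mul_mem hu hv)
  have htF : t ∈ FF a b := by
    rw [FF, mem_prod]
    exact ⟨comm_F hP D u.1 v.1, comm_F hP D u.2 v.2⟩
  have htA : t ∈ (zpowers a).prod (zpowers a) := by
    rw [mem_prod]
    exact ⟨comm_A D u.1 v.1, comm_A D u.2 v.2⟩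
  have hwW : w ^ 2 ∈ W := by
    refine ⟨?_, U.pow_mem hw 2⟩
    change w ^ 2 ∈ FF a b
    rw [FF, mem_prod]
    exact ⟨sq_mem_F hP D w.1, sq_mem_F hP D w.2⟩
  have htK : t ∈ φ.ker ⊓ W := by
    refine ⟨?_, htF, htU⟩
    change φ t = 1
    rw [hφ, MonoidHom.comp_apply, QuotientGroup.mk'_apply, QuotientGroup.eq_one_iff]
    exact hg t htA
  have c1 : orderOf (f t) * 2 = orderOf a := by
    have : f t = (f v * f u)⁻¹ * (f u * f v) := by rw [ht]; simp only [map_mul, map_inv]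
    rw [this]
    exact comm_ord hP D h1 h2 h3
  have c2 : orderOf (f t) ≤ Nat.card (φ.ker ⊓ W : Subgroup (P × P)) := by
    refine le_trans (Nat.le_of_dvd (orderOf_pos t) (orderOf_map_dvd f t)) ?_
    rw [← Nat.card_zpowers]
    exact card_le_of_le (by rwa [zpowers_le])
  have c3 : orderOf (φ (w ^ 2)) * 2 = (zpowers a).index := by
    have : φ (w ^ 2) = (((g w) ^ 2 : P) : P ⧸ zpowers a) := by
      rw [hφ, MonoidHom.comp_apply, map_pow, QuotientGroup.mk'_apply]
    rw [this]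
    exact ord_mk_sq hP D h4
  have c4 : orderOf (φ (w ^ 2)) ≤ φ.ker.relIndex W := by
    rw [relIndex_ker, ← Nat.card_zpowers]
    exact card_le_of_le (by rw [zpowers_le]; exact mem_map_of_mem φ hwW)
  have c5 := card_relIndex φ.ker W
  have c6 : orderOf a * (zpowers a).index = Nat.card P := by
    rw [← Nat.card_zpowers]; exact card_mul_index _
  rw [← c5, ← c6, ← c1, ← c3]
  calc orderOf (f t) * 2 * (orderOf (φ (w ^ 2)) * 2)
      = 4 * (orderOf (f t) * orderOf (φ (w ^ 2))) := by ring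
    _ ≤ _ := Nat.mul_le_mul_left 4 (Nat.mul_le_mul c2 c4)

omit [Finite P] in
theorem FF_eq (a b : P) :
    FF a b = (F a b).comap (MonoidHom.fst P P) ⊓ (F a b).comap (MonoidHom.snd P P) := rfl

theorem relIndex_le_four (hP : IsPGroup 2 P) (D : Data a b r) (U : Subgroup (P × P))
    (hU : Nat.card U = Nat.card P) : (FF a b).relIndex U ≤ 4 := by
  by_contra hlt
  rw [not_le] at hlt
  -- an element outside `N × N`
  have h1 : ∃ g : P × P →* P, (g = MonoidHom.fst P P ∨ g = MonoidHom.snd P P) ∧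
      ∃ w ∈ U, g w ∉ N a b := by
    by_contra hno
    push Not at hno
    have hN1 := hno _ (Or.inl rfl)
    have hN2 := hno _ (Or.inr rfl)
    have key : ∀ g : P × P →* P, (∀ w ∈ U, g w ∈ N a b) → ((F a b).comap g).relIndex U ≤ 2 := by
      intro g hg
      apply relIndex_le_two
      intro x hx y hy
      rw [mem_comap, mem_comap, mem_comap]
      by_cases hxM : g x ∈ M a b
      · exact Or.inl ⟨hg x hx, hxM⟩
      by_cases hyM : g y ∈ M a b
      · exact Or.inr (Or.inl ⟨hg y hy, hyM⟩)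
      refine Or.inr (Or.inr ?_)
      rw [map_mul]
      exact ⟨(N a b).mul_mem (hg x hx) (hg y hy), mul_mem_M D _ _ hxM hyM⟩
    have h3 := relIndex_inf_le (H := (F a b).comap (MonoidHom.fst P P))
      (K := (F a b).comap (MonoidHom.snd P P)) (L := U)
    rw [← FF_eq] at h3
    have := Nat.mul_le_mul (key _ hN1) (key _ hN2)
    omega
  have h2 : ∃ f : P × P →* P, (f = MonoidHom.fst P P ∨ f = MonoidHom.snd P P) ∧
      ∃ u ∈ U, ∃ v ∈ U, f u ∉ F a b ∧ f v ∉ F a b ∧ f u * f v ∉ F a b := by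
    by_contra hno
    push Not at hno
    have key : ∀ g : P × P →* P,
        (∀ u ∈ U, ∀ v ∈ U, g u ∉ F a b → g v ∉ F a b → g u * g v ∈ F a b) →
        ((F a b).comap g).relIndex U ≤ 2 := by
      intro g hg
      apply relIndex_le_two
      intro x hx y hy
      rw [mem_comap, mem_comap, mem_comap, map_mul]
      by_contra hc
      push Not at hc
      exact hc.2.2 (hg x hx y hy hc.1 hc.2.1)
    have h3 := relIndex_inf_le (H := (F a b).comap (MonoidHom.fst P P))
      (K := (F a b).comap (MonoidHom.snd P P)) (L := U)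
    rw [← FF_eq] at h3
    have := Nat.mul_le_mul (key _ (hno _ (Or.inl rfl))) (key _ (hno _ (Or.inr rfl)))
    omega
  obtain ⟨g, hg, w, hw, hwN⟩ := h1
  obtain ⟨f, -, u, hu, v, hv, h3, h4, h5⟩ := h2
  have hpr : ∀ g : P × P →* P, (g = MonoidHom.fst P P ∨ g = MonoidHom.snd P P) →
      ∀ x ∈ (zpowers a).prod (zpowers a), g x ∈ zpowers a := by
    intro g hg x hx
    rw [mem_prod] at hx
    rcases hg with rfl | rfl
    · exact hx.1
    · exact hx.2
  have h6 := card_ge hP D U f g (hpr g hg) hu hv hw h3 h4 h5 hwN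
  have h7 := card_relIndex (FF a b) U
  rw [hU] at h7
  have h8 : 0 < Nat.card (FF a b ⊓ U : Subgroup (P × P)) := Nat.card_pos
  nlinarith

theorem normFF (hP : IsPGroup 2 P) (D : Data a b r) : (FF a b).Normal := by
  have := normF hP D
  rw [FF]; infer_instance

theorem index_FF (hP : IsPGroup 2 P) (D : Data a b r) : (FF a b).index = 4 * 4 := by
  rw [FF, Subgroup.index_prod, index_F hP D]

end Pool.Agent.MC50
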